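import Pool.Agent.GTwo.JGroup

/-!
# Automorphisms of the base field
-/

set_option autoImplicit false

noncomputable section

namespace Pool.Agent.GTwo

open Polynomial
open scoped Classical

variable {k : Type} [Field k] {f : k[X]}

/-- the action on the regular functions -/
private def actRg (σ : k ≃+* k) (h : f.map (σ : k →+* k) = f) : Rg f →+* Rg f where
  toFun z := ⟨z.re.map (σ : k →+* k), z.im.map (σ : k →+* k)⟩
  map_one' := by ext1 <;> simp [QuadraticAlgebra.re_one, QuadraticAlgebra.im_one]
  map_mul' z w := by ext1 <;> simp [h]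
  map_zero' := by ext1 <;> simp
  map_add' z w := by ext1 <;> simp

private lemma actRg_apply (σ : k ≃+* k) (h : f.map (σ : k →+* k) = f) (z : Rg f) :
    actRg σ h z = ⟨z.re.map (σ : k →+* k), z.im.map (σ : k →+* k)⟩ := rfl

private lemma map_ideal (σ : k ≃+* k) (h : f.map (σ : k →+* k) = f) (P : Pt f) :
    P.ideal.map (actRg σ h) = (P.act σ h).ideal := by
  cases P with
  | inf => exact Ideal.map_top _
  | aff x y e =>
    show (Ideal.span {⟨X - C x, 0⟩, ⟨-C y, 1⟩}).map (actRg σ h) =
      Ideal.span {⟨X - C (σ x), 0⟩, ⟨-C (σ y), 1⟩}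
    rw [Ideal.map_span, Set.image_pair, actRg_apply, actRg_apply]
    simp

private lemma prin_act (σ : k ≃+* k) (h : f.map (σ : k →+* k) = f) {s : Multiset (Pt f)}
    (hs : Prin s) : Prin (s.map fun P => P.act σ h) := by
  obtain ⟨α, hα⟩ := hs
  refine ⟨actRg σ h α, ?_⟩
  have h1 := congrArg (Ideal.mapHom (actRg σ h)) hα
  rw [map_multiset_prod, Multiset.map_map] at h1
  have h2 : Ideal.mapHom (actRg σ h) (Ideal.span {α}) = Ideal.span {actRg σ h α} := by
    show (Ideal.span {α}).map (actRg σ h) = _
    rw [Ideal.map_span, Set.image_singleton]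
  rw [← h2, h1, Multiset.map_map]
  congr 1
  refine Multiset.map_congr rfl fun P _ => ?_
  exact map_ideal σ h P

private lemma dv_act (g : Pt f → Pt f) (s : Multiset (Pt f)) :
    Finsupp.mapDomain g (dv s) = dv (s.map g) := by
  unfold dv
  induction s using Multiset.induction_on with
  | empty => simp
  | cons P s ih =>
    rw [Multiset.map_cons, Multiset.sum_cons, Finsupp.mapDomain_add, ih, Multiset.map_cons,
      Multiset.map_cons, Multiset.sum_cons, Finsupp.mapDomain_single]

private lemma exists_actHom (σ : k ≃+* k) (h : f.map (σ : k →+* k) = f) :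
    ∃ T : J f →+ J f, ∀ P, T (cl P) = cl (P.act σ h) := by
  let m : (Pt f →₀ ℤ) →+ (Pt f →₀ ℤ) := Finsupp.mapDomain.addMonoidHom fun P => P.act σ h
  refine ⟨QuotientAddGroup.map _ _ m ?_, ?_⟩
  · rw [AddSubgroup.closure_le]
    rintro D ⟨s, hs, rfl⟩
    refine AddSubgroup.subset_closure ⟨s.map fun P => P.act σ h, prin_act σ h hs, ?_⟩
    exact dv_act _ s
  · intro P
    unfold cl
    rw [QuotientAddGroup.map_mk]
    congr 1
    exact Finsupp.mapDomain_single

theorem exists_act (σ : k ≃+* k) (h : f.map (σ : k →+* k) = f) :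
    ∃ T : J f →+ J f, (∀ P, T (cl P) = cl (P.act σ h)) ∧ Function.Injective T := by
  have h' : f.map (σ.symm : k →+* k) = f := by
    conv_lhs => rw [← h]
    rw [Polynomial.map_map]
    have : (σ.symm : k →+* k).comp (σ : k →+* k) = RingHom.id k := by
      ext a
      simp
    rw [this, Polynomial.map_id]
  obtain ⟨T, hT⟩ := exists_actHom σ h
  obtain ⟨T', hT'⟩ := exists_actHom σ.symm h'
  refine ⟨T, hT, ?_⟩
  have hcomp : T'.comp T = AddMonoidHom.id (J f) := by
    refine QuotientAddGroup.addMonoidHom_ext _ ?_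
    refine Finsupp.addHom_ext fun P n => ?_
    have h1 : (QuotientAddGroup.mk (Finsupp.single P n) : J f) = n • cl P := by
      unfold cl
      rw [← QuotientAddGroup.mk_zsmul, Finsupp.smul_single, smul_eq_mul, mul_one]
    show T' (T (QuotientAddGroup.mk (Finsupp.single P n))) = QuotientAddGroup.mk (Finsupp.single P n)
    rw [h1, map_zsmul, map_zsmul, hT, hT']
    congr 2
    cases P with
    | inf => rfl
    | aff x y e => simp [Pt.act]
  intro a b hab
  have h2 : ∀ a, T' (T a) = a := fun a => DFunLike.congr_fun hcomp a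
  rw [← h2 a, hab, h2 b]

end Pool.Agent.GTwo
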