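import Pool.Agent.GTwo.Defs2

/-!
# Reductions of numbers of bounded degree
-/

set_option autoImplicit false

noncomputable section

namespace Pool.Agent.GTwo

open Polynomial
open scoped Classical

theorem finite_residue {l : ℕ} (hl : l.Prime) (O : ValuationSubring (AlgebraicClosure ℚ))
    (hO : (l : IsLocalRing.ResidueField O) = 0) (n : ℕ) :
    {z : IsLocalRing.ResidueField O | ∃ x : O, IsLocalRing.residue O x = z ∧
      (minpoly ℚ (x : AlgebraicClosure ℚ)).natDegree ≤ n}.Finite := by
  have _ : Fact l.Prime := ⟨hl⟩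
  have hchar : CharP (IsLocalRing.ResidueField O) l := (CharP.charP_iff_prime_eq_zero hl).mpr hO
  let ψ : ZMod l →+* IsLocalRing.ResidueField O := ZMod.castHom (dvd_refl l) _
  have hfin : Finite (degreeLT (ZMod l) (n + 1)) :=
    Finite.of_equiv _ (degreeLTEquiv (ZMod l) (n + 1)).toEquiv.symm
  refine Set.Finite.subset (Set.finite_iUnion
    (fun P : degreeLT (ZMod l) (n + 1) => ((P : (ZMod l)[X]).map ψ).roots.toFinset.finite_toSet)) ?_
  rintro z ⟨x, hxz, hx⟩
  -- an integral polynomial
  have hx0 : minpoly ℚ (x : AlgebraicClosure ℚ) ≠ 0 := by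
    apply minpoly.ne_zero
    have h1 : IsAlgebraic ℚ (x : AlgebraicClosure ℚ) := by
      convert (AlgebraicClosure.isAlgebraic ℚ).isAlgebraic (x : AlgebraicClosure ℚ)
      · rfl
      · exact Subsingleton.elim _ _
    exact isAlgebraic_iff_isIntegral.mp h1
  set p := IsLocalization.integerNormalization (nonZeroDivisors ℤ)
    (minpoly ℚ (x : AlgebraicClosure ℚ)) with hp
  have hp0 : p ≠ 0 := by
    rw [hp, Ne, IsFractionRing.integerNormalization_eq_zero_iff]
    exact hx0
  have hpx : aeval (x : AlgebraicClosure ℚ) p = 0 :=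
    IsLocalization.integerNormalization_aeval_eq_zero _ _ (minpoly.aeval _ _)
  have hpd : p.natDegree ≤ n := by
    refine le_trans ?_ hx
    apply natDegree_le_natDegree
    exact Finset.sup_mono (IsLocalization.integerNormalization_support _ _)
  have hqx : aeval (x : AlgebraicClosure ℚ) p.primPart = 0 := by
    have h1 := hpx
    rw [p.eq_C_content_mul_primPart, map_mul, aeval_C, mul_eq_zero] at h1
    rcases h1 with h1 | h1
    · exfalso
      have h2 : p.content = 0 := by simpa using h1
      exact hp0 (content_eq_zero_iff.mp h2)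
    · exact h1
  have hqx' : eval₂ (Int.castRingHom O) x p.primPart = 0 := by
    apply Subtype.val_injective
    have e1 : eval₂ (Int.castRingHom (AlgebraicClosure ℚ)) (x : AlgebraicClosure ℚ)
        p.primPart = 0 := by
      rw [aeval_def] at hqx
      exact (congrArg (fun g : ℤ →+* AlgebraicClosure ℚ => eval₂ g (x : AlgebraicClosure ℚ)
        p.primPart) (RingHom.ext_int _ _)).trans hqx
    have h2 := hom_eval₂ p.primPart (Int.castRingHom O) O.subtype x
    rw [RingHom.ext_int (O.subtype.comp (Int.castRingHom O))
      (Int.castRingHom (AlgebraicClosure ℚ))] at h2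
    exact h2.trans e1
  refine Set.mem_iUnion.mpr ⟨⟨p.primPart.map (Int.castRingHom (ZMod l)), ?_⟩, ?_⟩
  · rw [mem_degreeLT]
    refine lt_of_le_of_lt degree_map_le ?_
    refine lt_of_le_of_lt degree_le_natDegree ?_
    rw [natDegree_primPart]
    exact_mod_cast Nat.lt_succ_of_le hpd
  · rw [Finset.mem_coe, Multiset.mem_toFinset, mem_roots', IsRoot.def, eval_map]
    constructor
    · rw [Ne, Polynomial.map_eq_zero_iff ψ.injective]
      intro h0
      have h1 : C (l : ℤ) ∣ p.primPart := by
        rw [C_dvd_iff_dvd_coeff]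
        intro i
        have h2 := congrArg (fun q => q.coeff i) h0
        simp only [coeff_map, coeff_zero, eq_intCast] at h2
        exact (ZMod.intCast_zmod_eq_zero_iff_dvd _ _).mp h2
      have h2 := p.isPrimitive_primPart (l : ℤ) h1
      rw [Int.isUnit_iff] at h2
      have h3 := hl.one_lt
      rcases h2 with h2 | h2 <;> omega
    · rw [eval₂_map, ← hxz]
      have h1 := congrArg (IsLocalRing.residue O) hqx'
      rw [hom_eval₂, map_zero] at h1
      have e2 : ψ.comp (Int.castRingHom (ZMod l)) =
          (IsLocalRing.residue O).comp (Int.castRingHom O) := RingHom.ext_int _ _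
      rw [e2]
      exact h1

end Pool.Agent.GTwo
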