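import Pool.Agent.GTwo.Domain

/-!
# Cancellation and saturation
-/

set_option autoImplicit false

noncomputable section

namespace Pool.Agent.GTwo

open Polynomial
open scoped Classical

variable {A : Type} [CommRing A] {f : A[X]}

private lemma lins_monic (s : Multiset (Pt f)) : (lins s).Monic :=
  monic_multiset_prod_of_monic _ _ fun P _ => P.lin_monic

private lemma rl_ne_zero [IsDomain A] (s : Multiset (Pt f)) : (rl (lins s) : Rg f) ≠ 0 := by
  intro h
  have h1 := congrArg QuadraticAlgebra.re h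
  rw [QuadraticAlgebra.re_zero, QuadraticAlgebra.algebraMap_re] at h1
  exact (lins_monic s).ne_zero h1

private lemma rl_dvd (g : A[X]) (z : Rg f) : rl g ∣ z ↔ g ∣ z.re ∧ g ∣ z.im :=
  QuadraticAlgebra.algebraMap_dvd_iff

theorem idl_cancel [IsDomain A] (hf : Hyp f) (s : Multiset (Pt f)) {I K : Ideal (Rg f)}
    (h : idl s * I ≤ idl s * K) : I ≤ K := by
  have _ : IsDomain (Rg f) := rg_isDomain hf
  have h1 : Ideal.span {rl (lins s)} * I ≤ Ideal.span {(rl (lins s) : Rg f)} * K := by
    rw [← idl_mul_neg hf s, mul_comm (idl s), mul_assoc, mul_assoc]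
    exact Ideal.mul_mono_right h
  exact (Ideal.span_singleton_mul_right_mono (rl_ne_zero s)).mp h1

theorem mem_idl_iff [IsDomain A] (hf : Hyp f) (s : Multiset (Pt f)) (z : Rg f) :
    z ∈ idl s ↔ ∀ w ∈ idl (s.map Pt.neg), rl (lins s) ∣ z * w := by
  constructor
  · intro hz w hw
    have h1 : z * w ∈ idl s * idl (s.map Pt.neg) := Ideal.mul_mem_mul hz hw
    rw [idl_mul_neg hf s, Ideal.mem_span_singleton] at h1
    exact h1
  · intro h
    have h1 : Ideal.span {z} ≤ idl s := by
      apply idl_cancel hf (s.map Pt.neg)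
      rw [mul_comm _ (idl s), idl_mul_neg hf s, mul_comm _ (Ideal.span {z}),
        Ideal.span_singleton_mul_le_iff]
      intro w hw
      rw [Ideal.mem_span_singleton]
      exact h w hw
    exact h1 (Ideal.mem_span_singleton_self z)

/-- the ideal is saturated -/
theorem idl_sat [IsDomain A] (hf : Hyp f) (s : Multiset (Pt f)) {c : A} (hc : c ≠ 0) {z : Rg f}
    (h : rl (C c) * z ∈ idl s) : z ∈ idl s := by
  have key : ∀ p : A[X], lins s ∣ C c * p → lins s ∣ p := by
    intro p hp
    have hm := lins_monic s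
    rw [← modByMonic_eq_zero_iff_dvd hm] at hp ⊢
    rw [← smul_eq_C_mul, smul_modByMonic, smul_eq_zero] at hp
    exact hp.resolve_left hc
  rw [mem_idl_iff hf] at h ⊢
  intro w hw
  have h1 := h w hw
  rw [mul_assoc, rl_dvd] at h1
  rw [rl_dvd]
  constructor
  · apply key
    have h2 := h1.1
    convert h2 using 1
    simp
  · apply key
    have h2 := h1.2
    convert h2 using 1
    simp

theorem mem_idl_of_map [IsDomain A] (hf : Hyp f) {B : Type} [CommRing B] [IsDomain B]
    (φ : A →+* B) (hφ : Function.Injective φ) (s : Multiset (Pt f)) {z : Rg f}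
    (h : Rg.map φ z ∈ idl (s.map (Pt.map φ))) : z ∈ idl s := by
  have hfB : Hyp (f.map φ) := hf.map φ
  have key : ∀ p : A[X], (lins s).map φ ∣ p.map φ → lins s ∣ p := by
    intro p hp
    have hm := lins_monic s
    rw [← modByMonic_eq_zero_iff_dvd hm]
    rw [← modByMonic_eq_zero_iff_dvd (hm.map φ), ← map_modByMonic φ hm] at hp
    exact (Polynomial.map_eq_zero_iff hφ).mp hp
  rw [mem_idl_iff hfB] at h
  rw [mem_idl_iff hf]
  intro w hw
  have hw' : Rg.map φ w ∈ idl ((s.map (Pt.map φ)).map Pt.neg) := by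
    have e1 : (s.map (Pt.map φ)).map Pt.neg = (s.map Pt.neg).map (Pt.map φ) := by
      rw [Multiset.map_map, Multiset.map_map]
      apply Multiset.map_congr rfl
      intro P _
      exact (Pt.map_neg φ P).symm
    rw [e1, idl_map]
    exact Ideal.mem_map_of_mem _ hw
  have h1 := h _ hw'
  rw [← map_mul, rl_dvd, lins_map] at h1
  rw [rl_dvd]
  exact ⟨key _ h1.1, key _ h1.2⟩

end Pool.Agent.GTwo
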