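import Pool.Agent.GTwo.Defs2

/-!
# The combinatorial core
-/

set_option autoImplicit false

noncomputable section

namespace Pool.Agent.GTwo

open Polynomial
open scoped Classical

private def Tor {G : Type} [AddCommGroup G] (x : G) : Prop := ∃ n : ℕ, 0 < n ∧ n • x = 0

private theorem Tor.add {G : Type} [AddCommGroup G] {x y : G} (hx : Tor x) (hy : Tor y) :
    Tor (x + y) := by
  obtain ⟨n, hn, h1⟩ := hx
  obtain ⟨m, hm, h2⟩ := hy
  refine ⟨n * m, Nat.mul_pos hn hm, ?_⟩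
  rw [nsmul_add, mul_nsmul x n m, h1, mul_comm, mul_nsmul y m n, h2]
  simp

private theorem Tor.neg {G : Type} [AddCommGroup G] {x : G} (hx : Tor x) : Tor (-x) := by
  obtain ⟨n, hn, h1⟩ := hx
  exact ⟨n, hn, by rw [smul_neg, h1, neg_zero]⟩

private theorem Tor.sub {G : Type} [AddCommGroup G] {x y : G} (hx : Tor x) (hy : Tor y) :
    Tor (x - y) := by
  rw [sub_eq_add_neg]; exact hx.add hy.neg

private theorem Tor.map {G : Type} [AddCommGroup G] {x : G} (f : G →+ G) (hx : Tor x) :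
    Tor (f x) := by
  obtain ⟨n, hn, h1⟩ := hx
  exact ⟨n, hn, by rw [← map_nsmul, h1, map_zero]⟩

private theorem Tor.of_two {G : Type} [AddCommGroup G] {x : G} (hx : Tor (x + x)) : Tor x := by
  obtain ⟨n, hn, h1⟩ := hx
  refine ⟨2 * n, by omega, ?_⟩
  rw [mul_nsmul, two_nsmul, h1]

/-- the combinatorial core -/
theorem core {G : Type} [AddCommGroup G] {P : Type} (c : P → G) (σ : G →+ G) (σP : P → P)
    (hσ : ∀ p, σ (c p) = c (σP p)) (htwo : ∀ g, ∃ p q, g = c p + c q)
    (hfib : ∀ τ : G, τ ≠ 0 → {z | ∃ u, c u - c z = τ}.Finite)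
    {ι : Type} [Finite ι] (Gi : ι → Type) [∀ i, AddCommGroup (Gi i)] (Pi : ι → Type)
    (ci : ∀ i, Pi i → Gi i) (Sp : ∀ i, G →+ Gi i) (sp : ∀ i, P → Pi i)
    (hsp : ∀ i p, Sp i (c p) = ci i (sp i p))
    (huniq : ∀ i (p q p' q' : Pi i), ci i p + ci i q = ci i p' + ci i q' →
      ci i p + ci i q ≠ 0 → (p = p' ∧ q = q') ∨ (p = q' ∧ q = p'))
    (hker : ∀ g : G, (∀ i, Sp i g = 0) → (∃ n : ℕ, 0 < n ∧ n • g = 0) → g = 0)
    (a T : G) (ha : ∀ n : ℕ, 0 < n → n • a ≠ 0) (hσa : σ a = a) (hSa : ∀ i, Sp i a = 0)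
    (hT : ∃ n : ℕ, 0 < n ∧ n • T = 0) (hST : ∀ i, Sp i T ≠ 0) (hSσT : ∀ i, Sp i (σ T) ≠ 0)
    (hne : σ T ≠ T) : ∃ N : ℕ, 0 < N ∧ ∃ p q, N • a + T = c p + c q ∧
      ∀ m : ℕ, 0 < m → m • (σ (c p - c q) - (c p - c q)) ≠ 0 := by
  by_contra hcon
  push Not at hcon
  -- choice of the points
  choose p q hpq using fun N : ℕ => htwo (N • a + T)
  have hinj : Function.Injective (fun N : ℕ => N • a + T) := by
    intro N N' h
    have h' : N • a = N' • a := add_right_cancel (show N • a + T = N' • a + T from h)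
    by_contra hN
    rcases lt_or_gt_of_ne hN with hlt | hlt
    · obtain ⟨k, rfl⟩ := Nat.exists_eq_add_of_lt hlt
      refine ha (k + 1) (by omega) ?_
      rw [show N + k + 1 = N + (k + 1) by ring, add_nsmul] at h'
      exact (left_eq_add.mp h')
    · obtain ⟨k, rfl⟩ := Nat.exists_eq_add_of_lt hlt
      refine ha (k + 1) (by omega) ?_
      rw [show N' + k + 1 = N' + (k + 1) by ring, add_nsmul] at h'
      exact (left_eq_add.mp h'.symm)
  set g : G := σ T - T with hg
  have hg0 : g ≠ 0 := sub_ne_zero.mpr hne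
  have hT' : Tor T := hT
  have hgt : Tor g := (hT'.map σ).sub hT'
  set t1 : ℕ → G := fun N => c (σP (p N)) - c (p N) with ht1
  set t2 : ℕ → G := fun N => c (σP (q N)) - c (q N) with ht2
  have hsum : ∀ N, t1 N + t2 N = g := by
    intro N
    have h1 : σ (N • a + T) = c (σP (p N)) + c (σP (q N)) := by
      rw [hpq N, map_add, hσ, hσ]
    rw [map_add, map_nsmul, hσa] at h1
    have h2 := hpq N
    simp only [ht1, ht2, hg]
    calc c (σP (p N)) - c (p N) + (c (σP (q N)) - c (q N))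
        = (c (σP (p N)) + c (σP (q N))) - (c (p N) + c (q N)) := by abel
      _ = (N • a + σ T) - (N • a + T) := by rw [← h1, ← h2]
      _ = σ T - T := by abel
  have hdiff : ∀ N, 0 < N → Tor (t1 N - t2 N) := by
    intro N hN
    obtain ⟨m, hm, h⟩ := hcon N hN (p N) (q N) (hpq N)
    refine ⟨m, hm, ?_⟩
    rw [← h]
    congr 1
    rw [map_sub, hσ, hσ]
    simp only [ht1, ht2]
    abel
  have htor1 : ∀ N, 0 < N → Tor (t1 N) := by
    intro N hN
    apply Tor.of_two
    have : t1 N + t1 N = g + (t1 N - t2 N) := by rw [← hsum N]; abel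
    rw [this]
    exact hgt.add (hdiff N hN)
  have htor2 : ∀ N, 0 < N → Tor (t2 N) := by
    intro N hN
    apply Tor.of_two
    have : t2 N + t2 N = g - (t1 N - t2 N) := by rw [← hsum N]; abel
    rw [this]
    exact hgt.sub (hdiff N hN)
  -- labels
  have hlab1 : ∀ N i, (sp i (p N) = sp i (p 0) ∧ sp i (q N) = sp i (q 0)) ∨
      (sp i (p N) = sp i (q 0) ∧ sp i (q N) = sp i (p 0)) := by
    intro N i
    have h : ∀ N, ci i (sp i (p N)) + ci i (sp i (q N)) = Sp i T := by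
      intro N
      rw [← hsp, ← hsp, ← map_add, ← hpq N, map_add, map_nsmul, hSa]
      simp
    exact huniq i _ _ _ _ ((h N).trans (h 0).symm) (by rw [h N]; exact hST i)
  have hlab2 : ∀ N i, (sp i (σP (p N)) = sp i (σP (p 0)) ∧ sp i (σP (q N)) = sp i (σP (q 0))) ∨
      (sp i (σP (p N)) = sp i (σP (q 0)) ∧ sp i (σP (q N)) = sp i (σP (p 0))) := by
    intro N i
    have h : ∀ N, ci i (sp i (σP (p N))) + ci i (sp i (σP (q N))) = Sp i (σ T) := by
      intro N
      rw [← hsp, ← hsp, ← map_add, ← hσ, ← hσ, ← map_add, ← hpq N, map_add, map_nsmul, hσa,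
        map_add, map_nsmul, hSa]
      simp
    exact huniq i _ _ _ _ ((h N).trans (h 0).symm) (by rw [h N]; exact hSσT i)
  let L : ℕ → ι → Bool × Bool := fun N i =>
    (decide (sp i (p N) = sp i (p 0) ∧ sp i (q N) = sp i (q 0)),
      decide (sp i (σP (p N)) = sp i (σP (p 0)) ∧ sp i (σP (q N)) = sp i (σP (q 0))))
  have hLeq : ∀ N N', L N = L N' → ∀ i, (sp i (p N) = sp i (p N') ∧ sp i (q N) = sp i (q N')) ∧
      (sp i (σP (p N)) = sp i (σP (p N')) ∧ sp i (σP (q N)) = sp i (σP (q N'))) := by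
    intro N N' h i
    have hi := congrFun h i
    simp only [L, Prod.mk.injEq, decide_eq_decide] at hi
    obtain ⟨h1, h2⟩ := hi
    constructor
    · by_cases hc : sp i (p N) = sp i (p 0) ∧ sp i (q N) = sp i (q 0)
      · have hc' := h1.mp hc
        exact ⟨hc.1.trans hc'.1.symm, hc.2.trans hc'.2.symm⟩
      · have hc' : ¬ (sp i (p N') = sp i (p 0) ∧ sp i (q N') = sp i (q 0)) := fun h => hc (h1.mpr h)
        have e1 := (hlab1 N i).resolve_left hc
        have e2 := (hlab1 N' i).resolve_left hc'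
        exact ⟨e1.1.trans e2.1.symm, e1.2.trans e2.2.symm⟩
    · by_cases hc : sp i (σP (p N)) = sp i (σP (p 0)) ∧ sp i (σP (q N)) = sp i (σP (q 0))
      · have hc' := h2.mp hc
        exact ⟨hc.1.trans hc'.1.symm, hc.2.trans hc'.2.symm⟩
      · have hc' : ¬ (sp i (σP (p N')) = sp i (σP (p 0)) ∧ sp i (σP (q N')) = sp i (σP (q 0))) :=
          fun h => hc (h2.mpr h)
        have e1 := (hlab2 N i).resolve_left hc
        have e2 := (hlab2 N' i).resolve_left hc'
        exact ⟨e1.1.trans e2.1.symm, e1.2.trans e2.2.symm⟩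
  have ht1eq : ∀ N N', 0 < N → 0 < N' → L N = L N' → t1 N = t1 N' := by
    intro N N' hN hN' h
    have hL := hLeq N N' h
    apply sub_eq_zero.mp
    apply hker
    · intro i
      simp only [ht1]
      rw [map_sub, map_sub, map_sub, hsp, hsp, hsp, hsp, (hL i).1.1, (hL i).2.1]
      abel
    · exact (htor1 N hN).sub (htor1 N' hN')
  have ht2eq : ∀ N N', 0 < N → 0 < N' → L N = L N' → t2 N = t2 N' := by
    intro N N' hN hN' h
    have hL := hLeq N N' h
    apply sub_eq_zero.mp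
    apply hker
    · intro i
      simp only [ht2]
      rw [map_sub, map_sub, map_sub, hsp, hsp, hsp, hsp, (hL i).1.2, (hL i).2.2]
      abel
    · exact (htor2 N hN).sub (htor2 N' hN')
  have hfin : ∀ t : ℕ → G, (∀ N N', 0 < N → 0 < N' → L N = L N' → t N = t N') →
      (t '' {N | 0 < N}).Finite := by
    intro t ht
    let F : (ι → Bool × Bool) → G := fun ℓ => if h : ∃ N, 0 < N ∧ L N = ℓ then t h.choose else 0
    refine (Set.finite_range F).subset ?_
    rintro _ ⟨N, hN, rfl⟩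
    have hex : ∃ N', 0 < N' ∧ L N' = L N := ⟨N, hN, rfl⟩
    refine ⟨L N, ?_⟩
    simp only [F, dif_pos hex]
    exact ht _ _ hex.choose_spec.1 hN hex.choose_spec.2
  let Z : G → Set P := fun τ => {z | ∃ u, c u - c z = τ}
  have hZ : ∀ τ, τ ≠ 0 → (Z τ).Finite := hfib
  let W : Set P := ⋃ τ ∈ ((t1 '' {N | 0 < N}) ∪ (t2 '' {N | 0 < N})) \ {0}, Z τ
  have hW : W.Finite := by
    refine Set.Finite.biUnion (((hfin t1 ht1eq).union (hfin t2 ht2eq)).subset Set.sdiff_subset) ?_
    intro τ hτ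
    exact hZ τ (by simpa using hτ.2)
  -- a finiteness principle
  have hfinN : ∀ A B : Set P, A.Finite → B.Finite →
      {N : ℕ | ∃ z ∈ A, ∃ u ∈ B, N • a + T = c z + c u}.Finite := by
    intro A B hA hB
    have h1 : (Set.image2 (fun z u => c z + c u) A B).Finite := Set.Finite.image2 _ hA hB
    refine Set.Finite.of_finite_image (f := fun N : ℕ => N • a + T) (h1.subset ?_)
      (hinj.injOn)
    rintro _ ⟨N, ⟨z, hz, u, hu, h⟩, rfl⟩
    exact ⟨z, hz, u, hu, h.symm⟩
  have hbad : {N : ℕ | 0 < N ∧ p N ∉ Z g ∧ q N ∉ Z g}.Finite := by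
    refine (hfinN W W hW hW).subset ?_
    rintro N ⟨hN, h1, h2⟩
    have hpN : p N ∈ Z (t1 N) := ⟨σP (p N), rfl⟩
    have hqN : q N ∈ Z (t2 N) := ⟨σP (q N), rfl⟩
    have ht10 : t1 N ≠ 0 := by
      intro h
      have := hsum N
      rw [h, zero_add] at this
      exact h2 (this ▸ hqN)
    have ht20 : t2 N ≠ 0 := by
      intro h
      have := hsum N
      rw [h, add_zero] at this
      exact h1 (this ▸ hpN)
    refine ⟨p N, ?_, q N, ?_, hpq N⟩
    · exact Set.mem_biUnion (x := t1 N) ⟨Or.inl ⟨N, hN, rfl⟩, by simpa using ht10⟩ hpN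
    · exact Set.mem_biUnion (x := t2 N) ⟨Or.inr ⟨N, hN, rfl⟩, by simpa using ht20⟩ hqN
  obtain ⟨N1, hN1⟩ := hbad.bddAbove
  have hgood : ∀ N, N1 < N → ∃ z u, z ∈ Z g ∧ N • a + T = c z + c u := by
    intro N hN
    by_cases h : p N ∈ Z g
    · exact ⟨p N, q N, h, hpq N⟩
    · by_cases h' : q N ∈ Z g
      · exact ⟨q N, p N, h', by rw [hpq N, add_comm]⟩
      · have := hN1 (show N ∈ {N : ℕ | 0 < N ∧ p N ∉ Z g ∧ q N ∉ Z g} from ⟨by omega, h, h'⟩)
        omega
  have hne' : Nonempty P := ⟨p 0⟩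
  choose! z u hz hzu using hgood
  let Zf : Finset P := (hZ g hg0).toFinset
  let r : ℕ := Zf.card
  let B : Set P := ⋃ D ∈ (Finset.Icc 1 r : Finset ℕ), Z ((D : ℕ) • a)
  have hB : B.Finite := by
    refine Set.Finite.biUnion (Finset.finite_toSet _) ?_
    intro D hD
    have hD' : 1 ≤ D := (Finset.mem_Icc.mp (by simpa using hD)).1
    exact hZ _ (ha D hD')
  have hlast := hfinN (Z g) B (hZ g hg0) hB
  obtain ⟨N2, hN2⟩ := hlast.bddAbove
  set N3 : ℕ := max N1 N2 + 1 with hN3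
  obtain ⟨x, hx, y, hy, hxy, hzz⟩ : ∃ x ∈ Finset.Icc N3 (N3 + r), ∃ y ∈ Finset.Icc N3 (N3 + r),
      x ≠ y ∧ z x = z y := by
    refine Finset.exists_ne_map_eq_of_card_lt_of_maps_to (t := Zf) ?_ ?_
    · rw [Nat.card_Icc]
      show Zf.card < N3 + Zf.card + 1 - N3
      omega
    · intro x hx
      have hx' : N3 ≤ x ∧ x ≤ N3 + r := by simpa using hx
      have : z x ∈ Z g := hz x (by omega)
      simpa [Zf] using this
  have key : ∀ x y, x ∈ Finset.Icc N3 (N3 + r) → y ∈ Finset.Icc N3 (N3 + r) → x < y →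
      z x = z y → False := by
    intro x y hx hy hlt hzz
    rw [Finset.mem_Icc] at hx hy
    have h1 := hzu x (by omega)
    have h2 := hzu y (by omega)
    obtain ⟨k, rfl⟩ := Nat.exists_eq_add_of_lt hlt
    have h3 : c (u (x + k + 1)) - c (u x) = (k + 1) • a := by
      rw [show x + k + 1 = x + (k + 1) by ring, add_nsmul] at h2
      have : (k + 1) • a = (x • a + (k + 1) • a + T) - (x • a + T) := by abel
      rw [this, h2, h1, hzz, show x + k + 1 = x + (k + 1) by ring]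
      abel
    have h4 : u x ∈ B := by
      refine Set.mem_biUnion (x := k + 1) ?_ ⟨_, h3⟩
      simp only [Finset.coe_Icc, Set.mem_Icc]
      omega
    have h5 := hN2 (show x ∈ {N : ℕ | ∃ z ∈ Z g, ∃ u ∈ B, N • a + T = c z + c u} from
      ⟨z x, hz x (by omega), u x, h4, h1⟩)
    omega
  rcases lt_or_gt_of_ne hxy with hlt | hlt
  · exact key x y hx hy hlt hzz
  · exact key y x hy hx hlt hzz.symm

end Pool.Agent.GTwo
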