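import Pool.Agent.GTwo.Divisor

/-!
# Exterior products of divisors
-/

set_option autoImplicit false

noncomputable section

namespace Pool.Agent.GTwo

open Polynomial
open scoped Classical

variable {k : Type} [Field k] {f : k[X]}

theorem cross_add_left (D₁ D₂ D' : Pt f →₀ ℤ) :
    cross (D₁ + D₂) D' = cross D₁ D' + cross D₂ D' := by
  unfold cross
  rw [Finsupp.sum_add_index']
  · intro P
    simp
  · intro P m m'
    rw [← Finsupp.sum_add]
    refine Finsupp.sum_congr fun Q _ => ?_
    rw [add_mul, Finsupp.single_add]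

theorem cross_add_right (D D₁ D₂ : Pt f →₀ ℤ) :
    cross D (D₁ + D₂) = cross D D₁ + cross D D₂ := by
  unfold cross
  rw [← Finsupp.sum_add]
  refine Finsupp.sum_congr fun P _ => ?_
  rw [Finsupp.sum_add_index']
  · intro Q
    simp
  · intro Q n n'
    rw [mul_add, Finsupp.single_add]

theorem cross_smul_left (n : ℤ) (D D' : Pt f →₀ ℤ) : cross (n • D) D' = n • cross D D' :=
  (AddMonoidHom.mk' (fun D => cross D D') fun a b => cross_add_left a b D').map_zsmul n D

theorem cross_smul_right (n : ℤ) (D D' : Pt f →₀ ℤ) : cross D (n • D') = n • cross D D' :=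
  (AddMonoidHom.mk' (fun D' => cross D D') fun a b => cross_add_right D a b).map_zsmul n D'

private theorem cross_single (P Q : Pt f) (m n : ℤ) :
    cross (Finsupp.single P m) (Finsupp.single Q n) = Finsupp.single (P, Q) (m * n) := by
  unfold cross
  rw [Finsupp.sum_single_index, Finsupp.sum_single_index]
  · simp
  · simp

private theorem cross_zero_left (D : Pt f →₀ ℤ) : cross 0 D = 0 := Finsupp.sum_zero_index

private theorem cross_zero_right (D : Pt f →₀ ℤ) : cross D 0 = 0 := by
  unfold cross
  simp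

private theorem cross_sum_left {ι : Type*} (S : Finset ι) (D : ι → Pt f →₀ ℤ) (D' : Pt f →₀ ℤ) :
    cross (∑ i ∈ S, D i) D' = ∑ i ∈ S, cross (D i) D' :=
  map_sum (AddMonoidHom.mk' (fun D => cross D D') fun a b => cross_add_left a b D') _ _

private theorem cross_sum_right {ι : Type*} (S : Finset ι) (D : ι → Pt f →₀ ℤ) (D' : Pt f →₀ ℤ) :
    cross D' (∑ i ∈ S, D i) = ∑ i ∈ S, cross D' (D i) :=
  map_sum (AddMonoidHom.mk' (fun D => cross D' D) fun a b => cross_add_right D' a b) _ _

private theorem spec_const {F : Type} [Field F] [Algebra k F] (O : ValuationSubring F)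
    (R : Pt f) : SpecAt O f (R.map (algebraMap k F)) R := by
  cases R with
  | inf => exact SpecAt.inf
  | aff a b h =>
    refine SpecAt.finite _ h ?_ ?_
    · rw [sub_self, map_zero]
      exact zero_lt_one
    · rw [sub_self, map_zero]
      exact zero_lt_one

theorem cross_mem_left [IsAlgClosed k] (hf : Hyp f) {D : Pt f →₀ ℤ} (hD : D ∈ LinEq f)
    (D' : Pt f →₀ ℤ) : cross D D' ∈ RatEq f := by
  induction D' using Finsupp.induction_linear with
  | zero =>
    rw [cross_zero_right]
    exact (RatEq f).zero_mem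
  | add D₁ D₂ h₁ h₂ =>
    rw [cross_add_right]
    exact (RatEq f).add_mem h₁ h₂
  | single R n =>
    have e : (Finsupp.single R n : Pt f →₀ ℤ) = n • Finsupp.single R 1 := by
      rw [Finsupp.smul_single, smul_eq_mul, mul_one]
    rw [e, cross_smul_right]
    refine (RatEq f).zsmul_mem ?_ n
    induction hD using AddSubgroup.closure_induction with
    | mem D hD =>
      obtain ⟨s, hs, rfl⟩ := hD
      obtain ⟨F, _, _, P, g, S, m, p, h1, h2, h3, h4, h5⟩ := exists_div hf hs
      rw [← h5, cross_sum_left]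
      refine AddSubgroup.subset_closure ⟨F, _, _, P, R.map (algebraMap k F), g, S, m, p,
        fun _ => R, h1, h2, h3, fun O hO => ⟨(h4 O hO).1, (h4 O hO).2.1, (h4 O hO).2.2,
        spec_const O R⟩, ?_⟩
      refine Finset.sum_congr rfl fun O _ => ?_
      rw [cross_single, mul_one]
    | zero =>
      rw [cross_zero_left]
      exact (RatEq f).zero_mem
    | add D₁ D₂ _ _ h₁ h₂ =>
      rw [cross_add_left]
      exact (RatEq f).add_mem h₁ h₂
    | neg D _ h =>
      rw [← neg_one_zsmul, cross_smul_left, neg_one_zsmul]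
      exact (RatEq f).neg_mem h

theorem cross_mem_right [IsAlgClosed k] (hf : Hyp f) {D : Pt f →₀ ℤ} (hD : D ∈ LinEq f)
    (D' : Pt f →₀ ℤ) : cross D' D ∈ RatEq f := by
  induction D' using Finsupp.induction_linear with
  | zero =>
    rw [cross_zero_left]
    exact (RatEq f).zero_mem
  | add D₁ D₂ h₁ h₂ =>
    rw [cross_add_left]
    exact (RatEq f).add_mem h₁ h₂
  | single R n =>
    have e : (Finsupp.single R n : Pt f →₀ ℤ) = n • Finsupp.single R 1 := by
      rw [Finsupp.smul_single, smul_eq_mul, mul_one]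
    rw [e, cross_smul_left]
    refine (RatEq f).zsmul_mem ?_ n
    induction hD using AddSubgroup.closure_induction with
    | mem D hD =>
      obtain ⟨s, hs, rfl⟩ := hD
      obtain ⟨F, _, _, P, g, S, m, p, h1, h2, h3, h4, h5⟩ := exists_div hf hs
      rw [← h5, cross_sum_right]
      refine AddSubgroup.subset_closure ⟨F, _, _, R.map (algebraMap k F), P, g, S, m,
        fun _ => R, p, h1, h2, h3, fun O hO => ⟨(h4 O hO).1, (h4 O hO).2.1,
        spec_const O R, (h4 O hO).2.2⟩, ?_⟩
      refine Finset.sum_congr rfl fun O _ => ?_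
      rw [cross_single, one_mul]
    | zero =>
      rw [cross_zero_right]
      exact (RatEq f).zero_mem
    | add D₁ D₂ _ _ h₁ h₂ =>
      rw [cross_add_right]
      exact (RatEq f).add_mem h₁ h₂
    | neg D _ h =>
      rw [← neg_one_zsmul, cross_smul_right, neg_one_zsmul]
      exact (RatEq f).neg_mem h

theorem diag_mem [IsAlgClosed k] (hf : Hyp f) {D : Pt f →₀ ℤ} (hD : D ∈ LinEq f) :
    D.mapDomain (fun P => (P, P)) ∈ RatEq f := by
  induction hD using AddSubgroup.closure_induction with
  | mem D hD =>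
    obtain ⟨s, hs, rfl⟩ := hD
    obtain ⟨F, _, _, P, g, S, m, p, h1, h2, h3, h4, h5⟩ := exists_div hf hs
    rw [← h5, Finsupp.mapDomain_finsetSum]
    refine AddSubgroup.subset_closure ⟨F, _, _, P, P, g, S, m, p, p, h1, h2, h3,
      fun O hO => ⟨(h4 O hO).1, (h4 O hO).2.1, (h4 O hO).2.2, (h4 O hO).2.2⟩, ?_⟩
    refine Finset.sum_congr rfl fun O _ => ?_
    rw [Finsupp.mapDomain_single]
  | zero =>
    rw [Finsupp.mapDomain_zero]
    exact (RatEq f).zero_mem
  | add D₁ D₂ _ _ h₁ h₂ =>
    rw [Finsupp.mapDomain_add]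
    exact (RatEq f).add_mem h₁ h₂
  | neg D _ h =>
    have e : Finsupp.mapDomain (fun P : Pt f => (P, P)) (-D) =
        -Finsupp.mapDomain (fun P : Pt f => (P, P)) D :=
      (Finsupp.mapDomain.addMonoidHom (fun P : Pt f => (P, P))).map_neg D
    rw [e]
    exact (RatEq f).neg_mem h

end Pool.Agent.GTwo
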