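import Pool.Agent.GTwo.JGroup
import Pool.Agent.GTwo.Cross

/-!
# The relations between zero-cycles
-/

set_option autoImplicit false

noncomputable section

namespace Pool.Agent.GTwo

open Polynomial
open scoped Classical

variable {k : Type} [Field k] {f : k[X]}

private theorem cross_sub_left (D₁ D₂ D' : Pt f →₀ ℤ) :
    cross (D₁ - D₂) D' = cross D₁ D' - cross D₂ D' :=
  (AddMonoidHom.mk' (fun D => cross D D') fun a b => cross_add_left a b D').map_sub D₁ D₂

private theorem cross_sub_right (D D₁ D₂ : Pt f →₀ ℤ) :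
    cross D (D₁ - D₂) = cross D D₁ - cross D D₂ :=
  (AddMonoidHom.mk' (fun D' => cross D D') fun a b => cross_add_right D a b).map_sub D₁ D₂

private theorem cross_one (P Q : Pt f) :
    cross (Finsupp.single P 1) (Finsupp.single Q 1) = Finsupp.single (P, Q) 1 := by
  unfold cross
  rw [Finsupp.sum_single_index, Finsupp.sum_single_index]
  · simp
  · simp
  · simp

private theorem deg_single (P : Pt f) (n : ℤ) : deg (Finsupp.single P n) = n := by
  unfold deg
  simp

theorem two_cross_self [IsAlgClosed k] (hf : Hyp f) (P : Pt f) :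
    (2 : ℤ) • cross (Finsupp.single P 1 - Finsupp.single .inf 1)
      (Finsupp.single P 1 - Finsupp.single .inf 1) ∈ RatEq f := by
  set u : Pt f →₀ ℤ := Finsupp.single P 1 - Finsupp.single .inf 1 with hu
  set v : Pt f →₀ ℤ := Finsupp.single P.neg 1 - Finsupp.single .inf 1 with hv
  have huv : u + v ∈ LinEq f := by
    refine mem_linEq ?_ ?_
    · have h1 : jmk (u + v) = (cl P - cl .inf) + (cl P.neg - cl .inf) := rfl
      rw [h1, cl_inf, cl_neg hf]
      abel
    · rw [map_add, hu, hv, map_sub, map_sub, deg_single, deg_single, deg_single]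
      norm_num
  have h1 := diag_mem hf huv
  have h2 := cross_mem_left hf huv (Finsupp.single .inf 1)
  have h3 := cross_mem_right hf huv (Finsupp.single .inf 1)
  have h4 := cross_mem_left hf huv v
  have h5 := cross_mem_right hf huv u
  have e1 : (u + v).mapDomain (fun P => (P, P)) =
      cross (Finsupp.single P 1) (Finsupp.single P 1) +
      cross (Finsupp.single P.neg 1) (Finsupp.single P.neg 1) -
      (2 : ℤ) • cross (Finsupp.single .inf 1) (Finsupp.single (.inf : Pt f) 1) := by
    have h6 : (Finsupp.mapDomain.addMonoidHom (M := ℤ) (fun P : Pt f => (P, P))) (u + v) =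
        Finsupp.single (P, P) 1 + Finsupp.single (P.neg, P.neg) 1 -
        (2 : ℤ) • Finsupp.single (.inf, .inf) 1 := by
      rw [map_add, hu, hv, map_sub, map_sub]
      simp only [Finsupp.mapDomain.addMonoidHom_apply, Finsupp.mapDomain_single]
      abel
    rw [cross_one, cross_one, cross_one]
    exact h6
  have e2 : (2 : ℤ) • cross u u = (u + v).mapDomain (fun P => (P, P)) -
      cross (u + v) (Finsupp.single .inf 1) - cross (Finsupp.single .inf 1) (u + v) -
      (cross (u + v) v - cross u (u + v)) := by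
    rw [e1]
    simp only [hu, hv, cross_add_left, cross_add_right, cross_sub_left, cross_sub_right]
    abel
  rw [e2]
  exact (RatEq f).sub_mem ((RatEq f).sub_mem ((RatEq f).sub_mem h1 h2) h3)
    ((RatEq f).sub_mem h4 h5)

theorem cycle_main [IsAlgClosed k] (hf : Hyp f) {a : Pt f →₀ ℤ} (ha : deg a = 0) {N M : ℕ}
    {P Q : Pt f} {T : J f} (hT : M • T = 0) (h : N • jmk a + T = cl P + cl Q) :
    (N * M : ℤ) • (cross a (Finsupp.single P 1 - Finsupp.single Q 1) +
      cross (Finsupp.single P 1 - Finsupp.single Q 1) a) ∈ RatEq f ∧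
    (M ^ 2 : ℤ) • (cross (Finsupp.single P 1 - Finsupp.single Q 1)
      (Finsupp.single P 1 - Finsupp.single Q 1) + (N ^ 2 : ℤ) • cross a a) ∈ RatEq f := by
  set u : Pt f →₀ ℤ := Finsupp.single P 1 - Finsupp.single .inf 1 with hu
  set v : Pt f →₀ ℤ := Finsupp.single Q 1 - Finsupp.single .inf 1 with hv
  set b : Pt f →₀ ℤ := Finsupp.single P 1 - Finsupp.single Q 1 with hb
  have hbuv : b = u - v := by
    rw [hu, hv, hb]
    abel
  have hD : (N * M : ℤ) • a - (M : ℤ) • (u + v) ∈ LinEq f := by
    refine mem_linEq ?_ ?_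
    · have h1 : jmk ((N * M : ℤ) • a - (M : ℤ) • (u + v)) =
          (N * M : ℤ) • jmk a - (M : ℤ) • ((cl P - cl .inf) + (cl Q - cl .inf)) := rfl
      have h2 : (cl P - cl .inf) + (cl Q - cl .inf) = (N : ℤ) • jmk a + T := by
        rw [cl_inf, natCast_zsmul, h]
        abel
      rw [h1, h2, zsmul_add, natCast_zsmul T M, hT, add_zero, sub_eq_zero, mul_comm (N : ℤ)]
      exact mul_zsmul (jmk a) (M : ℤ) (N : ℤ)
    · rw [map_sub, map_zsmul, map_zsmul, map_add, hu, hv, map_sub, map_sub, deg_single,
        deg_single, deg_single, ha]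
      norm_num
  obtain ⟨D, hDe⟩ : ∃ D, D = (N * M : ℤ) • a - (M : ℤ) • (u + v) := ⟨_, rfl⟩
  rw [← hDe] at hD
  have ea : (N * M : ℤ) • a = D + (M : ℤ) • (u + v) := by
    rw [hDe]
    abel
  have huu := two_cross_self hf P
  have hvv := two_cross_self hf Q
  rw [← hu] at huu
  rw [← hv] at hvv
  constructor
  · have e : (N * M : ℤ) • (cross a b + cross b a) = cross D b + cross b D +
        (M : ℤ) • ((2 : ℤ) • cross u u - (2 : ℤ) • cross v v) := by
      rw [smul_add, ← cross_smul_left, ← cross_smul_right, ea, cross_add_left, cross_add_right,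
        cross_smul_left, cross_smul_right, hbuv]
      simp only [cross_add_left, cross_add_right, cross_sub_left, cross_sub_right]
      module
    rw [e]
    exact (RatEq f).add_mem ((RatEq f).add_mem (cross_mem_left hf hD b)
      (cross_mem_right hf hD b)) ((RatEq f).zsmul_mem ((RatEq f).sub_mem huu hvv) _)
  · have e : (M ^ 2 : ℤ) • (cross b b + (N ^ 2 : ℤ) • cross a a) =
        (M ^ 2 : ℤ) • ((2 : ℤ) • cross u u + (2 : ℤ) • cross v v) +
        (cross D (D + (M : ℤ) • (u + v)) + (M : ℤ) • cross (u + v) D) := by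
      have e1 : (M ^ 2 : ℤ) • (N ^ 2 : ℤ) • cross a a =
          cross ((N * M : ℤ) • a) ((N * M : ℤ) • a) := by
        rw [cross_smul_left, cross_smul_right, smul_smul, smul_smul]
        congr 1
        ring
      rw [smul_add, e1, ea, cross_add_left, cross_smul_left,
        cross_add_right (u + v) D, cross_smul_right (M : ℤ) (u + v) (u + v), hbuv]
      simp only [cross_add_left, cross_add_right, cross_sub_left, cross_sub_right,
        cross_smul_right]
      module
    rw [e]
    exact (RatEq f).add_mem ((RatEq f).zsmul_mem ((RatEq f).add_mem huu hvv) _)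
      ((RatEq f).add_mem (cross_mem_left hf hD _)
        ((RatEq f).zsmul_mem (cross_mem_right hf hD _) _))

end Pool.Agent.GTwo
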