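import Pool.Agent.ZC.Defs

/-!
# Curves of genus two, their Jacobians, and zero-cycles on their squares: definitions

`C` is the smooth projective curve `y² = f(x)`, where `f` is a separable monic polynomial of degree
five over a field `k` of characteristic `≠ 2`. (Over an algebraically closed field every curve of
genus two has such an equation.)
-/

set_option autoImplicit false

noncomputable section

namespace Pool.Agent.GTwo

open Polynomial
open scoped Classical

section Ring

variable {A : Type} [CommRing A]

/-- The coordinate ring `A[x, y] / (y² - f(x))`; its element `⟨a, b⟩` is `a(x) + b(x) y`. -/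
abbrev Rg (f : A[X]) : Type := QuadraticAlgebra A[X] f 0

/-- The points of the curve `y² = f(x)`: the affine points and one point at infinity. -/
inductive Pt (f : A[X]) : Type
  | inf : Pt f
  | aff (x y : A) (h : y ^ 2 = f.eval x) : Pt f

/-- The ideal of the regular functions which vanish at a point (the unit ideal for the point at
infinity). -/
def Pt.ideal {f : A[X]} : Pt f → Ideal (Rg f)
  | .inf => ⊤
  | .aff x y _ => Ideal.span {⟨X - C x, 0⟩, ⟨-C y, 1⟩}

/-- The divisor `∑ P`, the sum over the points `P` of a multiset. -/
def dv {f : A[X]} (s : Multiset (Pt f)) : Pt f →₀ ℤ := (s.map fun P => Finsupp.single P 1).sum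

/-- `s` is the multiset of the zeros (outside of the point at infinity, which may be added
arbitrarily often) of a regular function `α`. -/
def Prin {f : A[X]} (s : Multiset (Pt f)) : Prop :=
  ∃ α : Rg f, Ideal.span {α} = (s.map Pt.ideal).prod

/-- The degree of a divisor. -/
def deg {f : A[X]} : (Pt f →₀ ℤ) →+ ℤ := Finsupp.liftAddHom fun _ => AddMonoidHom.id ℤ

/-- The principal divisors: the group generated by the divisors `∑ P - n ∞` of the regular
functions, `n` being the number of zeros `P`. -/
def LinEq (f : A[X]) : AddSubgroup (Pt f →₀ ℤ) :=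
  AddSubgroup.closure {D | ∃ s : Multiset (Pt f), Prin s ∧
    D = dv s - (Multiset.card s : ℤ) • Finsupp.single .inf 1}

/-- The Picard group of the curve; its elements of degree zero are the points of the Jacobian. -/
abbrev Pic (f : A[X]) : Type := (Pt f →₀ ℤ) ⧸ LinEq f

/-- `f` is monic and separable of degree five, and `2` is invertible. -/
structure Hyp (f : A[X]) : Prop where
  monic : f.Monic
  deg : f.natDegree = 5
  sep : f.Separable
  two : IsUnit (2 : A)

end Ring

section Cycles

variable {k : Type} [Field k] {F : Type} [Field F] [Algebra k F]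

/-- The value at `O` of an `F`-valued point of the curve over `k` is a given `k`-rational point. -/
inductive SpecAt (O : ValuationSubring F) (f : k[X]) :
    Pt (f.map (algebraMap k F)) → Pt f → Prop
  | inf : SpecAt O f .inf .inf
  | pole {x y : F} (h : y ^ 2 = (f.map (algebraMap k F)).eval x) (hx : x ∉ O) :
      SpecAt O f (.aff x y h) .inf
  | finite {x y : F} {a b : k} (h : y ^ 2 = (f.map (algebraMap k F)).eval x)
      (h' : b ^ 2 = f.eval a) (hx : O.valuation (x - algebraMap k F a) < 1)
      (hy : O.valuation (y - algebraMap k F b) < 1) :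
      SpecAt O f (.aff x y h) (.aff a b h')

/-- Zero-cycles on `C × C` supported on `k`-rational points. -/
abbrev Z0 (f : k[X]) : Type := (Pt f × Pt f) →₀ ℤ

/-- `z` is the divisor of a rational function `g` on a curve with function field `F`, pushed
forward to `C × C` by a morphism, i.e. by a pair of `F`-valued points of `C`. -/
def DivOf (f : k[X]) (z : Z0 f) : Prop :=
  ∃ (F : Type) (_ : Field F) (_ : Algebra k F) (P Q : Pt (f.map (algebraMap k F))) (g : F)
    (S : Finset (ValuationSubring F)) (n : ValuationSubring F → ℤ)
    (p q : ValuationSubring F → Pt f),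
    ZC.IsCurve k F ∧ g ≠ 0 ∧ (∀ O, ZC.IsPlace k O → O ∉ S → O.valuation g = 1) ∧
    (∀ O ∈ S, ZC.IsPlace k O ∧ ZC.HasOrd O g (n O) ∧ SpecAt O f P (p O) ∧ SpecAt O f Q (q O)) ∧
    z = ∑ O ∈ S, Finsupp.single (p O, q O) (n O)

/-- The zero-cycles on `C × C` which are rationally equivalent to zero. -/
def RatEq (f : k[X]) : AddSubgroup (Z0 f) := AddSubgroup.closure {z | DivOf f z}

/-- The exterior product `D × D'` of two divisors on `C`, a zero-cycle on `C × C`. -/
def cross {f : k[X]} (D D' : Pt f →₀ ℤ) : Z0 f :=
  D.sum fun P m => D'.sum fun Q n => Finsupp.single (P, Q) (m * n)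

end Cycles

end Pool.Agent.GTwo
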