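import Pool.Agent.GTwo.Defs

/-!
# Auxiliary definitions
-/

set_option autoImplicit false

noncomputable section

namespace Pool.Agent.GTwo

open Polynomial
open scoped Classical

section Ring

variable {A : Type} [CommRing A] {f : A[X]}

/-- The hyperelliptic involution. -/
def Pt.neg : Pt f → Pt f
  | .inf => .inf
  | .aff x y h => .aff x (-y) (by rw [neg_sq]; exact h)

/-- `X - x(P)` (and `1` for the point at infinity). -/
def Pt.lin : Pt f → A[X]
  | .inf => 1
  | .aff x _ _ => X - C x

/-- The product of the ideals of the points of a multiset. -/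
def idl (s : Multiset (Pt f)) : Ideal (Rg f) := (s.map Pt.ideal).prod

/-- The product of the linear polynomials of the points of a multiset. -/
def lins (s : Multiset (Pt f)) : A[X] := (s.map Pt.lin).prod

/-- The degree of the norm, i.e. the number of zeros of a regular function. -/
def dg (z : Rg f) : ℕ := (QuadraticAlgebra.norm z).natDegree

/-- `a(x)` as a regular function. -/
abbrev rl (a : A[X]) : Rg f := algebraMap A[X] (Rg f) a

/-- The Jacobian: divisors modulo the divisors of zeros of regular functions on the affine part
(in particular the point at infinity is zero). -/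
abbrev J (f : A[X]) : Type :=
  (Pt f →₀ ℤ) ⧸ AddSubgroup.closure {D | ∃ s : Multiset (Pt f), Prin s ∧ D = dv s}

/-- The class of a divisor in the Jacobian. -/
abbrev jmk (D : Pt f →₀ ℤ) : J f := QuotientAddGroup.mk D

/-- The class of `P - ∞`. -/
def cl (P : Pt f) : J f := QuotientAddGroup.mk (Finsupp.single P 1)

variable {B : Type} [CommRing B]

/-- The image of a point under a ring homomorphism. -/
def Pt.map (φ : A →+* B) : Pt f → Pt (f.map φ)
  | .inf => .inf
  | .aff x y h => .aff (φ x) (φ y) (by rw [← map_pow, h, eval_map, eval₂_at_apply])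

/-- The image of a regular function under a ring homomorphism. -/
def Rg.map (φ : A →+* B) : Rg f →+* Rg (f.map φ) where
  toFun z := ⟨z.re.map φ, z.im.map φ⟩
  map_one' := by ext1 <;> simp [QuadraticAlgebra.re_one, QuadraticAlgebra.im_one]
  map_mul' z w := by ext1 <;> simp
  map_zero' := by ext1 <;> simp
  map_add' z w := by ext1 <;> simp

/-- The action of an automorphism which fixes the coefficients of `f`. -/
def Pt.act (σ : A ≃+* A) (h : f.map (σ : A →+* A) = f) : Pt f → Pt f
  | .inf => .inf
  | .aff x y e => .aff (σ x) (σ y) (by
      rw [← map_pow, e]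
      conv_rhs => rw [← h]
      exact (eval_map_apply (σ : A →+* A) x).symm)

end Ring

section Spec

variable {k : Type} [Field k] (O : ValuationSubring k) {f : O[X]}

/-- The specialization of a point. -/
def sp (P : Pt (f.map (algebraMap O k))) : Pt (f.map (IsLocalRing.residue O)) :=
  if h : ∃ P₀ : Pt f, P₀.map (algebraMap O k) = P then
    (Classical.choose h).map (IsLocalRing.residue O) else .inf

end Spec

/-- The coordinates of the point are of degree at most `n` over `ℚ`. -/
def Pt.DegLE {f : (AlgebraicClosure ℚ)[X]} (n : ℕ) : Pt f → Prop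
  | .inf => True
  | .aff x y _ => (minpoly ℚ x).natDegree ≤ n ∧ (minpoly ℚ y).natDegree ≤ n

/-- The curve has good reduction at a place of residue characteristic `l`: there is a
specialization map, which is injective on the torsion points of order prime to `l`, and the
specializations of the points of bounded degree are finite in number. -/
def HasPlace (f : (AlgebraicClosure ℚ)[X]) (l : ℕ) : Prop :=
  ∃ (κ : Type) (_ : Field κ) (g : κ[X]) (s : Pt f → Pt g) (Sp : J f →+ J g), Hyp g ∧
    (∀ P, Sp (cl P) = cl (s P)) ∧ (∀ n : ℕ, ¬ l ∣ n → ∀ c, Sp c = 0 → n • c = 0 → c = 0) ∧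
    ∀ n : ℕ, (s '' {P | P.DegLE n}).Finite

end Pool.Agent.GTwo
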