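import Pool.Agent.GTwo.Field

/-!
# The place at infinity
-/

set_option autoImplicit false

noncomputable section

namespace Pool.Agent.GTwo

open Polynomial
open scoped Classical

variable {k : Type} [Field k] {f : k[X]}

private lemma dg_zero' : dg (0 : Rg f) = 0 := by simp [dg]

private lemma dg_one' : dg (1 : Rg f) = 0 := by simp [dg]

private lemma dg_om (hf : Hyp f) : dg (⟨0, 1⟩ : Rg f) = 5 := by
  simp [dg, QuadraticAlgebra.norm_def, hf.deg]

private lemma dg_const (c : k) : dg (algebraMap k (Rg f) c) = 0 := by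
  rw [IsScalarTower.algebraMap_apply k k[X] (Rg f)]
  have := dg_rl (f := f) (algebraMap k k[X] c)
  rw [this]
  simp

private lemma dg_mul_le (hf : Hyp f) (z w : Rg f) : dg (z * w) ≤ dg z + dg w := by
  by_cases hz : z = 0
  · simp [hz, dg_zero']
  by_cases hw : w = 0
  · simp [hw, dg_zero']
  exact (dg_mul hf hz hw).le

private lemma dg_pow' (hf : Hyp f) {z : Rg f} (hz : z ≠ 0) (n : ℕ) : dg (z ^ n) = n * dg z := by
  have := rg_isDomain hf
  induction n with
  | zero => simp [dg_one']
  | succ n ih => rw [pow_succ, dg_mul hf (pow_ne_zero _ hz) hz, ih]; ring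

private lemma rl_mul' (a b : k[X]) : (rl (a * b) : Rg f) = rl a * rl b :=
  map_mul (algebraMap k[X] (Rg f)) a b

private lemma rl_add' (a b : k[X]) : (rl (a + b) : Rg f) = rl a + rl b :=
  map_add (algebraMap k[X] (Rg f)) a b

private lemma om_ne : (⟨0, 1⟩ : Rg f) ≠ 0 := by
  intro h
  have := congrArg QuadraticAlgebra.im h
  simp at this

private lemma rlX_ne : (rl X : Rg f) ≠ 0 := by
  intro h
  have := congrArg QuadraticAlgebra.re h
  simp at this

/-- the valuation ring of the place at infinity, as a subring -/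
private def infRing (hf : Hyp f) (F : Type) [Field F] [Algebra (Rg f) F] : Subring F where
  carrier := {z | ∃ a b : Rg f, b ≠ 0 ∧
    z * algebraMap (Rg f) F b = algebraMap (Rg f) F a ∧ dg a ≤ dg b}
  zero_mem' := ⟨0, 1, one_ne_zero, by simp, by simp [dg_zero']⟩
  one_mem' := ⟨1, 1, one_ne_zero, by simp, le_rfl⟩
  add_mem' := by
    have := rg_isDomain hf
    rintro z z' ⟨a, b, hb, hab, hd⟩ ⟨a', b', hb', hab', hd'⟩
    refine ⟨a * b' + a' * b, b * b', mul_ne_zero hb hb', ?_, ?_⟩
    · rw [map_mul, map_add, map_mul, map_mul, ← hab, ← hab']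
      ring
    · rw [dg_mul hf hb hb']
      refine (dg_add_le hf _ _).trans (max_le ?_ ?_)
      · exact (dg_mul_le hf _ _).trans (by omega)
      · exact (dg_mul_le hf _ _).trans (by omega)
  mul_mem' := by
    have := rg_isDomain hf
    rintro z z' ⟨a, b, hb, hab, hd⟩ ⟨a', b', hb', hab', hd'⟩
    refine ⟨a * a', b * b', mul_ne_zero hb hb', ?_, ?_⟩
    · rw [map_mul, map_mul, ← hab, ← hab']
      ring
    · rw [dg_mul hf hb hb']
      exact (dg_mul_le hf _ _).trans (by omega)
  neg_mem' := by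
    rintro z ⟨a, b, hb, hab, hd⟩
    refine ⟨-a, b, hb, ?_, ?_⟩
    · rw [map_neg, ← hab]
      ring
    · have : dg (-a) = dg a := by simp [dg]
      rw [this]
      exact hd

private lemma inf_mem_or (hf : Hyp f) (F : Type) [Field F] [Algebra (Rg f) F]
    [IsFractionRing (Rg f) F] (z : F) : z ∈ infRing hf F ∨ z⁻¹ ∈ infRing hf F := by
  have := rg_isDomain hf
  by_cases hz : z = 0
  · left
    rw [hz]
    exact zero_mem _
  obtain ⟨a, b, hb, hab⟩ := IsFractionRing.div_surjective (A := Rg f) z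
  have hb0 : b ≠ 0 := nonZeroDivisors.ne_zero hb
  have hbF : algebraMap (Rg f) F b ≠ 0 := by simpa using hb0
  have ha0 : a ≠ 0 := by
    rintro rfl
    apply hz
    rw [← hab]
    simp
  have haF : algebraMap (Rg f) F a ≠ 0 := by simpa using ha0
  rcases le_total (dg a) (dg b) with h | h
  · left
    refine ⟨a, b, hb0, ?_, h⟩
    rw [← hab]
    field_simp
  · right
    refine ⟨b, a, ha0, ?_, h⟩
    rw [← hab]
    field_simp

private lemma val_le_iff {F : Type} [Field F] (O : ValuationSubring F) (a b : F) (hb : b ≠ 0) :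
    O.valuation a ≤ O.valuation b ↔ a / b ∈ O := by
  rw [← O.valuation_le_one_iff, map_div₀]
  have hb' : 0 < O.valuation b := zero_lt_iff.mpr ((Valuation.ne_zero_iff _).mpr hb)
  rw [div_le_one₀ hb']

/-- all places at infinity have the same valuation ring: comparison of two elements -/
private lemma dg_of_place (hf : Hyp f) {F : Type} [Field F] [Algebra (Rg f) F]
    [IsFractionRing (Rg f) F] [Algebra k F] [IsScalarTower k (Rg f) F]
    (O : ValuationSubring F) (hO : ZC.IsPlace k O) (hx : algebraMap (Rg f) F (rl X) ∉ O)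
    (a b : Rg f) (ha : a ≠ 0) (hb : b ≠ 0) :
    O.valuation (algebraMap (Rg f) F a) ≤ O.valuation (algebraMap (Rg f) F b) ↔
      dg a ≤ dg b := by
  have := rg_isDomain hf
  set v := O.valuation with hv
  set ι := algebraMap (Rg f) F with hι
  have hinj : Function.Injective ι := IsFractionRing.injective (Rg f) F
  have hne : ∀ {r : Rg f}, r ≠ 0 → ι r ≠ 0 := fun hr => by
    rw [hι]
    simpa using hr
  have hx1 : 1 < v (ι (rl X)) := by
    rw [← not_le, hv, O.valuation_le_one_iff]
    exact hx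
  have hconst : ∀ c : k, c ≠ 0 → v (ι (rl (C c))) = 1 := by
    intro c hc
    have h0 : ∀ d : k, v (ι (rl (C d))) ≤ 1 := by
      intro d
      rw [hv, O.valuation_le_one_iff]
      have h1 := hO.1 d
      rw [IsScalarTower.algebraMap_apply k (Rg f) F] at h1
      rw [IsScalarTower.algebraMap_apply k k[X] (Rg f)] at h1
      exact h1
    refine le_antisymm (h0 c) ?_
    have h1 : v (ι (rl (C c))) * v (ι (rl (C c⁻¹))) = 1 := by
      rw [← map_mul, ← map_mul, ← rl_mul', ← C_mul, mul_inv_cancel₀ hc]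
      simp
    calc (1 : O.ValueGroup) = v (ι (rl (C c))) * v (ι (rl (C c⁻¹))) := h1.symm
      _ ≤ v (ι (rl (C c))) * 1 := by gcongr; exact h0 _
      _ = _ := mul_one _
  have hpoly : ∀ n : ℕ, ∀ p : k[X], p ≠ 0 → p.natDegree = n →
      v (ι (rl p)) = v (ι (rl X)) ^ n := by
    intro n
    induction n with
    | zero =>
      intro p hp hn
      rw [eq_C_of_natDegree_eq_zero hn] at hp ⊢
      rw [hconst _ (by simpa using hp)]
      simp
    | succ n ih =>
      intro p hp hn
      have hd : p.divX ≠ 0 := by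
        intro h0
        have h1 := divX_mul_X_add p
        rw [h0, zero_mul, zero_add] at h1
        rw [← h1, natDegree_C] at hn
        omega
      have h1 := ih p.divX hd (by rw [natDegree_divX_eq_natDegree_tsub_one, hn]; simp)
      have h2 : v (ι (rl (p.divX * X))) = v (ι (rl X)) ^ (n + 1) := by
        rw [rl_mul', map_mul, map_mul, h1, pow_succ]
      rw [← divX_mul_X_add p, rl_add', map_add, ← h2]
      apply Valuation.map_add_eq_of_lt_left
      have h3 : v (ι (rl (C (p.coeff 0)))) ≤ 1 := by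
        by_cases h0 : p.coeff 0 = 0
        · rw [h0]; simp
        · exact (hconst _ h0).le
      refine lt_of_le_of_lt h3 ?_
      rw [h2]
      exact one_lt_pow₀ hx1 (Nat.succ_ne_zero n)
  have hy : v (ι ⟨0, 1⟩) ^ 2 = v (ι (rl X)) ^ 5 := by
    rw [← map_pow, ← map_pow]
    have h1 : (⟨0, 1⟩ : Rg f) ^ 2 = rl f := by
      rw [pow_two]
      ext1 <;> simp
    rw [h1]
    exact hpoly 5 f hf.monic.ne_zero hf.deg
  -- the parameter
  have hx0 : v (ι (rl X)) ≠ 0 := (Valuation.ne_zero_iff _).mpr (hne rlX_ne)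
  have hy0 : v (ι ⟨0, 1⟩) ≠ 0 := (Valuation.ne_zero_iff _).mpr (hne om_ne)
  set t := v (ι ⟨0, 1⟩) / v (ι (rl X)) ^ 2 with ht
  have ht2 : t ^ 2 = v (ι (rl X)) := by
    rw [ht, div_pow, hy]
    rw [div_eq_iff (pow_ne_zero _ (pow_ne_zero _ hx0)), ← pow_mul, ← pow_succ']
  have ht1 : 1 < t := by
    by_contra hcon
    push Not at hcon
    have : t ^ 2 ≤ 1 := pow_le_one₀ zero_le' hcon
    rw [ht2] at this
    exact absurd this (not_le.mpr hx1)
  have ht5 : v (ι ⟨0, 1⟩) = t ^ 5 := by
    have h1 : v (ι ⟨0, 1⟩) = t * v (ι (rl X)) ^ 2 := by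
      rw [ht, div_mul_cancel₀ _ (pow_ne_zero _ hx0)]
    rw [h1, ← ht2, ← pow_mul, ← pow_succ']
  have hmono : Monotone fun n : ℕ => t ^ n := pow_right_mono₀ ht1.le
  have hsmono : StrictMono fun n : ℕ => t ^ n := pow_right_strictMono₀ ht1
  have hkey : ∀ z : Rg f, z ≠ 0 → v (ι z) = t ^ dg z := by
    intro z hz
    have hz1 : z = rl z.re + rl z.im * ⟨0, 1⟩ := by
      ext1 <;> simp
    by_cases him : z.im = 0
    · have hz2 : z = rl z.re := by
        rw [him] at hz1
        simpa using hz1
      have hre : z.re ≠ 0 := by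
        intro h0
        rw [h0] at hz2
        apply hz
        rw [hz2]
        simp
      rw [hz2, hpoly _ _ hre rfl, dg_rl, ← ht2, ← pow_mul]
    · have hb : v (ι (rl z.im * ⟨0, 1⟩)) = t ^ (2 * z.im.natDegree + 5) := by
        rw [map_mul, map_mul, hpoly _ _ him rfl, ht5, ← ht2, ← pow_mul, ← pow_add]
      have hdg : dg z = max (2 * z.re.natDegree) (2 * z.im.natDegree + 5) := by
        refine eq_of_forall_ge_iff fun n => ?_
        rw [dg_le hf, max_le_iff]
        simp [him]
      by_cases hre : z.re = 0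
      · have hz2 : z = rl z.im * ⟨0, 1⟩ := by
          conv_lhs => rw [hz1]
          rw [hre]
          simp
        rw [hdg, hre]
        conv_lhs => rw [hz2]
        rw [hb]
        simp
      · have ha : v (ι (rl z.re)) = t ^ (2 * z.re.natDegree) := by
          rw [hpoly _ _ hre rfl, ← ht2, ← pow_mul]
        conv_lhs => rw [hz1]
        rw [map_add, Valuation.map_add_of_distinct_val, ha, hb, hdg]
        · exact (hmono.map_max).symm
        · rw [ha, hb]
          intro h
          have := hsmono.injective h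
          omega
  rw [hkey a ha, hkey b hb]
  exact hsmono.le_iff_le

theorem exists_infPlace (hf : Hyp f) {F : Type} [Field F] [Algebra (Rg f) F]
    [IsFractionRing (Rg f) F] [Algebra k F] [IsScalarTower k (Rg f) F] :
    ∃ O : ValuationSubring F, ZC.IsPlace k O ∧ algebraMap (Rg f) F (rl X) ∉ O ∧
      (∀ (s : Multiset (Pt f)) (α : Rg f), Ideal.span {α} = idl s →
        ZC.HasOrd O (algebraMap (Rg f) F α) (-(Multiset.card (s.filter (· ≠ .inf)) : ℤ))) ∧
      ∀ O' : ValuationSubring F, ZC.IsPlace k O' → algebraMap (Rg f) F (rl X) ∉ O' → O' = O := by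
  have := rg_isDomain hf
  set ι := algebraMap (Rg f) F with hι
  have hinj : Function.Injective ι := IsFractionRing.injective (Rg f) F
  have hne : ∀ {r : Rg f}, r ≠ 0 → ι r ≠ 0 := fun hr => by
    rw [hι]
    simpa using hr
  set O : ValuationSubring F :=
    { infRing hf F with mem_or_inv_mem' := inf_mem_or hf F } with hO
  have hmem : ∀ z : F, z ∈ O ↔ ∃ a b : Rg f, b ≠ 0 ∧ z * ι b = ι a ∧ dg a ≤ dg b :=
    fun z => Iff.rfl
  have hle : ∀ a b : Rg f, b ≠ 0 →
      (O.valuation (ι a) ≤ O.valuation (ι b) ↔ dg a ≤ dg b) := by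
    intro a b hb
    rw [val_le_iff O _ _ (hne hb), hmem]
    constructor
    · rintro ⟨a', b', hb', hab', hd⟩
      by_cases ha : a = 0
      · simp [ha, dg_zero']
      have h1 : a * b' = a' * b := by
        apply hinj
        rw [map_mul, map_mul, ← hab']
        field_simp [hne hb]
      have ha' : a' ≠ 0 := by
        rintro rfl
        rw [zero_mul] at h1
        exact mul_ne_zero ha hb' h1
      have h2 := congrArg dg h1
      rw [dg_mul hf ha hb', dg_mul hf ha' hb] at h2
      omega
    · intro h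
      exact ⟨a, b, hb, by field_simp [hne hb], h⟩
  have hlt : ∀ a b : Rg f, a ≠ 0 →
      (O.valuation (ι a) < O.valuation (ι b) ↔ dg a < dg b) := by
    intro a b ha
    rw [← not_le, ← not_le, hle b a ha]
  have heq : ∀ a b : Rg f, a ≠ 0 → b ≠ 0 → dg a = dg b → O.valuation (ι a) = O.valuation (ι b) :=
    fun a b ha hb h => le_antisymm ((hle a b hb).mpr h.le) ((hle b a ha).mpr h.ge)
  have hxO : ι (rl X) ∉ O := by
    intro h
    rw [← O.valuation_le_one_iff] at h
    have h1 : O.valuation (ι (rl X)) ≤ O.valuation (ι 1) := by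
      simpa using h
    rw [hle _ _ one_ne_zero, dg_rl, dg_one'] at h1
    simp at h1
  have hk : ∀ c : k, algebraMap k F c ∈ O := by
    intro c
    rw [IsScalarTower.algebraMap_apply k (Rg f) F, ← O.valuation_le_one_iff]
    have h1 : O.valuation (ι (algebraMap k (Rg f) c)) ≤ O.valuation (ι 1) := by
      rw [hle _ _ one_ne_zero, dg_const]
      exact Nat.zero_le _
    simpa using h1
  have hplace : ZC.IsPlace k O := ⟨hk, fun h => hxO (by rw [h]; trivial)⟩
  refine ⟨O, hplace, hxO, ?_, ?_⟩
  · intro s α hs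
    obtain ⟨c, hc, hn⟩ := exists_norm hf hs
    have hm : (lins s).Monic := by
      unfold lins
      refine monic_multiset_prod_of_monic s _ fun P _ => P.lin_monic
    have hα : α ≠ 0 := by
      rintro rfl
      rw [QuadraticAlgebra.norm_zero] at hn
      have := mul_ne_zero (C_ne_zero.mpr hc) hm.ne_zero
      exact this hn.symm
    have hd : dg α = Multiset.card (s.filter (· ≠ .inf)) := by
      unfold dg
      rw [hn, natDegree_C_mul hc, natDegree_lins]
    set m := Multiset.card (s.filter (· ≠ .inf)) with hmdef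
    have hX2 : (rl X : Rg f) ^ 2 ≠ 0 := pow_ne_zero _ rlX_ne
    have hdX2 : dg ((rl X : Rg f) ^ 2) = 4 := by
      rw [dg_pow' hf rlX_ne, dg_rl]
      simp
    refine ⟨ι (rl X ^ 2) / ι ⟨0, 1⟩, div_ne_zero (hne hX2) (hne om_ne), ?_, ?_, ?_⟩
    · rw [map_div₀, div_lt_one₀ (zero_lt_iff.mpr ((Valuation.ne_zero_iff _).mpr (hne om_ne)))]
      rw [hlt _ _ hX2, hdX2, dg_om hf]
      norm_num
    · intro z hz
      obtain ⟨a, b, hb, rfl⟩ := IsFractionRing.div_surjective (A := Rg f) z
      have hb0 : b ≠ 0 := nonZeroDivisors.ne_zero hb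
      have hb1 : 0 < O.valuation (ι b) := zero_lt_iff.mpr ((Valuation.ne_zero_iff _).mpr (hne hb0))
      have hy1 : 0 < O.valuation (ι ⟨0, 1⟩) :=
        zero_lt_iff.mpr ((Valuation.ne_zero_iff _).mpr (hne om_ne))
      by_cases ha : a = 0
      · rw [ha]; simp
      rw [map_div₀, div_lt_one₀ hb1, hlt _ _ ha] at hz
      rw [map_div₀, map_div₀, div_le_div_iff₀ hb1 hy1, ← map_mul, ← map_mul, ← map_mul, ← map_mul]
      rw [hle _ _ (mul_ne_zero hX2 hb0), dg_mul hf ha om_ne, dg_mul hf hX2 hb0, hdX2, dg_om hf]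
      omega
    · have h1 : O.valuation (ι (α * (rl X ^ 2) ^ m)) = O.valuation (ι (⟨0, 1⟩ ^ m)) := by
        apply heq _ _ (mul_ne_zero hα (pow_ne_zero _ hX2)) (pow_ne_zero _ om_ne)
        rw [dg_mul hf hα (pow_ne_zero _ hX2), dg_pow' hf hX2, dg_pow' hf om_ne, hdX2, dg_om hf, hd]
        ring
      have h2 : O.valuation (ι (rl X ^ 2)) ≠ 0 := (Valuation.ne_zero_iff _).mpr (hne hX2)
      rw [zpow_neg, zpow_natCast, map_div₀, div_pow, inv_div, eq_div_iff (pow_ne_zero _ h2)]
      rw [map_mul ι, map_mul O.valuation, map_pow ι, map_pow O.valuation, map_pow ι ⟨0, 1⟩,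
        map_pow O.valuation] at h1
      exact h1
  · intro O' hO' hx'
    ext z
    by_cases hz : z = 0
    · rw [hz]
      exact ⟨fun _ => zero_mem _, fun _ => zero_mem _⟩
    obtain ⟨a, b, hb, rfl⟩ := IsFractionRing.div_surjective (A := Rg f) z
    have hb0 : b ≠ 0 := nonZeroDivisors.ne_zero hb
    have ha0 : a ≠ 0 := by
      rintro rfl
      apply hz
      simp
    rw [← val_le_iff O' _ _ (hne hb0), ← val_le_iff O _ _ (hne hb0),
      dg_of_place hf O' hO' hx' a b ha0 hb0, hle _ _ hb0]

end Pool.Agent.GTwo
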