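import Pool.Agent.GTwo.Domain

/-!
# The function field
-/

set_option autoImplicit false

noncomputable section

namespace Pool.Agent.GTwo

open Polynomial
open scoped Classical

variable {k : Type} [Field k] {f : k[X]}

theorem isCurve (hf : Hyp f) {F : Type} [Field F] [Algebra (Rg f) F]
    [IsFractionRing (Rg f) F] [Algebra k F] [IsScalarTower k (Rg f) F] : ZC.IsCurve k F := by
  have := rg_isDomain hf
  set x : F := algebraMap (Rg f) F (rl X) with hx
  set y : F := algebraMap (Rg f) F ⟨0, 1⟩ with hy
  have hae : ∀ p : k[X], aeval x p = algebraMap (Rg f) F (rl p) := by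
    intro p
    rw [hx, aeval_algebraMap_apply, aeval_algebraMap_apply, aeval_X_left_apply]
  have hinj : Function.Injective (algebraMap (Rg f) F) := IsFractionRing.injective (Rg f) F
  have htr : Transcendental k x := by
    rw [transcendental_iff]
    intro p hp
    rw [hae] at hp
    have h1 : (rl p : Rg f) = 0 := hinj (by rw [hp, map_zero])
    have h2 := congrArg QuadraticAlgebra.re h1
    simpa using h2
  refine ⟨x, htr, ?_⟩
  set K := IntermediateField.adjoin k {x} with hK
  have hxK : x ∈ K := IntermediateField.mem_adjoin_simple_self k x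
  have haeK : ∀ p : k[X], aeval x p ∈ K := by
    intro p
    exact (IntermediateField.algebra_adjoin_le_adjoin k {x})
      (by rw [Algebra.adjoin_singleton_eq_range_aeval]; exact ⟨p, rfl⟩)
  have hy2 : y ^ 2 = aeval x f := by
    rw [hae, hy, ← map_pow]
    congr 1
    ext1
    · simp [pow_two]
    · simp [pow_two]
  have hyint : IsIntegral K y := by
    refine ⟨X ^ 2 - C ⟨aeval x f, haeK f⟩, monic_X_pow_sub_C _ two_ne_zero, ?_⟩
    simp only [eval₂_sub, eval₂_X_pow, eval₂_C, hy2]
    exact sub_self _
  have htop : IntermediateField.adjoin K {y} = ⊤ := by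
    rw [eq_top_iff]
    intro z _
    have hmem : ∀ w : Rg f, algebraMap (Rg f) F w ∈ IntermediateField.adjoin K {y} := by
      intro w
      have h1 : w = rl w.re + rl w.im * ⟨0, 1⟩ := by
        ext1
        · simp
        · simp
      rw [h1, map_add, map_mul, ← hae, ← hae, ← hy]
      have h2 : ∀ p : k[X], aeval x p ∈ IntermediateField.adjoin K {y} := fun p =>
        (IntermediateField.adjoin K {y}).algebraMap_mem ⟨aeval x p, haeK p⟩
      exact add_mem (h2 _) (mul_mem (h2 _) (IntermediateField.mem_adjoin_simple_self K y))
    obtain ⟨a, b, rfl⟩ := IsFractionRing.div_surjective (A := Rg f) z |>.elim fun a h =>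
      h.elim fun b h => (⟨a, b, h.2.symm⟩ : ∃ a b, z = algebraMap (Rg f) F a / algebraMap (Rg f) F b)
    exact div_mem (hmem a) (hmem b)
  have hfd : FiniteDimensional K (IntermediateField.adjoin K {y}) :=
    IntermediateField.adjoin.finiteDimensional hyint
  rw [htop] at hfd
  exact Module.Finite.equiv (IntermediateField.topEquiv (F := K) (E := F)).toLinearEquiv

end Pool.Agent.GTwo
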