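import Pool.Agent.GTwo.FinPlace
import Pool.Agent.GTwo.InfPlace
import Pool.Agent.GTwo.IsCurve

/-!
# Divisors of regular functions
-/

set_option autoImplicit false

noncomputable section

namespace Pool.Agent.GTwo

open Polynomial
open scoped Classical

variable {k : Type} [Field k] {f : k[X]}

private lemma count_dv (s : Multiset (Pt f)) (Q : Pt f) : dv s Q = (s.count Q : ℤ) := by
  induction s using Multiset.induction with
  | empty => simp [dv]
  | cons P s ih =>
    have h1 : dv (P ::ₘ s) = Finsupp.single P 1 + dv s := by simp [dv]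
    rw [h1, Finsupp.add_apply, ih, Multiset.count_cons, Finsupp.single_apply]
    by_cases h : P = Q
    · subst h
      simp [add_comm]
    · simp [h, Ne.symm h]

private lemma iota_rl (F : Type) [Field F] [Algebra (Rg f) F] [Algebra k F]
    [IsScalarTower k (Rg f) F] (p : k[X]) :
    algebraMap (Rg f) F (rl p) = aeval (algebraMap (Rg f) F (rl X)) p := by
  rw [aeval_algebraMap_apply]
  congr 1
  have h1 : aeval (rl X : Rg f) p = rl (aeval (X : k[X]) p) := aeval_algebraMap_apply _ _ _
  rw [h1, aeval_X_left]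
  rfl

private lemma iota_const (F : Type) [Field F] [Algebra (Rg f) F] [Algebra k F]
    [IsScalarTower k (Rg f) F] (a : k) :
    algebraMap (Rg f) F (rl (C a)) = algebraMap k F a := by
  rw [iota_rl, aeval_C]

private lemma ysq (F : Type) [Field F] [Algebra (Rg f) F] [Algebra k F]
    [IsScalarTower k (Rg f) F] :
    (algebraMap (Rg f) F ⟨0, 1⟩) ^ 2 =
      (f.map (algebraMap k F)).eval (algebraMap (Rg f) F (rl X)) := by
  rw [← map_pow, eval_map_algebraMap, ← iota_rl]
  congr 1
  rw [pow_two]
  ext1 <;> simp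

/-- a place at which `x` is finite is the place of an affine point -/
private lemma exists_point [IsAlgClosed k] (hf : Hyp f) (F : Type) [Field F] [Algebra (Rg f) F]
    [IsFractionRing (Rg f) F] [Algebra k F] [IsScalarTower k (Rg f) F]
    (O : ValuationSubring F) (hO : ZC.IsPlace k O) (hx : algebraMap (Rg f) F (rl X) ∈ O) :
    (∀ z : Rg f, algebraMap (Rg f) F z ∈ O) ∧
    ∃ P : Pt f, P ≠ .inf ∧ ∀ z ∈ P.ideal, O.valuation (algebraMap (Rg f) F z) < 1 := by
  set ι := algebraMap (Rg f) F with hι
  set v := O.valuation with hv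
  have hrl : ∀ p : k[X], ι (rl p) ∈ O := by
    intro p
    rw [hι, iota_rl, aeval_eq_sum_range]
    refine sum_mem fun i _ => ?_
    rw [Algebra.smul_def]
    exact mul_mem (hO.1 _) (pow_mem hx _)
  have hy : ι ⟨0, 1⟩ ∈ O := by
    rw [← O.valuation_le_one_iff]
    have h1 : v (ι ⟨0, 1⟩) ^ 2 ≤ 1 := by
      rw [← map_pow, ← map_pow, hv, O.valuation_le_one_iff]
      have h2 : (⟨0, 1⟩ : Rg f) ^ 2 = rl f := by
        rw [pow_two]
        ext1 <;> simp
      rw [h2]
      exact hrl f
    by_contra hcon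
    push Not at hcon
    exact absurd h1 (not_le.mpr (one_lt_pow₀ hcon two_ne_zero))
  have hall : ∀ z : Rg f, ι z ∈ O := by
    intro z
    have hz1 : z = rl z.re + rl z.im * ⟨0, 1⟩ := by
      ext1 <;> simp
    rw [hz1, map_add, map_mul]
    exact add_mem (hrl _) (mul_mem (hrl _) hy)
  refine ⟨hall, ?_⟩
  have hle : ∀ z : Rg f, v (ι z) ≤ 1 := fun z => (O.valuation_le_one_iff _).mpr (hall z)
  -- a non-zero regular function which vanishes
  obtain ⟨u, hu⟩ : ∃ u : F, u ∉ O := by
    by_contra hcon
    push Not at hcon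
    apply hO.2
    ext z
    simp [hcon z]
  obtain ⟨a, b, hb, rfl⟩ := IsFractionRing.div_surjective (A := Rg f) u
  have hvb : v (ι b) < 1 := by
    refine lt_of_le_of_ne (hle b) fun h1 => hu ?_
    rw [← O.valuation_le_one_iff, map_div₀, ← hv, ← hι, h1, div_one]
    exact hle a
  have hb0 : b ≠ 0 := by
    rintro rfl
    apply hu
    simp
  have hconst : ∀ c : k, c ≠ 0 → v (ι (rl (C c))) = 1 := by
    intro c hc
    refine le_antisymm (hle _) ?_
    have h1 : v (ι (rl (C c))) * v (ι (rl (C c⁻¹))) = 1 := by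
      rw [← map_mul, hι, iota_const, iota_const, ← map_mul, mul_inv_cancel₀ hc]
      simp
    calc (1 : O.ValueGroup) = v (ι (rl (C c))) * v (ι (rl (C c⁻¹))) := h1.symm
      _ ≤ v (ι (rl (C c))) * 1 := by gcongr; exact hle _
      _ = _ := mul_one _
  have hrlmul : ∀ p q : k[X], ι (rl (p * q)) = ι (rl p) * ι (rl q) := by
    intro p q
    rw [← map_mul]
    congr 1
    exact map_mul (algebraMap k[X] (Rg f)) p q
  have hroot : ∀ n : ℕ, ∀ p : k[X], p ≠ 0 → p.natDegree ≤ n → v (ι (rl p)) < 1 →
      ∃ c : k, v (ι (rl (X - C c))) < 1 := by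
    intro n
    induction n with
    | zero =>
      intro p hp hn h1
      exfalso
      rw [eq_C_of_natDegree_le_zero hn] at hp h1
      rw [hconst _ (by simpa using hp)] at h1
      exact lt_irrefl _ h1
    | succ n ih =>
      intro p hp hn h1
      by_cases hd : p.natDegree = 0
      · exact ih p hp (by omega) h1
      obtain ⟨c, hc⟩ := IsAlgClosed.exists_root p (by
        rw [degree_eq_natDegree hp]
        exact_mod_cast hd)
      obtain ⟨q, hq⟩ := dvd_iff_isRoot.mpr hc
      rw [hq, hrlmul, map_mul] at h1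
      by_cases h2 : v (ι (rl (X - C c))) < 1
      · exact ⟨c, h2⟩
      have h3 : v (ι (rl (X - C c))) = 1 := le_antisymm (hle _) (not_lt.mp h2)
      rw [h3, one_mul] at h1
      have hq0 : q ≠ 0 := by
        rintro rfl
        rw [mul_zero] at hq
        exact hp hq
      refine ih q hq0 ?_ h1
      have h4 := congrArg natDegree hq
      rw [natDegree_mul (X_sub_C_ne_zero c) hq0, natDegree_X_sub_C] at h4
      omega
  have hnorm : v (ι (rl (QuadraticAlgebra.norm b))) < 1 := by
    have h1 : (rl (QuadraticAlgebra.norm b) : Rg f) = b * star b :=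
      QuadraticAlgebra.algebraMap_norm_eq_mul_star b
    rw [h1, map_mul, map_mul]
    calc v (ι b) * v (ι (star b)) ≤ v (ι b) * 1 := by gcongr; exact hle _
      _ < 1 := by rwa [mul_one]
  have hn0 : QuadraticAlgebra.norm b ≠ 0 := norm_ne_zero hf hb0
  obtain ⟨c, hc⟩ := hroot _ _ hn0 le_rfl hnorm
  obtain ⟨d, hd⟩ := IsAlgClosed.exists_pow_nat_eq (f.eval c) (n := 2) two_pos
  -- `(y - d) (y + d)` vanishes
  have hprod : v (ι ⟨-C d, 1⟩) < 1 ∨ v (ι ⟨-C (-d), 1⟩) < 1 := by
    obtain ⟨h, hh⟩ := X_sub_C_dvd_sub_C_eval (p := f) (a := c)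
    have h1 : (⟨-C d, 1⟩ : Rg f) * ⟨-C (-d), 1⟩ = rl ((X - C c) * h) := by
      change (⟨-C d, 1⟩ : Rg f) * ⟨-C (-d), 1⟩ = ⟨(X - C c) * h, 0⟩
      rw [← hh, ← hd]
      ext1
      · simp
        ring
      · simp
    have h2 : v (ι ⟨-C d, 1⟩) * v (ι ⟨-C (-d), 1⟩) < 1 := by
      rw [← map_mul, ← map_mul, h1, hrlmul, map_mul]
      calc v (ι (rl (X - C c))) * v (ι (rl h)) ≤ v (ι (rl (X - C c))) * 1 := by
            gcongr; exact hle _
        _ < 1 := by rwa [mul_one]
    by_contra hcon
    push Not at hcon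
    have h3 := le_antisymm (hle _) hcon.1
    have h4 := le_antisymm (hle _) hcon.2
    rw [h3, h4, one_mul] at h2
    exact lt_irrefl _ h2
  have hgen : ∀ (e : k) (he : e ^ 2 = f.eval c), v (ι ⟨-C e, 1⟩) < 1 →
      ∀ z ∈ (Pt.aff c e he).ideal, v (ι z) < 1 := by
    intro e he h1 z hz
    unfold Pt.ideal at hz
    rw [Ideal.mem_span_pair] at hz
    obtain ⟨r, t, rfl⟩ := hz
    have h2 : v (ι (r * ⟨X - C c, 0⟩)) < 1 := by
      rw [map_mul, map_mul]
      calc v (ι r) * v (ι ⟨X - C c, 0⟩) ≤ 1 * v (ι ⟨X - C c, 0⟩) := by gcongr; exact hle _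
        _ < 1 := by rw [one_mul]; exact hc
    have h3 : v (ι (t * ⟨-C e, 1⟩)) < 1 := by
      rw [map_mul, map_mul]
      calc v (ι t) * v (ι ⟨-C e, 1⟩) ≤ 1 * v (ι ⟨-C e, 1⟩) := by gcongr; exact hle _
        _ < 1 := by rw [one_mul]; exact h1
    rw [map_add]
    exact Valuation.map_add_lt v h2 h3
  rcases hprod with h | h
  · exact ⟨.aff c d hd, by simp, hgen d hd h⟩
  · exact ⟨.aff c (-d) (by rw [neg_sq]; exact hd), by simp, hgen (-d) _ h⟩

private lemma Prin.ne_zero (hf : Hyp f) {s : Multiset (Pt f)} {α : Rg f}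
    (h : Ideal.span {α} = idl s) : α ≠ 0 := by
  obtain ⟨c, hc, hn⟩ := exists_norm hf h
  have hm : (lins s).Monic := by
    unfold lins
    refine monic_multiset_prod_of_monic s _ fun P _ => P.lin_monic
  rintro rfl
  rw [QuadraticAlgebra.norm_zero] at hn
  exact mul_ne_zero (C_ne_zero.mpr hc) hm.ne_zero hn.symm

theorem exists_div [IsAlgClosed k] (hf : Hyp f) {s : Multiset (Pt f)} (hs : Prin s) :
    ∃ (F : Type) (_ : Field F) (_ : Algebra k F) (P : Pt (f.map (algebraMap k F))) (g : F)
      (S : Finset (ValuationSubring F)) (n : ValuationSubring F → ℤ)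
      (p : ValuationSubring F → Pt f), ZC.IsCurve k F ∧ g ≠ 0 ∧
      (∀ O, ZC.IsPlace k O → O ∉ S → O.valuation g = 1) ∧
      (∀ O ∈ S, ZC.IsPlace k O ∧ ZC.HasOrd O g (n O) ∧ SpecAt O f P (p O)) ∧
      ∑ O ∈ S, Finsupp.single (p O) (n O) =
        dv s - (Multiset.card s : ℤ) • Finsupp.single .inf 1 := by
  have := rg_isDomain hf
  obtain ⟨α, hα⟩ := hs
  change Ideal.span {α} = idl s at hα
  have hα0 : α ≠ 0 := Prin.ne_zero hf hα
  let F := FractionRing (Rg f)
  let ι : Rg f →+* F := algebraMap (Rg f) F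
  have hinj : Function.Injective ι := IsFractionRing.injective (Rg f) F
  obtain ⟨Oi, hOi, hxi, hordi, huniqi⟩ := exists_infPlace hf (F := F)
  choose Of hOf hmemf hltf hordf huniqf using fun (P : {P : Pt f // P ≠ .inf}) =>
    exists_finPlace hf (F := F) P.2
  let Op : Pt f → ValuationSubring F := fun P => if h : P ≠ .inf then Of ⟨P, h⟩ else Oi
  have hOpinf : Op .inf = Oi := by simp [Op]
  have hOpaff : ∀ (P : Pt f) (h : P ≠ .inf), Op P = Of ⟨P, h⟩ := by
    intro P h
    simp [Op, h]
  have hOpinj : Function.Injective Op := by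
    intro P Q hPQ
    by_cases hP : P = .inf
    · by_cases hQ : Q = .inf
      · rw [hP, hQ]
      · exfalso
        rw [hP, hOpinf, hOpaff Q hQ] at hPQ
        apply hxi
        rw [hPQ]
        exact hmemf _ _
    · by_cases hQ : Q = .inf
      · exfalso
        rw [hQ, hOpinf, hOpaff P hP] at hPQ
        apply hxi
        rw [← hPQ]
        exact hmemf _ _
      · rw [hOpaff P hP, hOpaff Q hQ] at hPQ
        have h1 : idl ({P} : Multiset (Pt f)) ≤ Q.ideal := by
          intro z hz
          have hz' : z ∈ P.ideal := by simpa [idl] using hz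
          have h2 := (hltf ⟨P, hP⟩ z).mpr hz'
          rw [hPQ] at h2
          exact (hltf ⟨Q, hQ⟩ z).mp h2
        have h3 := (idl_le_ideal_iff hf _ hQ).mp h1
        exact (Multiset.mem_singleton.mp h3).symm
  haveI : Nonempty (Pt f) := ⟨.inf⟩
  let p : ValuationSubring F → Pt f := Function.invFun Op
  have hp : ∀ P, p (Op P) = P := Function.leftInverse_invFun hOpinj
  let N : Pt f → ℤ := fun P => if P = .inf then -(Multiset.card (s.filter (· ≠ .inf)) : ℤ)
    else s.count P
  let T : Finset (Pt f) := insert .inf s.toFinset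
  refine ⟨F, inferInstance, inferInstance, .aff (ι (rl X)) (ι ⟨0, 1⟩) (ysq F), ι α, T.image Op,
    fun O => N (p O), p, isCurve hf, ?_, ?_, ?_, ?_⟩
  · exact (map_ne_zero_iff ι hinj).mpr hα0
  · intro O hO hOS
    by_cases hx : ι (rl X) ∈ O
    · obtain ⟨hall, P, hP, hPlt⟩ := exists_point hf F O hO hx
      have h1 : O = Op P := by
        rw [hOpaff P hP]
        exact huniqf ⟨P, hP⟩ O hO hall hPlt
      have h2 : P ∉ s := by
        intro hPs
        apply hOS
        rw [h1]
        exact Finset.mem_image_of_mem _ (Finset.mem_insert_of_mem (Multiset.mem_toFinset.mpr hPs))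
      have h3 : α ∉ P.ideal := by
        intro h4
        apply h2
        rw [← idl_le_ideal_iff hf s hP, ← hα, Ideal.span_singleton_le_iff_mem]
        exact h4
      refine le_antisymm ((O.valuation_le_one_iff _).mpr (hall α)) ?_
      by_contra hcon
      push Not at hcon
      rw [h1, hOpaff P hP] at hcon
      exact h3 ((hltf ⟨P, hP⟩ α).mp hcon)
    · exfalso
      apply hOS
      rw [huniqi O hO hx, ← hOpinf]
      exact Finset.mem_image_of_mem _ (Finset.mem_insert_self _ _)
  · intro O hO
    obtain ⟨P, hPT, rfl⟩ := Finset.mem_image.mp hO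
    simp only [hp]
    by_cases hP : P = .inf
    · subst hP
      rw [hOpinf]
      refine ⟨hOi, ?_, ?_⟩
      · simpa [N] using hordi s α hα
      · exact SpecAt.pole _ hxi
    · rw [hOpaff P hP]
      refine ⟨hOf _, ?_, ?_⟩
      · simpa [N, hP] using hordf ⟨P, hP⟩ s α hα
      · have hlt := hltf ⟨P, hP⟩
        generalize Of ⟨P, hP⟩ = O' at hlt ⊢
        cases P with
        | inf => exact absurd rfl hP
        | aff a b hab =>
          refine SpecAt.finite _ _ ?_ ?_
          · have h1 := (hlt ⟨X - C a, 0⟩).mpr (Ideal.subset_span (by simp))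
            have h2 : ι ⟨X - C a, 0⟩ = ι (rl X) - algebraMap k F a := by
              rw [← iota_const (f := f) F a, ← map_sub]
              congr 1
              exact map_sub (algebraMap k[X] (Rg f)) X (C a)
            rw [← h2]
            exact h1
          · have h1 := (hlt ⟨-C b, 1⟩).mpr (Ideal.subset_span (by simp))
            have h2 : ι ⟨-C b, 1⟩ = ι ⟨0, 1⟩ - algebraMap k F b := by
              rw [← iota_const (f := f) F b, ← map_sub]
              congr 1
              ext1
              · simp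
              · simp
            rw [← h2]
            exact h1
  · rw [Finset.sum_image hOpinj.injOn]
    simp only [hp]
    ext Q
    rw [Finsupp.finsetSum_apply, Finsupp.sub_apply, Finsupp.smul_apply, count_dv]
    simp only [Finsupp.single_apply]
    rw [Finset.sum_ite_eq']
    by_cases hQ : Q = .inf
    · subst hQ
      have h1 := Multiset.filter_add_not (fun P : Pt f => P ≠ .inf) s
      have h2 := congrArg Multiset.card h1
      rw [Multiset.card_add] at h2
      have h3 : Multiset.card (s.filter fun P => ¬ P ≠ .inf) = s.count .inf := by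
        rw [Multiset.count_eq_card_filter_eq]
        congr 1
        refine Multiset.filter_congr fun P _ => ?_
        rw [not_not]
        exact eq_comm
      have h4 : (s.filter fun P => ¬ P = Pt.inf).card + s.count .inf = s.card := by
        rw [← h3]
        exact h2
      simp [T, N]
      omega
    · by_cases hQs : Q ∈ s
      · simp [T, N, hQ, hQs, Ne.symm hQ]
      · simp [T, N, hQ, hQs, Ne.symm hQ]

end Pool.Agent.GTwo
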