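import Pool.Agent.GTwo.Field
import Pool.Agent.ZC.Loc

/-!
# The places of the affine points
-/

set_option autoImplicit false

noncomputable section

namespace Pool.Agent.GTwo

open Polynomial
open scoped Classical

variable {k : Type} [Field k] {f : k[X]}

private lemma rlm (a b : k[X]) : (rl (a * b) : Rg f) = rl a * rl b :=
  map_mul (algebraMap k[X] (Rg f)) a b

private lemma rlp (a : k[X]) (n : ℕ) : (rl (a ^ n) : Rg f) = rl a ^ n :=
  map_pow (algebraMap k[X] (Rg f)) a n

/-- the evaluation at an affine point -/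
private def ev (a b : k) (h : b ^ 2 = f.eval a) : Rg f →ₐ[k] k where
  toFun z := z.re.eval a + z.im.eval a * b
  map_one' := by
    rw [QuadraticAlgebra.re_one, QuadraticAlgebra.im_one, eval_one, eval_zero, zero_mul, add_zero]
  map_zero' := by
    rw [QuadraticAlgebra.re_zero, QuadraticAlgebra.im_zero, eval_zero, zero_mul, add_zero]
  map_mul' z w := by
    simp only [QuadraticAlgebra.re_mul, QuadraticAlgebra.im_mul, eval_add, eval_mul, eval_zero,
      zero_mul]
    linear_combination (-(z.im.eval a * w.im.eval a)) * h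
  map_add' z w := by
    simp only [QuadraticAlgebra.re_add, QuadraticAlgebra.im_add, eval_add]
    ring
  commutes' c := by
    rw [IsScalarTower.algebraMap_apply k k[X] (Rg f)]
    simp

private lemma ev_apply (a b : k) (h : b ^ 2 = f.eval a) (z : Rg f) :
    ev a b h z = z.re.eval a + z.im.eval a * b := rfl

private lemma ev_rl (a b : k) (h : b ^ 2 = f.eval a) (p : k[X]) :
    ev a b h (rl p) = p.eval a := by
  rw [ev_apply]
  simp

private lemma star_mul_norm (z : Rg f) : z * star z = rl (QuadraticAlgebra.norm z) := by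
  ext1
  · simp [QuadraticAlgebra.norm_def]
    ring
  · simp
    ring

private lemma exists_norm_fac (hf : Hyp f) {z : Rg f} (hz : z ≠ 0) (a : k) :
    ∃ (m : ℕ) (g : k[X]), g.eval a ≠ 0 ∧ z * star z = rl (X - C a) ^ m * rl g := by
  obtain ⟨g, hg, hd⟩ := exists_eq_pow_rootMultiplicity_mul_and_not_dvd
    (QuadraticAlgebra.norm z) (norm_ne_zero hf hz) a
  refine ⟨rootMultiplicity a (QuadraticAlgebra.norm z), g, fun h => hd (dvd_iff_isRoot.2 h), ?_⟩
  rw [star_mul_norm]
  conv_lhs => rw [hg]
  rw [rlm, rlp]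

private lemma sub_eq_zero_dvd {p : k[X]} {a : k} (h : p.eval a = 0) :
    ∃ q : k[X], p = (X - C a) * q := dvd_iff_isRoot.2 h

private lemma locData_one (hf : Hyp f) (a b : k) (h : b ^ 2 = f.eval a) (hb : b ≠ 0) :
    ZC.LocData (ev a b h) (rl (X - C a)) := by
  have h2 : (2 : k) ≠ 0 := hf.two.ne_zero
  refine ⟨?_, ?_, ?_, ?_⟩
  · intro h0
    have := congrArg QuadraticAlgebra.re h0
    simp only [QuadraticAlgebra.re_zero] at this
    exact X_sub_C_ne_zero a (by simpa using this)
  · rw [ev_rl]
    simp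
  · intro z hz
    rw [ev_apply] at hz
    obtain ⟨p1, hp1⟩ := sub_eq_zero_dvd (p := z.re + z.im * C b) (a := a) (by simpa using hz)
    obtain ⟨f1, hf1⟩ := sub_eq_zero_dvd (p := f - C (b ^ 2)) (a := a) (by simp [h])
    refine ⟨rl p1 * ⟨C b, 1⟩ + rl (z.im * f1), ⟨C b, 1⟩, ?_, ?_⟩
    · rw [ev_apply]
      simp only [eval_C, eval_one, one_mul]
      rw [← two_mul]
      exact mul_ne_zero h2 hb
    · have e1 : z.re = (X - C a) * p1 - z.im * C b := by rw [← hp1]; ring
      have e2 : f = (X - C a) * f1 + C b ^ 2 := by rw [← hf1, C_pow]; ring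
      ext1
      · simp only [QuadraticAlgebra.re_mul, QuadraticAlgebra.re_add,
          QuadraticAlgebra.algebraMap_re, QuadraticAlgebra.algebraMap_im]
        simp
        linear_combination (C b) * e1 + z.im * e2
      · simp
        linear_combination e1
  · intro z hz
    obtain ⟨m, g, hg, hzg⟩ := exists_norm_fac hf hz a
    exact ⟨m, star z, rl g, by rwa [ev_rl], hzg⟩

private lemma locData_two (hf : Hyp f) (a b : k) (h : b ^ 2 = f.eval a) (hb : b = 0) :
    ZC.LocData (ev a b h) (⟨0, 1⟩ : Rg f) := by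
  have hfa : f.eval a = 0 := by rw [← h, hb]; simp
  obtain ⟨f1, hf1⟩ := sub_eq_zero_dvd hfa
  have hf1a : f1.eval a ≠ 0 := by
    intro h0
    have hs := hf.sep
    obtain ⟨u, w, huw⟩ := hs
    have h1 := congrArg (Polynomial.eval a) huw
    have h2 : (derivative f).eval a = 0 := by
      rw [hf1, derivative_mul]
      simp [h0]
    simp [hfa, h2] at h1
  refine ⟨?_, ?_, ?_, ?_⟩
  · intro h0
    have := congrArg QuadraticAlgebra.im h0
    simp at this
  · rw [ev_apply]
    simp [hb]
  · intro z hz
    rw [ev_apply, hb, mul_zero, add_zero] at hz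
    obtain ⟨p1, hp1⟩ := sub_eq_zero_dvd hz
    refine ⟨⟨z.im * f1, p1⟩, rl f1, by rwa [ev_rl], ?_⟩
    ext1
    · simp
      linear_combination f1 * hp1 - p1 * hf1
    · simp
  · intro z hz
    obtain ⟨m, g, hg, hzg⟩ := exists_norm_fac hf hz a
    refine ⟨2 * m, star z * rl f1 ^ m, rl g, by rwa [ev_rl], ?_⟩
    have hy : (⟨0, 1⟩ : Rg f) ^ 2 = rl (X - C a) * rl f1 := by
      rw [← rlm, ← hf1, pow_two]
      ext1 <;> simp
    rw [pow_mul, hy, mul_pow, ← mul_assoc, hzg]
    ring

theorem exists_finPlace (hf : Hyp f) {F : Type} [Field F] [Algebra (Rg f) F]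
    [IsFractionRing (Rg f) F] [Algebra k F] [IsScalarTower k (Rg f) F] {P : Pt f}
    (hP : P ≠ .inf) : ∃ O : ValuationSubring F, ZC.IsPlace k O ∧
      (∀ z : Rg f, algebraMap (Rg f) F z ∈ O) ∧
      (∀ z : Rg f, O.valuation (algebraMap (Rg f) F z) < 1 ↔ z ∈ P.ideal) ∧
      (∀ (s : Multiset (Pt f)) (α : Rg f), Ideal.span {α} = idl s →
        ZC.HasOrd O (algebraMap (Rg f) F α) (s.count P)) ∧
      ∀ O' : ValuationSubring F, ZC.IsPlace k O' → (∀ z : Rg f, algebraMap (Rg f) F z ∈ O') →
        (∀ z ∈ P.ideal, O'.valuation (algebraMap (Rg f) F z) < 1) → O' = O := by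
  have := rg_isDomain hf
  rcases hPdef : P with _ | ⟨a, b, h⟩
  · exact absurd hPdef hP
  rw [← hPdef]
  have hmem : ∀ z : Rg f, ev a b h z = 0 ↔ z ∈ P.ideal := by
    intro z
    rw [hPdef, Pt.mem_ideal_aff, ev_apply]
  obtain ⟨π, hπ⟩ : ∃ π : Rg f, ZC.LocData (ev a b h) π := by
    by_cases hb : b = 0
    · exact ⟨_, locData_two hf a b h hb⟩
    · exact ⟨_, locData_one hf a b h hb⟩
  obtain ⟨O, h1, h2, h3, h4, h5⟩ := ZC.exists_place (F := F) (ev a b h) π hπ
  refine ⟨O, h1, h2, fun z => (h3 z).trans (hmem z), ?_, ?_⟩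
  · intro s α hα
    set ι := algebraMap (Rg f) F with hι
    have hinj : Function.Injective ι := IsFractionRing.injective (Rg f) F
    have hπ0 : ι π ≠ 0 := fun h0 => hπ.ne (hinj (by rw [h0, map_zero]))
    have hπ1 : O.valuation (ι π) < 1 := (h3 π).2 hπ.zero
    have hπP : π ∈ P.ideal := (hmem π).1 hπ.zero
    refine ⟨ι π, hπ0, hπ1, h4, ?_⟩
    set n := s.count P with hn
    set s' := s.filter (fun Q => Q ≠ P) with hs'
    have hsplit : s = Multiset.replicate n P + s' := by
      ext Q
      rw [Multiset.count_add, Multiset.count_replicate, hs', Multiset.count_filter, hn]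
      by_cases hQ : P = Q
      · simp [hQ]
      · simp [hQ, Ne.symm hQ]
    have hPs' : P ∉ s' := by
      rw [hs', Multiset.mem_filter]
      rintro ⟨_, h0⟩
      exact h0 rfl
    have hidl : idl s = P.ideal ^ n * idl s' := by
      conv_lhs => rw [hsplit]
      rw [idl_add]
      congr 1
      unfold idl
      rw [Multiset.map_replicate, Multiset.prod_replicate]
    have hpow : ∀ (n : ℕ) (z : Rg f), z ∈ P.ideal ^ n →
        O.valuation (ι z) ≤ O.valuation (ι π) ^ n := by
      intro n
      induction n with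
      | zero =>
        intro z _
        rw [pow_zero]
        exact (O.valuation_le_one_iff _).2 (h2 z)
      | succ n ih =>
        intro z hz
        rw [pow_succ] at hz
        refine Submodule.mul_induction_on hz ?_ ?_
        · intro x hx y hy
          rw [map_mul, map_mul, pow_succ]
          exact mul_le_mul' (ih x hx) (h4 _ ((h3 y).2 ((hmem y).2 hy)))
        · intro x y hx hy
          rw [map_add]
          exact (Valuation.map_add _ _ _).trans (max_le hx hy)
    rw [zpow_natCast]
    apply le_antisymm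
    · have h6 : α ∈ idl s := by
        rw [← hα]
        exact Ideal.mem_span_singleton_self α
      rw [hidl] at h6
      have h8 : P.ideal ^ n * idl s' ≤ P.ideal ^ n := Ideal.mul_le_left
      exact hpow n α (h8 h6)
    · obtain ⟨w, hw, hwP⟩ : ∃ w ∈ idl s', w ∉ P.ideal := by
        by_contra hcon
        push Not at hcon
        exact hPs' ((idl_le_ideal_iff hf s' hP).1 hcon)
      have hw1 : O.valuation (ι w) = 1 := by
        refine le_antisymm ((O.valuation_le_one_iff _).2 (h2 w)) ?_
        by_contra h0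
        exact hwP ((hmem w).1 ((h3 w).1 (not_le.1 h0)))
      have h6 : π ^ n * w ∈ idl s := by
        rw [hidl]
        exact Ideal.mul_mem_mul (Ideal.pow_mem_pow hπP n) hw
      rw [← hα, Ideal.mem_span_singleton] at h6
      obtain ⟨β, hβ⟩ := h6
      have h7 : O.valuation (ι π) ^ n = O.valuation (ι α) * O.valuation (ι β) := by
        rw [← map_mul, ← map_mul, ← hβ, map_mul, map_mul, hw1, mul_one, map_pow, map_pow]
      rw [h7]
      exact mul_le_of_le_one_right' ((O.valuation_le_one_iff _).2 (h2 β))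
  · intro O' hO' hR hlt
    exact h5 O' hO' hR fun z hz => hlt z ((hmem z).1 hz)

end Pool.Agent.GTwo
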