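import Pool.Agent.GTwo.Defs2

/-!
# Numbers with few conjugates
-/

set_option autoImplicit false

noncomputable section

namespace Pool.Agent.GTwo

open Polynomial
open scoped Classical

theorem deg_le_of_orbit (S : Finset (AlgebraicClosure ℚ)) : ∃ N : ℕ,
    ∀ z z' : AlgebraicClosure ℚ, (∀ σ : AlgebraicClosure ℚ ≃+* AlgebraicClosure ℚ,
      (∀ s ∈ S, σ s = s) → σ z = z ∨ σ z = z') → (minpoly ℚ z).natDegree ≤ N := by
  have halg : Algebra.IsAlgebraic ℚ (AlgebraicClosure ℚ) := AlgebraicClosure.isAlgebraic ℚ
  let K : IntermediateField ℚ (AlgebraicClosure ℚ) :=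
    IntermediateField.adjoin ℚ (S : Set (AlgebraicClosure ℚ))
  have hK : FiniteDimensional ℚ K :=
    IntermediateField.finiteDimensional_adjoin fun s _ => (halg.isAlgebraic s).isIntegral
  have halgK : Algebra.IsAlgebraic K (AlgebraicClosure ℚ) :=
    Algebra.IsAlgebraic.tower_top (K := ℚ) K
  have hcl : IsAlgClosure K (AlgebraicClosure ℚ) := ⟨inferInstance, halgK⟩
  have hnorm : Normal K (AlgebraicClosure ℚ) := IsAlgClosure.normal K _
  refine ⟨Module.finrank ℚ K * 2, fun z z' h => ?_⟩
  have hzK : IsIntegral K z := (halgK.isAlgebraic z).isIntegral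
  -- the roots of the minimal polynomial over K
  have hroots : (minpoly K z).rootSet (AlgebraicClosure ℚ) ⊆ ({z, z'} : Finset _) := by
    intro w hw
    have hw' : (minpoly K z).aeval w = 0 := by
      rw [Polynomial.mem_rootSet] at hw
      exact hw.2
    obtain ⟨σ, hσ⟩ := minpoly.exists_algEquiv_of_root' (K := K) (L := AlgebraicClosure ℚ)
      (halgK.isAlgebraic z) hw'
    have h1 := h (σ : AlgebraicClosure ℚ ≃+* AlgebraicClosure ℚ) (fun s hs => by
      have hsK : s ∈ K := IntermediateField.subset_adjoin ℚ _ (by simpa using hs)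
      exact σ.commutes ⟨s, hsK⟩)
    have h3 : σ z = z ∨ σ z = z' := h1
    rw [hσ] at h3
    simpa using h3
  have hsep : (minpoly K z).Separable := (minpoly.irreducible hzK).separable
  have hcard : (minpoly K z).natDegree ≤ 2 := by
    have h1 := Polynomial.card_rootSet_eq_natDegree (K := AlgebraicClosure ℚ) hsep
      (IsAlgClosed.splits _)
    have h2 : Fintype.card ((minpoly K z).rootSet (AlgebraicClosure ℚ)) ≤ 2 := by
      rw [← Set.toFinset_card]
      refine le_trans (Finset.card_le_card (t := {z, z'}) ?_) Finset.card_le_two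
      intro w hw
      have := hroots (by simpa using hw)
      simpa using this
    omega
  -- the degree over ℚ
  let M : IntermediateField K (AlgebraicClosure ℚ) := IntermediateField.adjoin K {z}
  have hM : Module.finrank K M ≤ 2 := by
    have : Module.finrank K M = (minpoly K z).natDegree := IntermediateField.adjoin.finrank hzK
    omega
  have hMfin : FiniteDimensional K M := IntermediateField.adjoin.finiteDimensional hzK
  have hMQ : FiniteDimensional ℚ M := FiniteDimensional.trans ℚ K M
  have htot : Module.finrank ℚ M ≤ Module.finrank ℚ K * 2 := by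
    rw [← Module.finrank_mul_finrank ℚ K M]
    exact Nat.mul_le_mul_left _ hM
  have hzM : z ∈ M := IntermediateField.mem_adjoin_simple_self K z
  have hmin : minpoly ℚ (⟨z, hzM⟩ : M) = minpoly ℚ z := by
    exact minpoly.algebraMap_eq (B := M) (B' := AlgebraicClosure ℚ)
      (algebraMap M (AlgebraicClosure ℚ)).injective ⟨z, hzM⟩ |>.symm
  rw [← hmin]
  exact le_trans (minpoly.natDegree_le _) htot

end Pool.Agent.GTwo
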