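import Pool.Agent.GTwo.Defs2

/-!
# Valuation rings of the algebraic numbers
-/

set_option autoImplicit false

noncomputable section

namespace Pool.Agent.GTwo

open Polynomial
open scoped Classical

theorem exists_valuation (S : Finset (AlgebraicClosure ℚ)) (m : ℕ) :
    ∃ (l : ℕ) (O : ValuationSubring (AlgebraicClosure ℚ)), l.Prime ∧ m < l ∧ (∀ s ∈ S, s ∈ O) ∧
      (l : IsLocalRing.ResidueField O) = 0 := by
  have hd : ∀ s : AlgebraicClosure ℚ, ∃ d : ℤ, d ≠ 0 ∧ IsIntegral ℤ ((d : AlgebraicClosure ℚ) * s) := by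
    intro s
    have h1 : IsAlgebraic ℤ s :=
      (IsFractionRing.isAlgebraic_iff ℤ ℚ (AlgebraicClosure ℚ)).mpr
        (by
          convert (AlgebraicClosure.isAlgebraic ℚ).isAlgebraic s
          · rfl
          · exact Subsingleton.elim _ _)
    obtain ⟨y, hy, hy2⟩ := h1.exists_integral_multiple
    refine ⟨y, hy, ?_⟩
    rwa [zsmul_eq_mul] at hy2
  choose d hd0 hd1 using hd
  obtain ⟨l, hle, hl⟩ := Nat.exists_infinite_primes (m + 1 + ∑ s ∈ S, (d s).natAbs)
  -- the subring of the integers
  let R : Subring (AlgebraicClosure ℚ) := (Int.castRingHom (AlgebraicClosure ℚ)).range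
  let lR : R := ⟨(l : AlgebraicClosure ℚ), ⟨(l : ℤ), by simp⟩⟩
  have hI : Ideal.span {lR} ≠ ⊤ := by
    intro h
    rw [Ideal.span_singleton_eq_top, isUnit_iff_exists_inv] at h
    obtain ⟨⟨b, n, hn⟩, hb⟩ := h
    have hb' := congrArg Subtype.val hb
    simp only [lR, Subring.coe_mul, Subring.coe_one] at hb'
    rw [← hn] at hb'
    simp only [eq_intCast] at hb'
    have h2 : (l : ℤ) * n = 1 := by exact_mod_cast hb'
    have h3 : (l : ℤ) ∣ 1 := ⟨n, h2.symm⟩
    have h4 : l ∣ 1 := by exact_mod_cast h3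
    exact hl.one_lt.ne' (Nat.dvd_one.mp h4)
  obtain ⟨O, hRO, hO⟩ := Ideal.image_subset_nonunits_valuationSubring (A := R) _ hI
  have hlO : (l : AlgebraicClosure ℚ) ∈ O.nonunits :=
    hO ⟨lR, Ideal.subset_span rfl, rfl⟩
  have hint : ∀ x : AlgebraicClosure ℚ, IsIntegral ℤ x → x ∈ O := by
    intro x hx
    have h1 : IsIntegral O x := hx.tower_top
    have h2 := (IsIntegrallyClosed.isIntegral_iff (R := O) (K := AlgebraicClosure ℚ)).mp h1
    obtain ⟨y, hy⟩ := h2
    rw [← hy]
    exact y.2
  refine ⟨l, O, hl, by omega, ?_, ?_⟩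
  · intro s hs
    -- the integer d s is a unit of O
    have h1 : (d s).natAbs < l := by
      have h2 := Finset.single_le_sum (f := fun s => (d s).natAbs) (fun _ _ => Nat.zero_le _) hs
      have h2' : (d s).natAbs ≤ ∑ s ∈ S, (d s).natAbs := h2
      omega
    have h3 : IsCoprime (l : ℤ) (d s) := by
      rw [Int.isCoprime_iff_nat_coprime, Int.natAbs_natCast]
      refine (Nat.Prime.coprime_iff_not_dvd hl).mpr ?_
      intro h4
      have h5 := Nat.le_of_dvd (Nat.pos_of_ne_zero (by simpa using hd0 s)) h4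
      omega
    obtain ⟨u, v, huv⟩ := h3
    have hdu : (d s : AlgebraicClosure ℚ)⁻¹ ∈ O := by
      by_contra hcon
      have h6 : (d s : AlgebraicClosure ℚ) ∈ O.nonunits :=
        (ValuationSubring.mem_nonunits_iff_or O).mpr (Or.inr hcon)
      have h7 : (1 : AlgebraicClosure ℚ) ∈ O.nonunits := by
        have h8 : ((u : AlgebraicClosure ℚ) * (l : AlgebraicClosure ℚ) + (v : AlgebraicClosure ℚ) *
            (d s : AlgebraicClosure ℚ)) = 1 := by exact_mod_cast huv
        rw [← h8, ValuationSubring.mem_nonunits_iff]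
        rw [ValuationSubring.mem_nonunits_iff] at h6 hlO
        refine Valuation.map_add_lt _ ?_ ?_
        · rw [map_mul]
          exact mul_lt_one_of_nonneg_of_lt_one_right
            ((ValuationSubring.valuation_le_one_iff _ _).mpr (intCast_mem O u)) zero_le hlO
        · rw [map_mul]
          exact mul_lt_one_of_nonneg_of_lt_one_right
            ((ValuationSubring.valuation_le_one_iff _ _).mpr (intCast_mem O v)) zero_le h6
      rw [ValuationSubring.mem_nonunits_iff, map_one] at h7
      exact lt_irrefl _ h7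
    have h9 : s = (d s : AlgebraicClosure ℚ)⁻¹ * ((d s : AlgebraicClosure ℚ) * s) := by
      rw [← mul_assoc, inv_mul_cancel₀ (by exact_mod_cast hd0 s), one_mul]
    rw [h9]
    exact O.mul_mem _ _ hdu (hint _ (hd1 s))
  · have h1 : ((l : O) : AlgebraicClosure ℚ) ∈ O.nonunits := by
      simpa using hlO
    rw [ValuationSubring.coe_mem_nonunits_iff] at h1
    rw [← map_natCast (IsLocalRing.residue O), IsLocalRing.residue_eq_zero_iff]
    exact h1

end Pool.Agent.GTwo
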