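import Pool.Agent.GTwo.Kernel
import Pool.Agent.GTwo.Valu
import Pool.Agent.GTwo.Bdd

/-!
# Places of good reduction
-/

set_option autoImplicit false

noncomputable section

namespace Pool.Agent.GTwo

open Polynomial
open scoped Classical

private lemma place_lift {k : Type} [Field k] (O : ValuationSubring k) (p : k[X])
    (h : ∀ i, p.coeff i ∈ O) : ∃ p₀ : O[X], p₀.map (algebraMap O k) = p := by
  have : p ∈ lifts (algebraMap O k) := by
    rw [lifts_iff_coeff_lifts]
    intro n
    exact ⟨⟨_, h n⟩, rfl⟩
  exact (mem_lifts _).1 this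

private def placeEmb {κ : Type} [Field κ] {g : κ[X]} : Pt g → Option (κ × κ)
  | .inf => none
  | .aff x y _ => some (x, y)

private lemma placeEmb_injective {κ : Type} [Field κ] {g : κ[X]} :
    Function.Injective (placeEmb : Pt g → Option (κ × κ)) := by
  intro P Q h
  cases P with
  | inf =>
    cases Q with
    | inf => rfl
    | aff x y e => simp [placeEmb] at h
  | aff x y e =>
    cases Q with
    | inf => simp [placeEmb] at h
    | aff x' y' e' =>
      simp only [placeEmb, Option.some.injEq, Prod.mk.injEq] at h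
      obtain ⟨rfl, rfl⟩ := h
      rfl

theorem exists_place {f : (AlgebraicClosure ℚ)[X]} (hf : Hyp f) (m : ℕ) :
    ∃ l : ℕ, l.Prime ∧ m < l ∧ HasPlace f l := by
  obtain ⟨u, v, huv⟩ := hf.sep
  let cs : (AlgebraicClosure ℚ)[X] → Finset (AlgebraicClosure ℚ) :=
    fun p => p.support.image p.coeff
  obtain ⟨l, O, hl, hml, hS, hlO⟩ := exists_valuation (cs f ∪ (cs u ∪ cs v)) (max m 2)
  have hcs : ∀ p : (AlgebraicClosure ℚ)[X], (∀ s ∈ cs p, s ∈ O) → ∀ i, p.coeff i ∈ O := by
    intro p hp i
    by_cases hi : p.coeff i = 0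
    · rw [hi]
      exact O.zero_mem
    · exact hp _ (Finset.mem_image_of_mem _ (mem_support_iff.2 hi))
  have hinj : Function.Injective (algebraMap O (AlgebraicClosure ℚ)) :=
    FaithfulSMul.algebraMap_injective _ _
  obtain ⟨f₀, rfl⟩ := place_lift O f (hcs f fun s hs => hS s (Finset.mem_union_left _ hs))
  obtain ⟨u₀, rfl⟩ := place_lift O u (hcs u fun s hs => hS s
    (Finset.mem_union_right _ (Finset.mem_union_left _ hs)))
  obtain ⟨v₀, rfl⟩ := place_lift O v (hcs v fun s hs => hS s
    (Finset.mem_union_right _ (Finset.mem_union_right _ hs)))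
  have hchar : ∀ n : ℕ, ¬ l ∣ n → (n : IsLocalRing.ResidueField O) ≠ 0 := by
    intro n hn h0
    have hc : CharP (IsLocalRing.ResidueField O) l := by
      have h1 := ringChar.dvd hlO
      rcases (Nat.dvd_prime hl).1 h1 with h2 | h2
      · exfalso
        have : (1 : IsLocalRing.ResidueField O) = 0 := by
          have := (ringChar.spec (IsLocalRing.ResidueField O) 1).2 (by rw [h2])
          simpa using this
        exact one_ne_zero this
      · rw [← h2]
        exact ringChar.charP _
    exact hn ((CharP.cast_eq_zero_iff _ l n).1 h0)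
  have hf₀ : Hyp f₀ := by
    refine ⟨?_, ?_, ?_, ?_⟩
    · exact monic_of_injective hinj hf.monic
    · rw [← hf.deg, natDegree_map_eq_of_injective hinj]
    · refine ⟨u₀, v₀, map_injective _ hinj ?_⟩
      rw [derivative_map] at huv
      rw [Polynomial.map_add, Polynomial.map_mul, Polynomial.map_mul, Polynomial.map_one]
      exact huv
    · have h2 : IsLocalRing.residue O (2 : O) ≠ 0 := by
        have := hchar 2 (fun h => by
          have h3 := Nat.le_of_dvd (by norm_num) h
          have h4 : 2 < l := lt_of_le_of_lt (le_max_right _ _) hml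
          omega)
        rw [map_ofNat]
        exact_mod_cast this
      exact (IsLocalRing.residue_ne_zero_iff_isUnit _).1 h2
  obtain ⟨Sp, hSp⟩ := exists_specHom O hf₀
  refine ⟨l, hl, lt_of_le_of_lt (le_max_left _ _) hml, IsLocalRing.ResidueField O, inferInstance,
    f₀.map (IsLocalRing.residue O), sp O, Sp, hf₀.map _, hSp, ?_, ?_⟩
  · intro n hn c hc hnc
    exact ker_torsion O hf₀ Sp hSp (hchar n hn) hc hnc
  · intro n
    have hZ := finite_residue hl O hlO n
    set Z := {z : IsLocalRing.ResidueField O | ∃ x : O, IsLocalRing.residue O x = z ∧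
      (minpoly ℚ (x : AlgebraicClosure ℚ)).natDegree ≤ n} with hZdef
    have hT : (insert none (some '' (Z ×ˢ Z))).Finite := ((hZ.prod hZ).image _).insert _
    refine (hT.preimage placeEmb_injective.injOn).subset ?_
    rintro Q ⟨P, hP, rfl⟩
    rw [Set.mem_preimage]
    by_cases h : ∃ P₀ : Pt f₀, P₀.map (algebraMap O (AlgebraicClosure ℚ)) = P
    · obtain ⟨P₀, rfl⟩ := h
      rw [sp_map]
      cases P₀ with
      | inf => exact Or.inl rfl
      | aff x y e =>
        right
        exact ⟨(IsLocalRing.residue O x, IsLocalRing.residue O y), ⟨⟨x, rfl, hP.1⟩, ⟨y, rfl, hP.2⟩⟩,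
          rfl⟩
    · rw [sp_of_forall_ne O fun P₀ h' => h ⟨P₀, h'⟩]
      exact Or.inl rfl

end Pool.Agent.GTwo
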