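import Pool.Agent.GTwo.Unique
import Pool.Agent.GTwo.Place
import Pool.Agent.GTwo.Orb

/-!
# Points of infinite order
-/

set_option autoImplicit false

noncomputable section

namespace Pool.Agent.GTwo

open Polynomial
open scoped Classical

private theorem inf_ker_two {f : (AlgebraicClosure ℚ)[X]} {l : Bool → ℕ} (hl : ∀ i, (l i).Prime)
    (hne : l true ≠ l false) {G : Bool → Type} [∀ i, AddCommGroup (G i)]
    (Sp : ∀ i, J f →+ G i)
    (hS : ∀ i (n : ℕ), ¬ l i ∣ n → ∀ c, Sp i c = 0 → n • c = 0 → c = 0) (c : J f)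
    (hc : ∀ i, Sp i c = 0) (hn : ∃ n : ℕ, 0 < n ∧ n • c = 0) : c = 0 := by
  obtain ⟨n, hn0, hn⟩ := hn
  induction n using Nat.strong_induction_on generalizing c with
  | _ n ih =>
    by_cases h1 : n = 1
    · rw [h1, one_smul] at hn
      exact hn
    · obtain ⟨q, hq, m, rfl⟩ := Nat.exists_prime_and_dvd h1
      have hm0 : 0 < m := by
        rcases Nat.eq_zero_or_pos m with h' | h'
        · simp [h'] at hn0
        · exact h'
      have hc' : m • c = 0 := by
        have hex : ∃ i, l i ≠ q := by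
          by_contra hcon
          push Not at hcon
          exact hne ((hcon true).trans (hcon false).symm)
        obtain ⟨i, hi⟩ := hex
        refine hS i q ?_ (m • c) (by rw [map_nsmul, hc i, smul_zero]) (by rw [← mul_smul]; exact hn)
        intro hd
        exact hi ((Nat.prime_dvd_prime_iff_eq (hl i) hq).1 hd)
      exact ih m (by have := hq.two_le; nlinarith) c hc hm0 hc'

private theorem inf_sub_aux {G : Type} [AddCommGroup G] {x y : G} {a b : ℕ} (ha : a • x = 0)
    (hb : b • y = 0) : (a * b) • (x - y) = 0 := by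
  rw [nsmul_sub, mul_nsmul x a b, ha, mul_comm a b, mul_nsmul y b a, hb]
  simp

/-- there are points of infinite order -/
theorem exists_infinite_order {f : (AlgebraicClosure ℚ)[X]} (hf : Hyp f) :
    ∃ P : Pt f, ∀ n : ℕ, 0 < n → n • cl P ≠ 0 := by
  by_contra hcon
  push Not at hcon
  obtain ⟨l₁, hl₁, hl₁2, hp₁⟩ := exists_place hf 2
  obtain ⟨l₂, hl₂, hl₂1, hp₂⟩ := exists_place hf l₁
  let l : Bool → ℕ := fun i => bif i then l₁ else l₂
  have hp : ∀ i, HasPlace f (l i) := by
    rintro (_ | _)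
    · exact hp₂
    · exact hp₁
  have hl : ∀ i, (l i).Prime := by
    rintro (_ | _)
    · exact hl₂
    · exact hl₁
  have hlne : l true ≠ l false := fun h => absurd h hl₂1.ne
  choose κ hκ g s Sp hg hSs hS hfin using hp
  have hy : ∀ n : ℕ, ∃ y : AlgebraicClosure ℚ, y ^ 2 = f.eval (n : AlgebraicClosure ℚ) := fun n =>
    IsAlgClosed.exists_pow_nat_eq _ two_pos
  choose y hy using hy
  let P : ℕ → Pt f := fun n => .aff (n : AlgebraicClosure ℚ) (y n) (hy n)
  obtain ⟨D, hD⟩ := deg_le_of_orbit (f.support.image f.coeff)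
  have hσf : ∀ σ : AlgebraicClosure ℚ ≃+* AlgebraicClosure ℚ,
      (∀ x ∈ f.support.image f.coeff, σ x = x) →
      f.map (σ : AlgebraicClosure ℚ →+* AlgebraicClosure ℚ) = f := by
    intro σ hσ
    ext i
    rw [coeff_map]
    by_cases hi : i ∈ f.support
    · exact hσ _ (Finset.mem_image_of_mem _ hi)
    · rw [notMem_support_iff.1 hi]
      exact map_zero σ
  have hdeg : ∀ n, (P n).DegLE D := by
    intro n
    refine ⟨hD _ (n : AlgebraicClosure ℚ) fun σ hσ => Or.inl (map_natCast σ n),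
      hD _ (-(y n)) fun σ hσ => ?_⟩
    have h1 : (σ (y n)) ^ 2 = (y n) ^ 2 := by
      rw [← map_pow, hy n]
      have h2 := eval_map_apply (p := f) (σ : AlgebraicClosure ℚ →+* AlgebraicClosure ℚ)
        (n : AlgebraicClosure ℚ)
      rw [hσf σ hσ] at h2
      rw [map_natCast] at h2
      exact h2.symm
    rcases sq_eq_sq_iff_eq_or_eq_neg.mp h1 with h2 | h2
    · exact Or.inl h2
    · exact Or.inr h2
  -- pigeonhole
  have hprod := (hfin true D).prod (hfin false D)
  have h2 : ¬ Function.Injective fun n : ℕ =>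
      (⟨(s true (P n), s false (P n)), ⟨⟨_, hdeg n, rfl⟩, ⟨_, hdeg n, rfl⟩⟩⟩ :
        ↥((s true '' {P | P.DegLE D}) ×ˢ (s false '' {P | P.DegLE D}))) := by
    intro hinj
    have := hprod.to_subtype
    exact not_injective_infinite_finite _ hinj
  simp only [Function.Injective, not_forall] at h2
  obtain ⟨n, m, h3, h4⟩ := h2
  have h5 := congrArg Subtype.val h3
  have h6 : ∀ i, s i (P n) = s i (P m) := by
    rintro (_ | _)
    · exact congrArg Prod.snd h5
    · exact congrArg Prod.fst h5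
  have hc0 : cl (P n) - cl (P m) = 0 := by
    apply inf_ker_two hl hlne Sp hS
    · intro i
      rw [map_sub, hSs, hSs, h6 i, sub_self]
    · obtain ⟨a, ha, ha'⟩ := hcon (P n)
      obtain ⟨b, hb, hb'⟩ := hcon (P m)
      exact ⟨a * b, Nat.mul_pos ha hb, inf_sub_aux ha' hb'⟩
  have h7 : cl (P n) + cl (Pt.inf : Pt f) = cl (P m) + cl (Pt.inf : Pt f) := by
    rw [sub_eq_zero.mp hc0]
  rcases cl_add_eq hf h7 with ⟨h8, -⟩ | ⟨h8, -⟩ | ⟨h8, -⟩
  · exact h4 (by exact_mod_cast (Pt.aff.inj h8).1)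
  · cases h8
  · cases h8

end Pool.Agent.GTwo
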