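import Pool.Agent.GTwo.Defs2

/-!
# Independent sequences
-/

set_option autoImplicit false

noncomputable section

namespace Pool.Agent.GTwo

open Polynomial
open scoped Classical

theorem exists_seq {V : Type} [AddCommGroup V] {T : Type} (v : T → V) (p : T → Prop)
    (h : ∀ B : Finset V, ∃ x, p x ∧ ∀ m : ℤ, m ≠ 0 → m • v x ∉ AddSubgroup.closure (B : Set V)) :
    ∃ s : ℕ → T, (∀ i, p (s i)) ∧ LinearIndependent ℤ fun i => v (s i) := by
  choose g hp hg using h
  let F : ℕ → Finset V := fun n => Nat.rec ∅ (fun _ B => insert (v (g B)) B) n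
  have hF : ∀ n, F (n + 1) = insert (v (g (F n))) (F n) := fun n => rfl
  have hmono : ∀ i n, i < n → v (g (F i)) ∈ F n := by
    intro i n hin
    induction n with
    | zero => omega
    | succ n ih =>
      rw [hF]
      rcases Nat.lt_succ_iff_lt_or_eq.mp hin with h1 | h1
      · exact Finset.mem_insert_of_mem (ih h1)
      · rw [h1]; exact Finset.mem_insert_self _ _
  refine ⟨fun n => g (F n), fun i => hp _, ?_⟩
  rw [linearIndependent_iff']
  intro S a hsum
  by_contra hcon
  push Not at hcon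
  obtain ⟨j, hj, haj⟩ := hcon
  let S' := S.filter fun i => a i ≠ 0
  have hS' : S'.Nonempty := ⟨j, Finset.mem_filter.mpr ⟨hj, haj⟩⟩
  let n := S'.max' hS'
  have hn : n ∈ S' := S'.max'_mem hS'
  have hnS : n ∈ S := (Finset.mem_filter.mp hn).1
  have han : a n ≠ 0 := (Finset.mem_filter.mp hn).2
  apply hg (F n) (a n) han
  rw [← Finset.add_sum_erase S _ hnS] at hsum
  have hx : a n • v (g (F n)) = - ∑ i ∈ S.erase n, a i • v (g (F i)) :=
    eq_neg_of_add_eq_zero_left hsum
  rw [hx]
  apply AddSubgroup.neg_mem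
  apply AddSubgroup.sum_mem
  intro i hi
  rw [Finset.mem_erase] at hi
  by_cases hai : a i = 0
  · rw [hai, zero_smul]; exact AddSubgroup.zero_mem _
  · have hle : i ≤ n := S'.le_max' i (Finset.mem_filter.mpr ⟨hi.2, hai⟩)
    apply AddSubgroup.zsmul_mem
    exact AddSubgroup.subset_closure (hmono i n (lt_of_le_of_ne hle hi.1))

end Pool.Agent.GTwo
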