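import Pool.Agent.GTwo.Rank
import Pool.Agent.GTwo.Infinite
import Pool.Agent.GTwo.Seq
import Pool.Agent.GTwo.Cycle

/-!
# The main theorem
-/

set_option autoImplicit false

noncomputable section

namespace Pool.Agent.GTwo

open Polynomial
open scoped Classical

/-- The homomorphism from the Picard group to the group `J` in which the point at infinity is
zero. -/
private def toJ {k : Type} [Field k] (f : k[X]) : Pic f →+ J f :=
  QuotientAddGroup.lift (LinEq f) (QuotientAddGroup.mk' _) fun _ hD => jmk_eq_zero hD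

private theorem deg_single {k : Type} [Field k] {f : k[X]} (P : Pt f) (n : ℤ) :
    deg (Finsupp.single P n) = n := by
  simp [deg]

/-- The differences of two points which we look for. -/
private structure Good {f : (AlgebraicClosure ℚ)[X]} (a : Pt f →₀ ℤ) (p : Pt f × Pt f) : Prop where
  ex : ∃ (N M : ℕ) (T : J f), 0 < N ∧ 0 < M ∧ M • T = 0 ∧ N • jmk a + T = cl p.1 + cl p.2

private theorem main_aux {f : (AlgebraicClosure ℚ)[X]} (hf : Hyp f) (a : Pt f →₀ ℤ)
    (ha : deg a = 0) (hi : ∀ n : ℕ, 0 < n → n • jmk a ≠ 0) :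
    ∃ b : ℕ → (Pt f →₀ ℤ), (∀ i, deg (b i) = 0) ∧
      LinearIndependent ℤ (fun i => (QuotientAddGroup.mk (b i) : Pic f)) ∧
      ∀ i, ∃ N m : ℕ, 0 < N ∧ 0 < m ∧ (m : ℤ) • (cross a (b i) + cross (b i) a) ∈ RatEq f ∧
        (m : ℤ) • (cross (b i) (b i) + (N ^ 2 : ℤ) • cross a a) ∈ RatEq f := by
  obtain ⟨s, hs, hli⟩ := exists_seq (fun p : Pt f × Pt f => cl p.1 - cl p.2) (Good a) (by
    intro B
    obtain ⟨N, M, T, P, Q, hN, hM, hT, hPQ, hB⟩ := exists_new hf (jmk a) hi B
    exact ⟨(P, Q), ⟨⟨N, M, T, hN, hM, hT, hPQ⟩⟩, hB⟩)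
  refine ⟨fun i => Finsupp.single (s i).1 1 - Finsupp.single (s i).2 1, fun i => ?_, ?_,
    fun i => ?_⟩
  · rw [map_sub, deg_single, deg_single, sub_self]
  · refine LinearIndependent.of_comp (toJ f).toIntLinearMap ?_
    exact hli
  · obtain ⟨N, M, T, hN, hM, hT, hPQ⟩ := (hs i).ex
    obtain ⟨h1, h2⟩ := cycle_main hf ha hT hPQ
    refine ⟨N, N * M ^ 2, hN, by positivity, ?_, ?_⟩
    · have e : ((N * M ^ 2 : ℕ) : ℤ) = M * (N * M : ℤ) := by push_cast; ring
      rw [e, mul_smul]
      exact (RatEq f).zsmul_mem h1 _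
    · have e : ((N * M ^ 2 : ℕ) : ℤ) = N * (M ^ 2 : ℤ) := by push_cast; ring
      rw [e, mul_smul]
      exact (RatEq f).zsmul_mem h2 _

/-- For every genus two curve over `ℚ̄` and every divisor `a` of degree zero there are infinitely
many independent divisors `b` of degree zero such that `a × b + b × a` and `b × b + N² (a × a)` are
torsion in the Chow group of zero-cycles of the square of the curve. -/
theorem main {f : (AlgebraicClosure ℚ)[X]} (hf : Hyp f) (a : Pt f →₀ ℤ) (ha : deg a = 0) :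
    ∃ b : ℕ → (Pt f →₀ ℤ), (∀ i, deg (b i) = 0) ∧
      LinearIndependent ℤ (fun i => (QuotientAddGroup.mk (b i) : Pic f)) ∧
      ∀ i, ∃ N m : ℕ, 0 < N ∧ 0 < m ∧ (m : ℤ) • (cross a (b i) + cross (b i) a) ∈ RatEq f ∧
        (m : ℤ) • (cross (b i) (b i) + (N ^ 2 : ℤ) • cross a a) ∈ RatEq f := by
  by_cases hi : ∀ n : ℕ, 0 < n → n • jmk a ≠ 0
  · exact main_aux hf a ha hi
  · push Not at hi
    obtain ⟨M, hM, hMa⟩ := hi
    have hLin : (M : ℤ) • a ∈ LinEq f := by
      refine mem_linEq ?_ (by rw [map_zsmul, ha, smul_zero])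
      have : jmk ((M : ℤ) • a) = (M : ℤ) • jmk a := rfl
      rw [this, natCast_zsmul]
      exact hMa
    obtain ⟨P, hP⟩ := exists_infinite_order hf
    set a' : Pt f →₀ ℤ := Finsupp.single P 1 - Finsupp.single .inf 1 with ha'
    have hda' : deg a' = 0 := by rw [ha', map_sub, deg_single, deg_single, sub_self]
    have hja' : jmk a' = cl P := by
      have : jmk a' = cl P - cl (.inf : Pt f) := rfl
      rw [this, cl_inf, sub_zero]
    obtain ⟨b, hb1, hb2, hb3⟩ := main_aux hf a' hda' (by rw [hja']; exact hP)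
    refine ⟨b, hb1, hb2, fun i => ?_⟩
    obtain ⟨N, m, hN, hm, -, h2⟩ := hb3 i
    have h3 := two_cross_self hf P
    rw [← ha'] at h3
    have h4 : (M : ℤ) • cross a (b i) ∈ RatEq f := by
      rw [← cross_smul_left]
      exact cross_mem_left hf hLin _
    have h5 : (M : ℤ) • cross (b i) a ∈ RatEq f := by
      rw [← cross_smul_right]
      exact cross_mem_right hf hLin _
    have h6 : (M : ℤ) • cross a a ∈ RatEq f := by
      rw [← cross_smul_left]
      exact cross_mem_left hf hLin _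
    have h7 : (2 * m : ℤ) • cross (b i) (b i) ∈ RatEq f := by
      have e : (2 * m : ℤ) • cross (b i) (b i) =
          (2 : ℤ) • ((m : ℤ) • (cross (b i) (b i) + (N ^ 2 : ℤ) • cross a' a')) -
            (m * N ^ 2 : ℤ) • ((2 : ℤ) • cross a' a') := by
        module
      rw [e]
      exact (RatEq f).sub_mem ((RatEq f).zsmul_mem h2 _) ((RatEq f).zsmul_mem h3 _)
    refine ⟨1, 2 * m * M, one_pos, by positivity, ?_, ?_⟩
    · have e : ((2 * m * M : ℕ) : ℤ) • (cross a (b i) + cross (b i) a) =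
          (2 * m : ℤ) • ((M : ℤ) • cross a (b i) + (M : ℤ) • cross (b i) a) := by
        push_cast
        module
      rw [e]
      exact (RatEq f).zsmul_mem ((RatEq f).add_mem h4 h5) _
    · have e : ((2 * m * M : ℕ) : ℤ) • (cross (b i) (b i) + (((1 : ℕ) : ℤ) ^ 2) • cross a a) =
          (M : ℤ) • ((2 * m : ℤ) • cross (b i) (b i)) + (2 * m : ℤ) • ((M : ℤ) • cross a a) := by
        push_cast
        module
      rw [e]
      exact (RatEq f).add_mem ((RatEq f).zsmul_mem h7 _) ((RatEq f).zsmul_mem h6 _)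

end Pool.Agent.GTwo
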