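import Pool.Agent.GTwo.Field

/-!
# Mumford representation
-/

set_option autoImplicit false

noncomputable section

namespace Pool.Agent.GTwo

open Polynomial
open scoped Classical

variable {k : Type} [Field k] {f : k[X]}

private theorem mumford_rl_mul (a b : k[X]) : (rl (a * b) : Rg f) = rl a * rl b :=
  map_mul _ _ _

private theorem mumford_rl_eq (a : k[X]) : (rl a : Rg f) = ⟨a, 0⟩ := rfl

private theorem mumford_coprime {x : k} {g : k[X]} (hg : g.eval x ≠ 0) :
    IsCoprime (X - C x) g := by
  obtain ⟨q, hq⟩ := Polynomial.X_sub_C_dvd_sub_C_eval (a := x) (p := g)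
  refine ⟨-(C (g.eval x)⁻¹ * q), C (g.eval x)⁻¹, ?_⟩
  have h1 : C (g.eval x)⁻¹ * C (g.eval x) = (1 : k[X]) := by
    rw [← C_mul, inv_mul_cancel₀ hg, C_1]
  linear_combination C (g.eval x)⁻¹ * hq + h1

private theorem mumford_aff (V : k[X]) (x : k) (h : (V.eval x) ^ 2 = f.eval x) :
    (Pt.aff x (V.eval x) h : Pt f).ideal = Ideal.span {rl (X - C x), ⟨-V, 1⟩} := by
  obtain ⟨q, hq⟩ := Polynomial.X_sub_C_dvd_sub_C_eval (a := x) (p := V)
  have e0 : (⟨X - C x, 0⟩ : Rg f) = rl (X - C x) := rfl
  have e1 : (⟨-C (V.eval x), 1⟩ : Rg f) = ⟨-V, 1⟩ + rl q * rl (X - C x) := by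
    rw [← map_mul]
    ext1
    · simp only [QuadraticAlgebra.re_add, rl, QuadraticAlgebra.algebraMap_re]
      linear_combination hq
    · simp [rl]
  have e2 : (⟨-V, 1⟩ : Rg f) = ⟨-C (V.eval x), 1⟩ - rl q * rl (X - C x) := by
    rw [e1]; ring
  apply le_antisymm
  · rw [Pt.ideal, Ideal.span_le]
    intro z hz
    rcases hz with rfl | rfl
    · exact Ideal.subset_span (Or.inl e0)
    · show (⟨-C (V.eval x), 1⟩ : Rg f) ∈ _
      rw [e1]
      exact Ideal.add_mem _ (Ideal.subset_span (Or.inr rfl))
        (Ideal.mul_mem_left _ _ (Ideal.subset_span (Or.inl rfl)))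
  · rw [Pt.ideal, Ideal.span_le]
    intro z hz
    rcases hz with rfl | rfl
    · exact Ideal.subset_span (Or.inl rfl)
    · show (⟨-V, 1⟩ : Rg f) ∈ _
      rw [e2]
      exact Ideal.sub_mem _ (Ideal.subset_span (Or.inr rfl))
        (Ideal.mul_mem_left _ _ (Ideal.subset_span (Or.inl rfl)))

private theorem mumford_sq (V : k[X]) :
    (⟨-V, 1⟩ : Rg f) * ⟨-V, 1⟩ = rl (f - V ^ 2) - rl (2 * V) * ⟨-V, 1⟩ := by
  rw [mumford_rl_eq, mumford_rl_eq]
  ext1
  · simp; ring
  · simp; ring

/-- Mumford's representation -/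
theorem mumford (hf : Hyp f) (V : k[X]) (s : Multiset (Pt f))
    (hs : ∀ P ∈ s, ∃ x h, P = .aff x (V.eval x) h) (hd : lins s ∣ V ^ 2 - f) :
    idl s = Ideal.span {rl (lins s), ⟨-V, 1⟩} := by
  induction s using Multiset.induction with
  | empty =>
    rw [idl_zero, eq_comm, Ideal.eq_top_iff_one]
    apply Ideal.subset_span
    left
    simp [lins]
  | cons P s ih =>
    obtain ⟨x, h, rfl⟩ := hs P (Multiset.mem_cons_self _ _)
    have hl : lins (Pt.aff x (V.eval x) h ::ₘ s) = (X - C x) * lins s := by
      simp [lins, Pt.lin]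
    have hd' : lins s ∣ V ^ 2 - f := by
      refine Dvd.dvd.trans ?_ hd
      rw [hl]
      exact dvd_mul_left _ _
    have ih' := ih (fun Q hQ => hs Q (Multiset.mem_cons_of_mem hQ)) hd'
    rw [idl_cons, ih', mumford_aff, hl, Ideal.span_pair_mul_span_pair]
    set a : k[X] := X - C x with ha
    set A : k[X] := lins s with hA
    rw [hl] at hd
    obtain ⟨B, hB⟩ := hd
    set v : Rg f := ⟨-V, 1⟩ with hv
    have hvv : v * v = rl (f - V ^ 2) - rl (2 * V) * v := mumford_sq V
    have h2 : (2 : k) ≠ 0 := hf.two.ne_zero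
    -- the products
    have m1 : rl a * rl A ∈ Ideal.span {rl a * rl A, rl a * v, v * rl A, v * v} :=
      Ideal.subset_span (by simp)
    have m2 : rl a * v ∈ Ideal.span {rl a * rl A, rl a * v, v * rl A, v * v} :=
      Ideal.subset_span (by simp)
    have m3 : v * rl A ∈ Ideal.span {rl a * rl A, rl a * v, v * rl A, v * v} :=
      Ideal.subset_span (by simp)
    have m4 : v * v ∈ Ideal.span {rl a * rl A, rl a * v, v * rl A, v * v} :=
      Ideal.subset_span (by simp)
    apply le_antisymm
    · rw [Ideal.span_le]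
      intro z hz
      have i1 : rl (a * A) ∈ Ideal.span ({rl (a * A), v} : Set (Rg f)) :=
        Ideal.subset_span (Or.inl rfl)
      have i2 : v ∈ Ideal.span ({rl (a * A), v} : Set (Rg f)) :=
        Ideal.subset_span (Or.inr rfl)
      rcases hz with rfl | rfl | rfl | rfl
      · rw [← map_mul]; exact i1
      · exact Ideal.mul_mem_left _ _ i2
      · exact Ideal.mul_mem_right _ _ i2
      · exact Ideal.mul_mem_left _ _ i2
    · rw [Ideal.span_le]
      intro z hz
      rcases hz with rfl | rfl
      · show rl (a * A) ∈ _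
        rw [mumford_rl_mul]; exact m1
      · show v ∈ Ideal.span {rl a * rl A, rl a * v, v * rl A, v * v}
        generalize Ideal.span {rl a * rl A, rl a * v, v * rl A, v * v} = I at m1 m2 m3 m4 ⊢
        by_cases hAx : A.eval x = 0
        · have hVx : V.eval x ≠ 0 := by
            intro hVx
            have d1 : a ∣ A := dvd_iff_isRoot.mpr hAx
            have d2 : a ∣ V := dvd_iff_isRoot.mpr hVx
            have d3 : a * a ∣ f := by
              have h3 : a * a ∣ V ^ 2 - f := by
                rw [hB]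
                exact Dvd.dvd.mul_right (mul_dvd_mul_left a d1) B
              have h4 : a * a ∣ V ^ 2 := by
                rw [pow_two]; exact mul_dvd_mul d2 d2
              have h5 := dvd_sub h4 h3
              rwa [sub_sub_cancel] at h5
            exact not_isUnit_X_sub_C x (hf.sep.squarefree a d3)
          have hVx2 : (2 * V).eval x ≠ 0 := by
            rw [eval_mul]
            refine mul_ne_zero ?_ hVx
            simpa using h2
          obtain ⟨p, q, hpq⟩ := mumford_coprime hVx2
          -- v = p a v + q (2 V) v, 2 V v = rl (f - V^2) - v v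
          have e : v = rl p * (rl a * v) + rl q * (rl (f - V ^ 2) - v * v) := by
            rw [hvv]
            have : (1 : Rg f) = rl p * rl a + rl q * rl (2 * V) := by
              rw [← map_mul, ← map_mul, ← map_add, hpq, map_one]
            linear_combination v * this
          rw [e]
          refine Ideal.add_mem _ (Ideal.mul_mem_left _ _ m2) (Ideal.mul_mem_left _ _
            (Ideal.sub_mem _ ?_ m4))
          have : f - V ^ 2 = (-B) * (a * A) := by linear_combination (-1 : k[X]) * hB
          rw [this, mumford_rl_mul, mumford_rl_mul]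
          exact Ideal.mul_mem_left _ _ m1
        · obtain ⟨p, q, hpq⟩ := mumford_coprime hAx
          have e : v = rl p * (rl a * v) + rl q * (v * rl A) := by
            have : (1 : Rg f) = rl p * rl a + rl q * rl A := by
              rw [← map_mul, ← map_mul, ← map_add, hpq, map_one]
            linear_combination v * this
          rw [e]
          exact Ideal.add_mem _ (Ideal.mul_mem_left _ _ m2) (Ideal.mul_mem_left _ _ m3)

theorem mumford_prin (hf : Hyp f) (V : k[X]) (s : Multiset (Pt f))
    (hs : ∀ P ∈ s, ∃ x h, P = .aff x (V.eval x) h) {c : k} (hc : c ≠ 0)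
    (hd : V ^ 2 - f = C c * lins s) : Prin s := by
  refine ⟨⟨-V, 1⟩, ?_⟩
  change _ = idl s
  rw [mumford hf V s hs ⟨C c, by rw [hd, mul_comm]⟩]
  apply le_antisymm
  · exact Ideal.span_mono (by simp)
  · rw [Ideal.span_le]
    intro z hz
    rcases hz with rfl | rfl
    · show rl (lins s) ∈ Ideal.span {(⟨-V, 1⟩ : Rg f)}
      rw [Ideal.mem_span_singleton]
      refine ⟨⟨V, 1⟩ * rl (-C c⁻¹), ?_⟩
      have h1 : (⟨-V, 1⟩ : Rg f) * ⟨V, 1⟩ = rl (-(C c * lins s)) := by
        rw [← hd, mumford_rl_eq]
        ext1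
        · simp; ring
        · simp
      rw [← mul_assoc, h1, ← map_mul]
      congr 1
      have h2 : C c * C c⁻¹ = (1 : k[X]) := by rw [← C_mul, mul_inv_cancel₀ hc, C_1]
      linear_combination (-lins s) * h2
    · exact Ideal.subset_span rfl

end Pool.Agent.GTwo
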