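import Pool.Agent.GTwo.Unique
import Pool.Agent.GTwo.Mumford

/-!
# Division by two
-/

set_option autoImplicit false

noncomputable section

namespace Pool.Agent.GTwo

open Polynomial
open scoped Classical

variable {k : Type} [Field k] {f : k[X]}

/-- `f` is a product of five linear factors -/
private theorem halve_split [IsAlgClosed k] (hf : Hyp f) : ∃ e1 e2 e3 e4 e5 : k,
    f = (X - C e1) * (X - C e2) * (X - C e3) * (X - C e4) * (X - C e5) := by
  have hs := IsAlgClosed.splits f
  have h1 : f = (f.roots.map fun a => X - C a).prod := by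
    have := hs.eq_prod_roots
    rw [hf.monic.leadingCoeff, C_1, one_mul] at this
    exact this
  have h2 : Multiset.card f.roots = 5 := by
    rw [← hs.natDegree_eq_card_roots, hf.deg]
  obtain ⟨e1, s1, hs1⟩ : ∃ e s, f.roots = e ::ₘ s :=
    Multiset.exists_cons_of_mem (Multiset.card_pos_iff_exists_mem.1 (by omega)).choose_spec |>.elim
      fun s h => ⟨_, s, h⟩
  have c1 : Multiset.card s1 = 4 := by
    have := congrArg Multiset.card hs1
    rw [Multiset.card_cons, h2] at this; omega
  obtain ⟨e2, s2, hs2⟩ : ∃ e s, s1 = e ::ₘ s :=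
    Multiset.exists_cons_of_mem (Multiset.card_pos_iff_exists_mem.1 (by omega)).choose_spec |>.elim
      fun s h => ⟨_, s, h⟩
  have c2 : Multiset.card s2 = 3 := by
    have := congrArg Multiset.card hs2
    rw [Multiset.card_cons, c1] at this; omega
  obtain ⟨e3, s3, hs3⟩ : ∃ e s, s2 = e ::ₘ s :=
    Multiset.exists_cons_of_mem (Multiset.card_pos_iff_exists_mem.1 (by omega)).choose_spec |>.elim
      fun s h => ⟨_, s, h⟩
  have c3 : Multiset.card s3 = 2 := by
    have := congrArg Multiset.card hs3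
    rw [Multiset.card_cons, c2] at this; omega
  obtain ⟨e4, e5, hs4⟩ := Multiset.card_eq_two.1 c3
  refine ⟨e1, e2, e3, e4, e5, ?_⟩
  rw [h1, hs1, hs2, hs3, hs4]
  simp only [Multiset.insert_eq_cons, Multiset.map_cons, Multiset.map_singleton,
    Multiset.prod_cons, Multiset.prod_singleton]
  ring

/-- a monic polynomial of degree two is a product of two linear factors -/
private theorem halve_split2 [IsAlgClosed k] (p q : k) (c : k) : ∃ u v : k,
    (C c - X) ^ 2 + C p * (C c - X) + C q = (X - C u) * (X - C v) := by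
  obtain ⟨w, hw⟩ := IsAlgClosed.exists_root (X ^ 2 + C p * X + C q : k[X]) (by
    have h1 : (X ^ 2 + C p * X + C q : k[X]) = C 1 * X ^ 2 + C p * X + C q := by rw [C_1, one_mul]
    rw [h1, degree_quadratic one_ne_zero]
    norm_num)
  have hw' : w ^ 2 + p * w + q = 0 := by
    have := hw.eq_zero
    simpa using this
  have h2 : (C w : k[X]) ^ 2 + C p * C w + C q = 0 := by
    rw [← C_pow, ← C_mul, ← C_add, ← C_add, hw', C_0]
  refine ⟨c - w, c + p + w, ?_⟩
  simp only [C_sub, C_add]
  linear_combination h2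

private theorem halve_point [IsAlgClosed k] (hf : Hyp f) (P : Pt f) : ∃ d : J f, d + d = cl P := by
  cases P with
  | inf => exact ⟨0, by rw [cl_inf, add_zero]⟩
  | aff a b hab =>
    obtain ⟨e1, e2, e3, e4, e5, hfe⟩ := halve_split hf
    have hsq : ∀ z : k, ∃ r : k, r ^ 2 = z := fun z => IsAlgClosed.exists_pow_nat_eq z (by norm_num)
    obtain ⟨s1, hs1⟩ := hsq (a - e1)
    obtain ⟨r2, h2⟩ := hsq (a - e2)
    obtain ⟨r3, h3⟩ := hsq (a - e3)
    obtain ⟨r4, h4⟩ := hsq (a - e4)
    obtain ⟨r5, h5⟩ := hsq (a - e5)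
    obtain ⟨r1, h1, hr⟩ : ∃ r1, r1 ^ 2 = a - e1 ∧ r1 * r2 * r3 * r4 * r5 = b := by
      have h : (s1 * r2 * r3 * r4 * r5) ^ 2 = b ^ 2 := by
        rw [hab, hfe]
        simp only [eval_mul, eval_sub, eval_X, eval_C]
        rw [← hs1, ← h2, ← h3, ← h4, ← h5]
        ring
      rcases sq_eq_sq_iff_eq_or_eq_neg.1 h with h | h
      · exact ⟨s1, hs1, h⟩
      · exact ⟨-s1, by rw [neg_sq, hs1], by linear_combination -h⟩
    set E1 := r1 + r2 + r3 + r4 + r5 with hE1
    set E2 := r1 * r2 + r1 * r3 + r1 * r4 + r1 * r5 + r2 * r3 + r2 * r4 + r2 * r5 + r3 * r4 +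
      r3 * r5 + r4 * r5 with hE2
    set E3 := r1 * r2 * r3 + r1 * r2 * r4 + r1 * r2 * r5 + r1 * r3 * r4 + r1 * r3 * r5 +
      r1 * r4 * r5 + r2 * r3 * r4 + r2 * r3 * r5 + r2 * r4 * r5 + r3 * r4 * r5 with hE3
    set E4 := r1 * r2 * r3 * r4 + r1 * r2 * r3 * r5 + r1 * r2 * r4 * r5 + r1 * r3 * r4 * r5 +
      r2 * r3 * r4 * r5 with hE4
    set t : k[X] := C a - X with ht
    set V : k[X] := C b + C E3 * t + C E1 * t ^ 2 with hV
    set U : k[X] := t ^ 2 + C E2 * t + C E4 with hU
    obtain ⟨u, v, huv⟩ := halve_split2 E2 E4 a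
    have hUuv : U = (X - C u) * (X - C v) := huv
    have key : V ^ 2 - f = t * U ^ 2 := by
      have g1 : X - C e1 = C (r1 ^ 2) - t := by rw [h1, ht]; simp only [C_sub]; ring
      have g2 : X - C e2 = C (r2 ^ 2) - t := by rw [h2, ht]; simp only [C_sub]; ring
      have g3 : X - C e3 = C (r3 ^ 2) - t := by rw [h3, ht]; simp only [C_sub]; ring
      have g4 : X - C e4 = C (r4 ^ 2) - t := by rw [h4, ht]; simp only [C_sub]; ring
      have g5 : X - C e5 = C (r5 ^ 2) - t := by rw [h5, ht]; simp only [C_sub]; ring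
      rw [hfe, g1, g2, g3, g4, g5, hV, hU, ← hr, hE1, hE2, hE3, hE4]
      simp only [C_add, C_mul, C_pow]
      ring
    have hteval : ∀ z : k, t.eval z = a - z := fun z => by simp [ht]
    have hVa : V.eval a = b := by
      rw [hV]
      simp [ht]
    have hpt : ∀ z : k, U.eval z = 0 → (V.eval z) ^ 2 = f.eval z := by
      intro z hz
      have := congrArg (fun p => eval z p) key
      simp only [eval_sub, eval_pow, eval_mul, hz] at this
      linear_combination this
    have hu : U.eval u = 0 := by rw [hUuv]; simp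
    have hv : U.eval v = 0 := by rw [hUuv]; simp
    set P : Pt f := .aff a b hab with hP
    set U1 : Pt f := .aff u (V.eval u) (hpt u hu) with hU1
    set U2 : Pt f := .aff v (V.eval v) (hpt v hv) with hU2
    have hprin : Prin ({P, U1, U1, U2, U2} : Multiset (Pt f)) := by
      apply mumford_prin hf V _ _ (c := -1) (neg_ne_zero.2 one_ne_zero)
      · rw [key, hUuv]
        simp only [lins, Multiset.insert_eq_cons, Multiset.map_cons, Multiset.map_singleton,
          Multiset.prod_cons, Multiset.prod_singleton, hP, hU1, hU2, Pt.lin, C_neg, C_1]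
        rw [ht]
        ring
      · intro Q hQ
        simp only [Multiset.insert_eq_cons, Multiset.mem_cons, Multiset.mem_singleton] at hQ
        rcases hQ with rfl | rfl | rfl | rfl | rfl
        · refine ⟨a, by rw [hVa]; exact hab, ?_⟩
          rw [hP]
          congr 1
          exact hVa.symm
        · exact ⟨u, hpt u hu, rfl⟩
        · exact ⟨u, hpt u hu, rfl⟩
        · exact ⟨v, hpt v hv, rfl⟩
        · exact ⟨v, hpt v hv, rfl⟩
    have hsum := (sum_cl_eq_zero_iff hf _).2 hprin
    simp only [Multiset.insert_eq_cons, Multiset.map_cons, Multiset.map_singleton,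
      Multiset.sum_cons, Multiset.sum_singleton] at hsum
    refine ⟨-(cl U1 + cl U2), ?_⟩
    have h6 : cl P = -(cl U1 + (cl U1 + (cl U2 + cl U2))) := eq_neg_of_add_eq_zero_left hsum
    rw [h6]
    abel

theorem exists_half [IsAlgClosed k] (hf : Hyp f) (c : J f) : ∃ d : J f, d + d = c := by
  obtain ⟨s, rfl⟩ := exists_multiset hf c
  induction s using Multiset.induction_on with
  | empty => exact ⟨0, by simp⟩
  | cons P s ih =>
    obtain ⟨d, hd⟩ := ih
    obtain ⟨e, he⟩ := halve_point hf P
    refine ⟨e + d, ?_⟩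
    rw [Multiset.map_cons, Multiset.sum_cons, ← hd, ← he]
    abel

theorem exists_two_torsion [IsAlgClosed k] (hf : Hyp f) : ∃ c : J f, c ≠ 0 ∧ c + c = 0 := by
  obtain ⟨e, he⟩ := IsAlgClosed.exists_root f (by
    rw [Polynomial.degree_eq_natDegree hf.monic.ne_zero, hf.deg]
    norm_num)
  have h : (0 : k) ^ 2 = f.eval e := by
    rw [he.eq_zero]; norm_num
  refine ⟨cl (.aff e 0 h), ?_, ?_⟩
  · intro h0
    have h1 : cl (.aff e 0 h : Pt f) + cl (.inf : Pt f) = cl (.inf : Pt f) + cl (.inf : Pt f) := by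
      rw [h0, cl_inf]
    rcases cl_add_eq hf h1 with h2 | h2 | h2
    · exact absurd h2.1 (by simp)
    · exact absurd h2.1 (by simp)
    · exact absurd h2.1 (by simp [Pt.neg])
  · have h1 : (Pt.aff e 0 h : Pt f).neg = Pt.aff e 0 h := by simp [Pt.neg]
    have h2 := cl_neg hf (Pt.aff e 0 h : Pt f)
    rw [h1] at h2
    exact eq_neg_iff_add_eq_zero.1 h2

theorem infinite_two_power [IsAlgClosed k] (hf : Hyp f) :
    {c : J f | ∃ n : ℕ, 2 ^ n • c = 0}.Infinite := by
  obtain ⟨c₀, h0, h00⟩ := exists_two_torsion hf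
  choose half hhalf using exists_half hf
  set T : ℕ → J f := fun n => Nat.rec c₀ (fun _ c => half c) n with hT
  have hT0 : T 0 = c₀ := rfl
  have hTs : ∀ n, T (n + 1) + T (n + 1) = T n := fun n => hhalf (T n)
  have h1 : ∀ n, 2 ^ n • T n = c₀ := by
    intro n
    induction n with
    | zero => rw [pow_zero, one_smul, hT0]
    | succ n ih =>
      rw [pow_succ, mul_smul, two_smul, hTs, ih]
  have h2 : ∀ n, 2 ^ (n + 1) • T n = 0 := by
    intro n
    rw [pow_succ', mul_smul, h1, two_smul, h00]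
  apply Set.infinite_of_injective_forall_mem (f := T)
  · have hlt : ∀ m n, m < n → T m ≠ T n := by
      intro m n hmn h
      apply h0
      rw [← h1 n, ← h]
      obtain ⟨d, rfl⟩ := Nat.exists_eq_add_of_lt hmn
      have : 2 ^ (m + d + 1) = 2 ^ d * 2 ^ (m + 1) := by ring
      rw [this, mul_smul, h2, smul_zero]
    intro m n h
    by_contra hne
    rcases lt_or_gt_of_ne hne with h' | h'
    · exact hlt _ _ h' h
    · exact hlt _ _ h' h.symm
  · intro n
    exact ⟨n + 1, h2 n⟩

end Pool.Agent.GTwo
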