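import Pool.Agent.GTwo.Field

/-!
# Interpolation
-/

set_option autoImplicit false

noncomputable section

namespace Pool.Agent.GTwo

open Polynomial
open scoped Classical

variable {k : Type} [Field k] {f : k[X]}

private theorem interp_eval_lins {s : Multiset (Pt f)} {x y : k} {h : y ^ 2 = f.eval x}
    (hm : Pt.aff x y h ∈ s) : (lins s).eval x = 0 := by
  have h1 : (X - C x) ∣ lins s := by
    have : (Pt.aff x y h).lin ∈ s.map Pt.lin := Multiset.mem_map_of_mem _ hm
    exact Multiset.dvd_prod this
  exact (dvd_iff_isRoot.1 h1)

private theorem interp_monic (s : Multiset (Pt f)) : (lins s).Monic := by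
  induction s using Multiset.induction with
  | empty =>
    show (Multiset.map Pt.lin 0).prod.Monic
    rw [Multiset.map_zero, Multiset.prod_zero]
    exact monic_one
  | cons P s ih =>
    show (Multiset.map Pt.lin (P ::ₘ s)).prod.Monic
    rw [Multiset.map_cons, Multiset.prod_cons]
    exact (Pt.lin_monic P).mul ih

private theorem interp_lins_cons (P : Pt f) (s : Multiset (Pt f)) :
    lins (P ::ₘ s) = P.lin * lins s := by
  unfold lins
  rw [Multiset.map_cons, Multiset.prod_cons]

private theorem interp_root {s : Multiset (Pt f)} {p : k} (hp : (lins s).eval p = 0) :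
    ∃ y h, Pt.aff p y h ∈ s := by
  induction s using Multiset.induction with
  | empty =>
    have h1 : lins (0 : Multiset (Pt f)) = 1 := rfl
    rw [h1, eval_one] at hp
    exact absurd hp one_ne_zero
  | cons P s ih =>
    rw [interp_lins_cons, eval_mul] at hp
    rcases mul_eq_zero.1 hp with h | h
    · cases P with
      | inf =>
        have h1 : (Pt.inf : Pt f).lin = 1 := rfl
        rw [h1, eval_one] at h
        exact absurd h one_ne_zero
      | aff x y e =>
        have h1 : (Pt.aff x y e : Pt f).lin = X - C x := rfl
        rw [h1, eval_sub, eval_X, eval_C, sub_eq_zero] at h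
        subst h
        exact ⟨y, e, Multiset.mem_cons_self _ _⟩
    · obtain ⟨y, e, hm⟩ := ih h
      exact ⟨y, e, Multiset.mem_cons_of_mem hm⟩

/-- interpolation -/
theorem exists_interp (hf : Hyp f) (s : Multiset (Pt f)) (hs : Pt.inf ∉ s)
    (hn : ∀ P ∈ s, P.neg ∉ s.erase P) : ∃ V : k[X],
      (∀ P ∈ s, ∃ x h, P = .aff x (V.eval x) h) ∧ lins s ∣ V ^ 2 - f ∧
      V.degree < Multiset.card s := by
  induction s using Multiset.induction with
  | empty =>
    refine ⟨0, fun P hP => absurd hP (Multiset.notMem_zero P), one_dvd _, ?_⟩
    rw [degree_zero]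
    exact WithBot.bot_lt_coe _
  | cons P s ih =>
    have hs' : Pt.inf ∉ s := fun h => hs (Multiset.mem_cons_of_mem h)
    have hn' : ∀ Q ∈ s, Q.neg ∉ s.erase Q := by
      intro Q hQ hQn
      apply hn Q (Multiset.mem_cons_of_mem hQ)
      by_cases hPQ : P = Q
      · subst hPQ
        rw [Multiset.erase_cons_head]
        exact Multiset.mem_of_mem_erase hQn
      · rw [Multiset.erase_cons_tail _ hPQ]
        exact Multiset.mem_cons_of_mem hQn
    obtain ⟨V, hV, hdvd, hdeg⟩ := ih hs' hn'
    -- the new point
    cases P with
    | inf => exact absurd (Multiset.mem_cons_self _ _) hs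
    | aff p y e =>
      set W := lins s with hW
      have hWd : W.degree = Multiset.card s := by
        have h1 := natDegree_lins s
        have h2 : s.filter (· ≠ .inf) = s := by
          rw [Multiset.filter_eq_self]
          intro Q hQ h
          rw [h] at hQ
          exact hs' hQ
        rw [h2] at h1
        rw [degree_eq_natDegree (interp_monic s).ne_zero, h1]
      have hlins : lins (Pt.aff p y e ::ₘ s) = (X - C p) * W := interp_lins_cons _ _
      -- reduction to the choice of the constant
      suffices hc : ∃ c : k, (V + C c * W).eval p = y ∧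
          (X - C p) * W ∣ (V + C c * W) ^ 2 - f by
        obtain ⟨c, hc1, hc2⟩ := hc
        refine ⟨V + C c * W, ?_, ?_, ?_⟩
        · intro Q hQ
          rcases Multiset.mem_cons.1 hQ with rfl | hQ
          · exact ⟨p, by rw [hc1]; exact e, (Pt.aff.injEq ..).mpr ⟨rfl, hc1.symm⟩⟩
          · obtain ⟨x, h, rfl⟩ := hV Q hQ
            have h1 : (V + C c * W).eval x = V.eval x := by
              rw [eval_add, eval_mul, eval_C, interp_eval_lins hQ, mul_zero, add_zero]
            exact ⟨x, by rw [h1]; exact h, (Pt.aff.injEq ..).mpr ⟨rfl, h1.symm⟩⟩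
        · rw [hlins]
          exact hc2
        · rw [Multiset.card_cons]
          have h1 : (C c * W).degree ≤ (Multiset.card s : WithBot ℕ) := by
            refine (degree_mul_le _ _).trans ?_
            rw [hWd]
            have h2 : (C c).degree ≤ 0 := degree_C_le
            calc (C c).degree + (Multiset.card s : WithBot ℕ)
                ≤ 0 + (Multiset.card s : WithBot ℕ) := by gcongr
              _ = _ := zero_add _
          refine lt_of_le_of_lt ((degree_add_le _ _).trans (max_le hdeg.le h1)) ?_
          exact_mod_cast Nat.lt_succ_self _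
      obtain ⟨G, hG⟩ := hdvd
      have hexp : ∀ c : k, (V + C c * W) ^ 2 - f = W * (G + C (2 * c) * V + C c ^ 2 * W) := by
        intro c
        have : V ^ 2 = W * G + f := by rw [← hG]; ring
        rw [C_mul, C_ofNat]
        linear_combination this
      by_cases hp : W.eval p = 0
      · obtain ⟨y', e', hQ⟩ := interp_root hp
        obtain ⟨x, h, hx⟩ := hV _ hQ
        obtain ⟨rfl, hy'⟩ := (Pt.aff.injEq ..).mp hx
        have hPn : (Pt.aff p y e : Pt f).neg ∉ s := by
          have h1 := hn _ (Multiset.mem_cons_self (Pt.aff p y e) s)
          rwa [Multiset.erase_cons_head] at h1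
        have hyy : y' = y := by
          have h1 : (y' - y) * (y' + y) = 0 := by
            have : y' ^ 2 = y ^ 2 := by rw [e', e]
            linear_combination this
          rcases mul_eq_zero.1 h1 with h2 | h2
          · exact sub_eq_zero.1 h2
          · exfalso
            apply hPn
            have h3 : y' = -y := eq_neg_of_add_eq_zero_left h2
            have h4 : (Pt.aff p y e : Pt f).neg = Pt.aff p y' e' :=
              (Pt.aff.injEq ..).mpr ⟨rfl, h3.symm⟩
            rw [h4]
            exact hQ
        have hy0 : y ≠ 0 := by
          intro h0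
          apply hPn
          have h4 : (Pt.aff p y e : Pt f).neg = Pt.aff p y' e' :=
            (Pt.aff.injEq ..).mpr ⟨rfl, by rw [hyy, h0, neg_zero]⟩
          rw [h4]
          exact hQ
        have hVp : V.eval p = y := by rw [← hy', hyy]
        have h2 : (2 : k) ≠ 0 := hf.two.ne_zero
        refine ⟨-(G.eval p) / (2 * y), ?_, ?_⟩
        · rw [eval_add, eval_mul, hp, mul_zero, add_zero, hVp]
        · rw [hexp, mul_comm (X - C p) W]
          apply mul_dvd_mul_left
          rw [dvd_iff_isRoot, IsRoot.def]
          rw [eval_add, eval_add, eval_mul, eval_mul, hp, mul_zero, add_zero, eval_C, hVp]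
          field_simp
          ring
      · refine ⟨(y - V.eval p) / W.eval p, ?_, ?_⟩
        · rw [eval_add, eval_mul, eval_C]
          field_simp
          ring
        · refine IsCoprime.mul_dvd ?_ ?_ ?_
          · rw [(irreducible_X_sub_C p).coprime_iff_not_dvd, dvd_iff_isRoot]
            exact hp
          · rw [dvd_iff_isRoot, IsRoot.def, eval_sub, eval_pow, eval_add, eval_mul, eval_C,
              div_mul_cancel₀ _ hp, add_sub_cancel, e, sub_self]
          · rw [hexp]
            exact dvd_mul_right _ _

end Pool.Agent.GTwo
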