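import Pool.Agent.GTwo.Field

/-!
# The Jacobian
-/

set_option autoImplicit false

noncomputable section

namespace Pool.Agent.GTwo

open Polynomial
open scoped Classical

variable {k : Type} [Field k] {f : k[X]}

private theorem dv_zero : dv (0 : Multiset (Pt f)) = 0 := by
  simp [dv]

private theorem dv_add (s t : Multiset (Pt f)) : dv (s + t) = dv s + dv t := by
  simp [dv]

private theorem dv_singleton (P : Pt f) : dv ({P} : Multiset (Pt f)) = Finsupp.single P 1 := by
  simp [dv]

private theorem dv_cons (P : Pt f) (s : Multiset (Pt f)) :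
    dv (P ::ₘ s) = Finsupp.single P 1 + dv s := by
  simp [dv]

private theorem dv_apply (s : Multiset (Pt f)) (P : Pt f) : dv s P = (s.count P : ℤ) := by
  induction s using Multiset.induction_on with
  | empty => simp [dv_zero]
  | cons Q s ih =>
    rw [dv_cons, Finsupp.add_apply, ih, Multiset.count_cons, Finsupp.single_apply]
    by_cases h : Q = P
    · subst h
      simp only [if_true]
      push_cast
      ring
    · rw [if_neg h, if_neg (fun h' => h h'.symm)]
      simp

private theorem dv_injective {s t : Multiset (Pt f)} (h : dv s = dv t) : s = t := by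
  ext P
  have h1 := DFunLike.congr_fun h P
  rw [dv_apply, dv_apply] at h1
  exact_mod_cast h1

private theorem deg_dv (s : Multiset (Pt f)) : deg (dv s) = (Multiset.card s : ℤ) := by
  induction s using Multiset.induction_on with
  | empty => simp [dv_zero]
  | cons Q s ih =>
    rw [dv_cons, map_add, ih, Multiset.card_cons]
    simp [deg]
    ring

private theorem prin_zero : Prin (0 : Multiset (Pt f)) :=
  ⟨1, by rw [Multiset.map_zero, Multiset.prod_zero, Ideal.span_singleton_one, Ideal.one_eq_top]⟩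

private theorem prin_add {s t : Multiset (Pt f)} (hs : Prin s) (ht : Prin t) :
    Prin (s + t) := by
  obtain ⟨α, hα⟩ := hs
  obtain ⟨β, hβ⟩ := ht
  refine ⟨α * β, ?_⟩
  rw [← Ideal.span_singleton_mul_span_singleton, hα, hβ, Multiset.map_add, Multiset.prod_add]

private theorem mem_closure {D : Pt f →₀ ℤ}
    (h : D ∈ AddSubgroup.closure {D | ∃ s : Multiset (Pt f), Prin s ∧ D = dv s}) :
    ∃ s₁ s₂ : Multiset (Pt f), Prin s₁ ∧ Prin s₂ ∧ D = dv s₁ - dv s₂ := by
  induction h using AddSubgroup.closure_induction with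
  | mem D hD =>
    obtain ⟨s, hs, rfl⟩ := hD
    exact ⟨s, 0, hs, prin_zero, by rw [dv_zero, sub_zero]⟩
  | zero => exact ⟨0, 0, prin_zero, prin_zero, by rw [sub_self]⟩
  | add D D' _ _ h h' =>
    obtain ⟨s₁, s₂, h1, h2, rfl⟩ := h
    obtain ⟨t₁, t₂, g1, g2, rfl⟩ := h'
    refine ⟨s₁ + t₁, s₂ + t₂, prin_add h1 g1, prin_add h2 g2, ?_⟩
    rw [dv_add, dv_add]
    abel
  | neg D _ h =>
    obtain ⟨s₁, s₂, h1, h2, rfl⟩ := h
    exact ⟨s₂, s₁, h2, h1, by abel⟩

private theorem prin_cancel (hf : Hyp f) {s s₁ s₂ : Multiset (Pt f)} (h₁ : Prin s₁)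
    (h₂ : Prin s₂) (h : s + s₂ = s₁) : Prin s := by
  have := rg_isDomain hf
  obtain ⟨a₁, ha₁⟩ := h₁
  obtain ⟨a₂, ha₂⟩ := h₂
  have h0 : a₂ ≠ 0 := by
    rintro rfl
    have h1 : rl (lins s₂) ∈ idl s₂ := by
      have h2 : rl (lins s₂) ∈ idl s₂ * idl (s₂.map Pt.neg) := by
        rw [idl_mul_neg hf]
        exact Ideal.mem_span_singleton_self _
      exact Ideal.mul_le_left h2
    have h2 : idl s₂ = ⊥ := by
      unfold idl
      rw [← ha₂, Ideal.span_singleton_eq_bot]
    rw [h2, Ideal.mem_bot] at h1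
    have h3 : lins s₂ ≠ 0 := by
      have : (lins s₂).Monic := by
        unfold lins
        exact monic_multiset_prod_of_monic s₂ Pt.lin fun P _ => P.lin_monic
      exact this.ne_zero
    apply h3
    have h4 := congrArg QuadraticAlgebra.re h1
    simpa using h4
  have h1 : Ideal.span {a₁} = idl s * Ideal.span {a₂} := by
    rw [ha₁, ha₂, ← h, Multiset.map_add, Multiset.prod_add]
    rfl
  have h2 : a₂ ∣ a₁ := by
    rw [← Ideal.mem_span_singleton]
    have h3 : a₁ ∈ idl s * Ideal.span {a₂} := by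
      rw [← h1]
      exact Ideal.mem_span_singleton_self _
    exact Ideal.mul_le_right h3
  obtain ⟨b, rfl⟩ := h2
  refine ⟨b, ?_⟩
  rw [← Ideal.span_singleton_mul_span_singleton, mul_comm (idl s)] at h1
  exact (Ideal.span_singleton_mul_right_inj h0).1 h1

private theorem sum_cl (s : Multiset (Pt f)) : (s.map cl).sum = jmk (dv s) := by
  induction s using Multiset.induction_on with
  | empty => simp [dv_zero]
  | cons Q s ih =>
    rw [Multiset.map_cons, Multiset.sum_cons, ih, dv_cons]
    rfl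

private theorem jmk_dv {s : Multiset (Pt f)} (hs : Prin s) : jmk (dv s) = 0 :=
  (QuotientAddGroup.eq_zero_iff _).2 (AddSubgroup.subset_closure ⟨s, hs, rfl⟩)

theorem sum_cl_eq_zero_iff (hf : Hyp f) (s : Multiset (Pt f)) :
    (s.map cl).sum = 0 ↔ Prin s := by
  rw [sum_cl]
  refine ⟨fun h => ?_, jmk_dv⟩
  obtain ⟨s₁, s₂, h1, h2, h3⟩ := mem_closure ((QuotientAddGroup.eq_zero_iff _).1 h)
  refine prin_cancel hf h1 h2 (dv_injective ?_)
  rw [dv_add, h3, sub_add_cancel]

private theorem prin_inf : Prin ({.inf} : Multiset (Pt f)) :=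
  ⟨1, by rw [Multiset.map_singleton, Multiset.prod_singleton, Ideal.span_singleton_one]; rfl⟩

theorem cl_inf : cl (.inf : Pt f) = 0 := by
  have h := jmk_dv (prin_inf (f := f))
  rwa [dv_singleton] at h

theorem cl_neg (hf : Hyp f) (P : Pt f) : cl P.neg = -cl P := by
  have h : Prin ({P} + {P.neg} : Multiset (Pt f)) := by
    refine ⟨rl P.lin, ?_⟩
    rw [Multiset.map_add, Multiset.map_singleton, Multiset.map_singleton, Multiset.prod_add,
      Multiset.prod_singleton, Multiset.prod_singleton, P.ideal_mul_neg hf]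
  have h1 := jmk_dv h
  rw [dv_add, dv_singleton, dv_singleton] at h1
  have h2 : cl P + cl P.neg = 0 := h1
  exact (neg_eq_of_add_eq_zero_right h2).symm

theorem jmk_eq (D : Pt f →₀ ℤ) : jmk D = D.sum fun P n => n • cl P := by
  induction D using Finsupp.induction_linear with
  | zero => simp
  | add D D' h h' =>
    rw [Finsupp.sum_add_index' (by simp) (by intro P a b; exact add_zsmul _ _ _), ← h, ← h']
    rfl
  | single P n =>
    rw [Finsupp.sum_single_index (by simp)]
    have h1 : Finsupp.single P n = n • Finsupp.single P (1 : ℤ) := by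
      rw [Finsupp.smul_single, smul_eq_mul, mul_one]
    rw [h1]
    rfl

theorem exists_multiset (hf : Hyp f) (c : J f) : ∃ s : Multiset (Pt f), c = (s.map cl).sum := by
  obtain ⟨D, rfl⟩ := QuotientAddGroup.mk_surjective c
  change ∃ s : Multiset (Pt f), jmk D = (s.map cl).sum
  induction D using Finsupp.induction_linear with
  | zero => exact ⟨0, by simp⟩
  | add D D' h h' =>
    obtain ⟨s, hs⟩ := h
    obtain ⟨t, ht⟩ := h'
    refine ⟨s + t, ?_⟩
    rw [Multiset.map_add, Multiset.sum_add, ← hs, ← ht]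
    rfl
  | single P n =>
    have h1 : jmk (Finsupp.single P n) = n • cl P := by
      rw [jmk_eq, Finsupp.sum_single_index (by simp)]
    rw [h1]
    rcases Int.eq_nat_or_neg n with ⟨m, rfl | rfl⟩
    · refine ⟨Multiset.replicate m P, ?_⟩
      rw [Multiset.map_replicate, Multiset.sum_replicate, natCast_zsmul]
    · refine ⟨Multiset.replicate m P.neg, ?_⟩
      rw [Multiset.map_replicate, Multiset.sum_replicate, cl_neg hf, neg_zsmul, natCast_zsmul,
        neg_nsmul]

/-- every class contains a divisor of degree zero -/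
theorem exists_deg_zero (c : J f) : ∃ D : Pt f →₀ ℤ, deg D = 0 ∧ jmk D = c := by
  obtain ⟨D, rfl⟩ := QuotientAddGroup.mk_surjective c
  refine ⟨D - deg D • Finsupp.single .inf 1, ?_, ?_⟩
  · rw [map_sub, map_zsmul]
    simp [deg]
  · have h : jmk (D - deg D • Finsupp.single (.inf : Pt f) 1) =
        jmk D - deg D • cl (.inf : Pt f) := rfl
    rw [h, cl_inf, smul_zero, sub_zero]

theorem mem_linEq {D : Pt f →₀ ℤ} (h : jmk D = 0) (hd : deg D = 0) : D ∈ LinEq f := by
  obtain ⟨s₁, s₂, h1, h2, rfl⟩ := mem_closure ((QuotientAddGroup.eq_zero_iff _).1 h)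
  rw [map_sub, deg_dv, deg_dv] at hd
  have h3 : dv s₁ - dv s₂ =
      (dv s₁ - (Multiset.card s₁ : ℤ) • Finsupp.single .inf 1) -
        (dv s₂ - (Multiset.card s₂ : ℤ) • Finsupp.single .inf 1) := by
    rw [sub_eq_zero.1 hd]
    abel
  rw [h3]
  exact sub_mem (AddSubgroup.subset_closure ⟨s₁, h1, rfl⟩)
    (AddSubgroup.subset_closure ⟨s₂, h2, rfl⟩)

private theorem single_inf_mem : Finsupp.single (.inf : Pt f) (1 : ℤ) ∈
    AddSubgroup.closure {D | ∃ s : Multiset (Pt f), Prin s ∧ D = dv s} := by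
  apply AddSubgroup.subset_closure
  refine ⟨({.inf} : Multiset (Pt f)), ?_, ?_⟩
  · exact prin_inf (f := f)
  · exact (dv_singleton (.inf : Pt f)).symm

theorem jmk_eq_zero {D : Pt f →₀ ℤ} (h : D ∈ LinEq f) : jmk D = 0 := by
  have key : LinEq f ≤ AddSubgroup.closure {D | ∃ s : Multiset (Pt f), Prin s ∧ D = dv s} := by
    unfold LinEq
    rw [AddSubgroup.closure_le]
    intro D hD
    obtain ⟨s, hs, h1⟩ := hD
    rw [SetLike.mem_coe, h1]
    apply sub_mem
    · exact AddSubgroup.subset_closure ⟨s, hs, rfl⟩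
    · exact zsmul_mem single_inf_mem _
  exact (QuotientAddGroup.eq_zero_iff D).2 (key h)

end Pool.Agent.GTwo
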