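import Pool.Agent.GTwo.Field

/-!
# The kernel of reduction: the contradiction
-/

set_option autoImplicit false

noncomputable section

namespace Pool.Agent.GTwo

open Polynomial
open scoped Classical

section Aux

variable {A : Type} [CommRing A] {f : A[X]}

private theorem kc_nsmul (n : ℕ) (s : Multiset (Pt f)) : idl (n • s) = idl s ^ n := by
  rw [idl, Multiset.map_nsmul, Multiset.prod_nsmul, idl]

private theorem kc_single (P : Pt f) : idl {P} = P.ideal := by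
  rw [idl, Multiset.map_singleton, Multiset.prod_singleton]

private theorem kc_four (n : ℕ) (P Q R T : Pt f) :
    idl (n • ({P, Q, R, T} : Multiset (Pt f))) =
      P.ideal ^ n * (Q.ideal ^ n * (R.ideal ^ n * T.ideal ^ n)) := by
  rw [kc_nsmul, idl]
  simp only [Multiset.insert_eq_cons, Multiset.map_cons, Multiset.map_singleton,
    Multiset.prod_cons, Multiset.prod_singleton, mul_pow]

private theorem kc_rl_mul (a b : A[X]) : (rl (a * b) : Rg f) = rl a * rl b := map_mul _ _ _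

private theorem kc_rl_pow (a : A[X]) (n : ℕ) : (rl (a ^ n) : Rg f) = rl a ^ n := map_pow _ _ _

private theorem kc_re (p : A[X]) (z : Rg f) : (rl p * z).re = p * z.re := by
  have h : (rl p * z).re = p * z.re + f * 0 * z.im := rfl
  rw [h, mul_zero, zero_mul, add_zero]

private theorem kc_im (p : A[X]) (z : Rg f) : (rl p * z).im = p * z.im := by
  rw [QuadraticAlgebra.im_mul]
  have h1 : (rl p : Rg f).re = p := rfl
  have h2 : (rl p : Rg f).im = 0 := rfl
  rw [h1, h2]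
  ring

private theorem kc_rl_mem {x y : A} (h : y ^ 2 = f.eval x) (p : A[X]) (hp : p.eval x = 0) :
    (rl p : Rg f) ∈ (Pt.aff x y h).ideal := by
  rw [Pt.mem_ideal_aff]
  show p.eval x + (0 : A[X]).eval x * y = 0
  rw [hp, eval_zero, zero_mul, add_zero]

/-- the expansion at one point -/
private theorem kc_step [IsDomain A] (hf : Hyp f) {n : ℕ} {a b x x' η d : A}
    (hP : b ^ 2 = f.eval a)
    (hη0 : η ≠ 0) (h1 : a - x = η * d) {γ : Rg f}
    (hγ : rl ((X - C x) ^ n * (X - C x') ^ n) + rl (C η) * γ ∈ (Pt.aff a b hP).ideal ^ n) :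
    ∃ R : A[X], rl ((n : A[X]) * (X - C a) ^ (n - 1) * C d * (X - C x') ^ n + C η * R) + γ ∈
      (Pt.aff a b hP).ideal ^ n := by
  obtain ⟨K, hK⟩ := powAddExpansion (X - C a) (C (η * d)) n
  have e1 : (X - C x : A[X]) = (X - C a) + C (η * d) := by
    rw [← h1, C_sub]
    ring
  refine ⟨K * C d ^ 2 * (X - C x') ^ n, ?_⟩
  have hmem : (rl ((X - C a) ^ n * (X - C x') ^ n) : Rg f) ∈ (Pt.aff a b hP).ideal ^ n := by
    rw [kc_rl_mul, kc_rl_pow]
    exact Ideal.mul_mem_right _ _ (Ideal.pow_mem_pow (kc_rl_mem hP _ (by simp)) n)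
  have h2 := Ideal.sub_mem _ hγ hmem
  have e2 : (rl ((X - C x) ^ n * (X - C x') ^ n) + rl (C η) * γ -
      rl ((X - C a) ^ n * (X - C x') ^ n) : Rg f) =
      rl (C η) * (rl ((n : A[X]) * (X - C a) ^ (n - 1) * C d * (X - C x') ^ n +
        C η * (K * C d ^ 2 * (X - C x') ^ n)) + γ) := by
    rw [e1, hK, C_mul]
    simp only [map_mul, map_add, map_pow, map_sub, map_natCast]
    ring
  rw [e2, ← kc_single, ← kc_nsmul] at h2
  have h3 := idl_sat hf _ hη0 h2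
  rw [kc_nsmul, kc_single] at h3
  exact h3

end Aux

section FieldAux

variable {κ : Type} [Field κ] {g : κ[X]}

private theorem kc_ne {P Q : Pt g} (hg : Hyp g) (hP : P ≠ .inf) (hQ : Q ≠ .inf) (h : P ≠ Q) :
    IsCoprime P.ideal Q.ideal := by
  rw [Ideal.isCoprime_iff_sup_eq]
  refine (ideal_isMaximal hg hP).coprime_of_ne (ideal_isMaximal hg hQ) fun he => h ?_
  have h1 : idl {P} ≤ Q.ideal := by rw [kc_single, he]
  exact (Multiset.mem_singleton.1 ((idl_le_ideal_iff hg _ hQ).1 h1)).symm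

/-- the last step: the power is not in the ideal -/
private theorem kc_last (hg : Hyp g) {n : ℕ} (hn : (n : κ) ≠ 0) {x y x' y' : κ}
    (h : y ^ 2 = g.eval x) (h' : y' ^ 2 = g.eval x') (hx : x ≠ x') (hy : y ≠ 0)
    (hmem : (rl ((n : κ[X]) * (X - C x) ^ (n - 1) * (X - C x') ^ n) : Rg g) ∈
      (Pt.aff x y h).ideal ^ n) : False := by
  have hn0 : n ≠ 0 := by
    rintro rfl
    exact hn Nat.cast_zero
  obtain ⟨m, rfl⟩ := Nat.exists_eq_succ_of_ne_zero hn0
  set q : Pt g := .aff x y h with hq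
  set q' : Pt g := .aff x' y' h' with hq'
  have hqi : q ≠ .inf := by simp [hq]
  -- remove the constant
  have h1 : (rl ((X - C x) ^ m * (X - C x') ^ (m + 1)) : Rg g) ∈ q.ideal ^ (m + 1) := by
    have e : (rl ((X - C x) ^ m * (X - C x') ^ (m + 1)) : Rg g) =
        rl (C ((m + 1 : ℕ) : κ)⁻¹) * rl ((((m + 1 : ℕ) : κ[X])) * (X - C x) ^ (m + 1 - 1) *
          (X - C x') ^ (m + 1)) := by
      rw [← map_mul]
      congr 1
      have e2 : (((m + 1 : ℕ) : κ[X])) = C (((m + 1 : ℕ) : κ)) := by simp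
      rw [e2, Nat.add_sub_cancel, ← mul_assoc, ← mul_assoc, ← C_mul, inv_mul_cancel₀ hn, C_1,
        one_mul]
    rw [e]
    exact Ideal.mul_mem_left _ _ hmem
  -- as an inclusion of ideals
  have h2 : Ideal.span {(rl ((X - C x) ^ m * (X - C x') ^ (m + 1)) : Rg g)} =
      (q.ideal * q.neg.ideal) ^ m * (q'.ideal * q'.neg.ideal) ^ (m + 1) := by
    rw [Pt.ideal_mul_neg hg, Pt.ideal_mul_neg hg, Ideal.span_singleton_pow,
      Ideal.span_singleton_pow, Ideal.span_singleton_mul_span_singleton, ← map_pow, ← map_pow,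
      ← map_mul]
    rfl
  have h3 : (q.ideal * q.neg.ideal) ^ m * (q'.ideal * q'.neg.ideal) ^ (m + 1) ≤
      q.ideal ^ (m + 1) := by
    rw [← h2, Ideal.span_singleton_le_iff_mem]
    exact h1
  have h4 : idl (m • {q}) * idl (m • {q.neg} + (m + 1) • {q', q'.neg}) ≤
      idl (m • {q}) * q.ideal := by
    rw [idl_add, kc_nsmul, kc_nsmul, kc_nsmul, kc_single, kc_single]
    have e : idl ({q', q'.neg} : Multiset (Pt g)) = q'.ideal * q'.neg.ideal := by
      rw [idl]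
      simp
    rw [e, ← pow_succ, ← mul_assoc, ← mul_pow]
    exact h3
  have h5 := idl_cancel hg _ h4
  rw [idl_le_ideal_iff hg _ hqi, Multiset.mem_add] at h5
  rcases h5 with h6 | h6
  · have h7 := Multiset.mem_of_mem_nsmul h6
    rw [Multiset.mem_singleton] at h7
    have h8 : y = -y := (Pt.aff.inj h7).2
    have h9 : (2 : κ) * y = 0 := by linear_combination h8
    exact hy ((mul_eq_zero.1 h9).resolve_left hg.two.ne_zero)
  · have h7 := Multiset.mem_of_mem_nsmul h6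
    simp only [Multiset.insert_eq_cons, Multiset.mem_cons, Multiset.mem_singleton] at h7
    rcases h7 with h8 | h8
    · exact hx (Pt.aff.inj h8).1
    · exact hx (Pt.aff.inj h8).1

/-- the reduction vanishes -/
private theorem kc_zero (hg : Hyp g) {n : ℕ} (hn : n ≠ 0) {x y x' y' : κ}
    (h : y ^ 2 = g.eval x) (h' : y' ^ 2 = g.eval x') (hx : x ≠ x') (hy : y ≠ 0) (hy' : y' ≠ 0)
    {c : Rg g} (hc1 : c.re.natDegree < 2 * n) (hc2 : c.im = 0 ∨ 2 * c.im.natDegree + 5 ≤ 4 * n)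
    (h1 : c ∈ (Pt.aff x y h).ideal ^ (n - 1)) (h2 : c ∈ (Pt.aff x' y' h').ideal ^ (n - 1))
    (h3 : c ∈ (Pt.aff x y h).neg.ideal ^ n) (h4 : c ∈ (Pt.aff x' y' h').neg.ideal ^ n) :
    c = 0 := by
  obtain ⟨m, rfl⟩ := Nat.exists_eq_succ_of_ne_zero hn
  rw [Nat.succ_eq_add_one, Nat.add_sub_cancel] at h1 h2
  set q : Pt g := .aff x y h with hq
  set q' : Pt g := .aff x' y' h' with hq'
  have hqi : q ≠ .inf := by simp [hq]
  have hqi' : q' ≠ .inf := by simp [hq']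
  have hqn : q.neg ≠ .inf := by simp [hq, Pt.neg]
  have hqn' : q'.neg ≠ .inf := by simp [hq', Pt.neg]
  have h2y : ∀ z : κ, z ≠ 0 → z ≠ -z := by
    intro z hz he
    have h9 : (2 : κ) * z = 0 := by linear_combination he
    exact hz ((mul_eq_zero.1 h9).resolve_left hg.two.ne_zero)
  have c1 : IsCoprime q.ideal q'.ideal := kc_ne hg hqi hqi' fun he => hx (Pt.aff.inj he).1
  have c2 : IsCoprime q.ideal q.neg.ideal :=
    kc_ne hg hqi hqn fun he => h2y y hy (Pt.aff.inj he).2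
  have c3 : IsCoprime q.ideal q'.neg.ideal := kc_ne hg hqi hqn' fun he => hx (Pt.aff.inj he).1
  have c4 : IsCoprime q'.ideal q.neg.ideal :=
    kc_ne hg hqi' hqn fun he => hx (Pt.aff.inj he).1.symm
  have c5 : IsCoprime q'.ideal q'.neg.ideal :=
    kc_ne hg hqi' hqn' fun he => h2y y' hy' (Pt.aff.inj he).2
  have c6 : IsCoprime q.neg.ideal q'.neg.ideal :=
    kc_ne hg hqn hqn' fun he => hx (Pt.aff.inj he).1
  -- the product
  have m1 : c ∈ q.neg.ideal ^ (m + 1) * q'.neg.ideal ^ (m + 1) := by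
    rw [Ideal.mul_eq_inf_of_isCoprime (c6.pow)]
    exact ⟨h3, h4⟩
  have m2 : c ∈ q'.ideal ^ m * (q.neg.ideal ^ (m + 1) * q'.neg.ideal ^ (m + 1)) := by
    rw [Ideal.mul_eq_inf_of_isCoprime (c4.pow.mul_right c5.pow)]
    exact ⟨h2, m1⟩
  have m3 : c ∈ q.ideal ^ m * (q'.ideal ^ m * (q.neg.ideal ^ (m + 1) * q'.neg.ideal ^ (m + 1))) := by
    rw [Ideal.mul_eq_inf_of_isCoprime (c1.pow.mul_right (c2.pow.mul_right c3.pow))]
    exact ⟨h1, m2⟩
  have e : q.ideal ^ m * (q'.ideal ^ m * (q.neg.ideal ^ (m + 1) * q'.neg.ideal ^ (m + 1))) =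
      Ideal.span {(rl ((X - C x) ^ m * (X - C x') ^ m) : Rg g)} *
        (q.neg.ideal * q'.neg.ideal) := by
    have e2 : Ideal.span {(rl ((X - C x) ^ m * (X - C x') ^ m) : Rg g)} =
        (q.ideal * q.neg.ideal) ^ m * (q'.ideal * q'.neg.ideal) ^ m := by
      rw [Pt.ideal_mul_neg hg, Pt.ideal_mul_neg hg, Ideal.span_singleton_pow,
        Ideal.span_singleton_pow, Ideal.span_singleton_mul_span_singleton, ← map_pow, ← map_pow,
        ← map_mul]
      rfl
    rw [e2]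
    ring
  rw [e, Ideal.mem_span_singleton_mul] at m3
  obtain ⟨z, hz, hzc⟩ := m3
  have hmon : ((X - C x) ^ m * (X - C x') ^ m : κ[X]).Monic :=
    ((monic_X_sub_C x).pow m).mul ((monic_X_sub_C x').pow m)
  have hdeg : ((X - C x) ^ m * (X - C x') ^ m : κ[X]).natDegree = 2 * m := by
    rw [((monic_X_sub_C x).pow m).natDegree_mul ((monic_X_sub_C x').pow m),
      (monic_X_sub_C x).natDegree_pow, (monic_X_sub_C x').natDegree_pow, natDegree_X_sub_C,
      natDegree_X_sub_C]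
    ring
  have hre : c.re = ((X - C x) ^ m * (X - C x') ^ m : κ[X]) * z.re := by
    rw [← hzc, kc_re]
  have him : c.im = ((X - C x) ^ m * (X - C x') ^ m : κ[X]) * z.im := by
    rw [← hzc, kc_im]
  have hzim : z.im = 0 := by
    by_contra hne
    have h5 : c.im.natDegree = 2 * m + z.im.natDegree := by
      rw [him, hmon.natDegree_mul' hne, hdeg]
    have h6 : c.im ≠ 0 := by
      rw [him]
      exact mul_ne_zero hmon.ne_zero hne
    rcases hc2 with h7 | h7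
    · exact h6 h7
    · omega
  have hev : ∀ (X₀ Y₀ : κ) (H : Y₀ ^ 2 = g.eval X₀), z ∈ (Pt.aff X₀ Y₀ H).neg.ideal →
      z.re.eval X₀ = 0 := by
    intro X₀ Y₀ H hmem
    have h5 := (Pt.mem_ideal_aff _ _ _ z).1 hmem
    rw [hzim, eval_zero, zero_mul, add_zero] at h5
    exact h5
  have hz1 : z.re.eval x = 0 := hev x y h
    ((Ideal.mul_le_left : q.neg.ideal * q'.neg.ideal ≤ q.neg.ideal) hz)
  have hz2 : z.re.eval x' = 0 := hev x' y' h'
    ((Ideal.mul_le_right : q.neg.ideal * q'.neg.ideal ≤ q'.neg.ideal) hz)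
  have hzre : z.re = 0 := by
    by_contra hne
    have h5 : c.re.natDegree = 2 * m + z.re.natDegree := by
      rw [hre, hmon.natDegree_mul' hne, hdeg]
    have h6 : z.re.natDegree ≤ 1 := by omega
    have h7 : ({x, x'} : Finset κ).card ≤ Multiset.card z.re.roots := by
      refine le_trans ?_ (Multiset.toFinset_card_le z.re.roots)
      refine Finset.card_le_card fun t ht => ?_
      rw [Multiset.mem_toFinset, mem_roots hne]
      rcases Finset.mem_insert.1 ht with ht | ht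
      · rw [ht]
        exact hz1
      · rw [Finset.mem_singleton.1 ht]
        exact hz2
    rw [Finset.card_pair hx] at h7
    have := card_roots' z.re
    omega
  have hz0 : z = 0 := by
    ext1
    · exact hzre
    · exact hzim
  rw [← hzc, hz0, mul_zero]

end FieldAux

variable {k : Type} [Field k] (O : ValuationSubring k) {f : O[X]}

theorem ker_contra (hf : Hyp f) {n : ℕ} (hn : (n : IsLocalRing.ResidueField O) ≠ 0)
    {x₁ y₁ x₂ y₂ a₁ b₁ a₂ b₂ : O}
    (hQ₁ : y₁ ^ 2 = f.eval x₁) (hQ₂ : y₂ ^ 2 = f.eval x₂) (hP₁ : b₁ ^ 2 = f.eval a₁)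
    (hP₂ : b₂ ^ 2 = f.eval a₂) {η d₁ d₂ : O} (hη : IsLocalRing.residue O η = 0) (hη0 : η ≠ 0)
    (h1 : a₁ - x₁ = η * d₁) (h2 : η ∣ b₁ - y₁) (h3 : a₂ - x₂ = η * d₂) (h4 : η ∣ b₂ - y₂)
    (hd : d₁ = 1 ∨ d₂ = 1)
    (hx : IsLocalRing.residue O x₁ ≠ IsLocalRing.residue O x₂)
    (hy₁ : IsLocalRing.residue O y₁ ≠ 0) (hy₂ : IsLocalRing.residue O y₂ ≠ 0)
    {γ : Rg f} (hγ1 : γ.re.natDegree < 2 * n) (hγ2 : γ.im = 0 ∨ 2 * γ.im.natDegree + 5 ≤ 4 * n)
    (hγ : rl ((X - C x₁) ^ n * (X - C x₂) ^ n) + rl (C η) * γ ∈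
        idl (n • ({.aff a₁ b₁ hP₁, .aff a₂ b₂ hP₂, (Pt.aff x₁ y₁ hQ₁).neg,
          (Pt.aff x₂ y₂ hQ₂).neg} : Multiset (Pt f)))) : False := by
  have hn0 : n ≠ 0 := by
    rintro rfl
    exact hn Nat.cast_zero
  set res := IsLocalRing.residue O with hres
  have hg : Hyp (f.map res) := hf.map res
  rw [kc_four] at hγ
  have hγP₁ := (Ideal.mul_le_left : (Pt.aff a₁ b₁ hP₁).ideal ^ n * ((Pt.aff a₂ b₂ hP₂).ideal ^ n *
    ((Pt.aff x₁ y₁ hQ₁).neg.ideal ^ n * (Pt.aff x₂ y₂ hQ₂).neg.ideal ^ n)) ≤ _) hγ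
  have hγr := (Ideal.mul_le_right : (Pt.aff a₁ b₁ hP₁).ideal ^ n * ((Pt.aff a₂ b₂ hP₂).ideal ^ n *
    ((Pt.aff x₁ y₁ hQ₁).neg.ideal ^ n * (Pt.aff x₂ y₂ hQ₂).neg.ideal ^ n)) ≤ _) hγ
  have hγP₂ := (Ideal.mul_le_left : (Pt.aff a₂ b₂ hP₂).ideal ^ n *
    ((Pt.aff x₁ y₁ hQ₁).neg.ideal ^ n * (Pt.aff x₂ y₂ hQ₂).neg.ideal ^ n) ≤ _) hγr
  have hγr' := (Ideal.mul_le_right : (Pt.aff a₂ b₂ hP₂).ideal ^ n *
    ((Pt.aff x₁ y₁ hQ₁).neg.ideal ^ n * (Pt.aff x₂ y₂ hQ₂).neg.ideal ^ n) ≤ _) hγr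
  have hγQ₁ := (Ideal.mul_le_left :
    (Pt.aff x₁ y₁ hQ₁).neg.ideal ^ n * (Pt.aff x₂ y₂ hQ₂).neg.ideal ^ n ≤ _) hγr'
  have hγQ₂ := (Ideal.mul_le_right :
    (Pt.aff x₁ y₁ hQ₁).neg.ideal ^ n * (Pt.aff x₂ y₂ hQ₂).neg.ideal ^ n ≤ _) hγr'
  -- the residues
  have ra₁ : res a₁ = res x₁ := by
    rw [← sub_eq_zero, ← map_sub, h1, map_mul, hη, zero_mul]
  have ra₂ : res a₂ = res x₂ := by
    rw [← sub_eq_zero, ← map_sub, h3, map_mul, hη, zero_mul]
  have rb₁ : res b₁ = res y₁ := by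
    obtain ⟨t, ht⟩ := h2
    rw [← sub_eq_zero, ← map_sub, ht, map_mul, hη, zero_mul]
  have rb₂ : res b₂ = res y₂ := by
    obtain ⟨t, ht⟩ := h4
    rw [← sub_eq_zero, ← map_sub, ht, map_mul, hη, zero_mul]
  have rP₁ : (Pt.aff a₁ b₁ hP₁).map res = (Pt.aff x₁ y₁ hQ₁).map res := by
    simp only [Pt.map, ra₁, rb₁]
  have rP₂ : (Pt.aff a₂ b₂ hP₂).map res = (Pt.aff x₂ y₂ hQ₂).map res := by
    simp only [Pt.map, ra₂, rb₂]
  -- reduction of memberships
  have hred : ∀ (P : Pt f) (m : ℕ) (z : Rg f), z ∈ P.ideal ^ m →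
      Rg.map res z ∈ (P.map res).ideal ^ m := by
    intro P m z hz
    rw [← kc_single, ← kc_nsmul] at hz ⊢
    have h5 := idl_map res (m • ({P} : Multiset (Pt f)))
    rw [Multiset.map_nsmul, Multiset.map_singleton] at h5
    rw [h5]
    exact Ideal.mem_map_of_mem _ hz
  -- step 1
  have s1 : ∀ (x y x' : O) (hQ : y ^ 2 = f.eval x), (rl ((X - C x) ^ n * (X - C x') ^ n) +
      rl (C η) * γ : Rg f) ∈ (Pt.aff x y hQ).neg.ideal ^ n → γ ∈ (Pt.aff x y hQ).neg.ideal ^ n := by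
    intro x y x' hQ hmem
    have h5 : (rl ((X - C x) ^ n * (X - C x') ^ n) : Rg f) ∈ (Pt.aff x y hQ).neg.ideal ^ n := by
      rw [kc_rl_mul, kc_rl_pow]
      exact Ideal.mul_mem_right _ _ (Ideal.pow_mem_pow (kc_rl_mem _ _ (by simp)) n)
    have h6 := Ideal.sub_mem _ hmem h5
    rw [add_sub_cancel_left, ← kc_single, ← kc_nsmul] at h6
    have h7 := idl_sat hf _ hη0 h6
    rw [kc_nsmul, kc_single] at h7
    exact h7
  have hQ₁' : (rl ((X - C x₂) ^ n * (X - C x₁) ^ n) + rl (C η) * γ : Rg f) ∈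
      (Pt.aff x₂ y₂ hQ₂).neg.ideal ^ n := by
    rw [mul_comm ((X - C x₂) ^ n)]
    exact hγQ₂
  have g1 := hred _ n _ (s1 x₁ y₁ x₂ hQ₁ hγQ₁)
  have g2 := hred _ n _ (s1 x₂ y₂ x₁ hQ₂ hQ₁')
  rw [Pt.map_neg] at g1 g2
  -- step 2
  obtain ⟨R₁, hR₁⟩ := kc_step hf hP₁ hη0 h1 hγP₁
  have hγP₂' : (rl ((X - C x₂) ^ n * (X - C x₁) ^ n) + rl (C η) * γ : Rg f) ∈
      (Pt.aff a₂ b₂ hP₂).ideal ^ n := by
    rw [mul_comm ((X - C x₂) ^ n)]
    exact hγP₂
  obtain ⟨R₂, hR₂⟩ := kc_step hf hP₂ hη0 h3 hγP₂'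
  have hrl : ∀ p : O[X], Rg.map res (rl p : Rg f) = rl (p.map res) := by
    intro p
    ext1
    · rfl
    · show (0 : O[X]).map res = 0
      exact Polynomial.map_zero res
  have s2 : ∀ (a x' d : O) (R : O[X]), Rg.map res (rl ((n : O[X]) * (X - C a) ^ (n - 1) * C d *
      (X - C x') ^ n + C η * R) + γ) = rl ((n : (IsLocalRing.ResidueField O)[X]) *
        (X - C (res a)) ^ (n - 1) * C (res d) * (X - C (res x')) ^ n) + Rg.map res γ := by
    intro a x' d R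
    rw [map_add, hrl]
    congr 2
    simp only [Polynomial.map_add, Polynomial.map_mul, Polynomial.map_pow, Polynomial.map_sub,
      Polynomial.map_natCast, map_X, map_C, hη, C_0, zero_mul, add_zero]
  have g3 := hred _ n _ hR₁
  have g4 := hred _ n _ hR₂
  rw [s2, rP₁, ra₁] at g3
  rw [s2, rP₂, ra₂] at g4
  -- the reduction of γ vanishes
  have hmemn : ∀ (x y x' d : IsLocalRing.ResidueField O) (h : y ^ 2 = (f.map res).eval x),
      (rl ((n : (IsLocalRing.ResidueField O)[X]) * (X - C x) ^ (n - 1) * C d *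
        (X - C x') ^ n) : Rg (f.map res)) ∈ (Pt.aff x y h).ideal ^ (n - 1) := by
    intro x y x' d h
    have e : (rl ((n : (IsLocalRing.ResidueField O)[X]) * (X - C x) ^ (n - 1) * C d *
        (X - C x') ^ n) : Rg (f.map res)) =
        rl (X - C x) ^ (n - 1) * rl ((n : (IsLocalRing.ResidueField O)[X]) * C d *
          (X - C x') ^ n) := by
      rw [← map_pow, ← map_mul]
      congr 1
      ring
    rw [e]
    exact Ideal.mul_mem_right _ _ (Ideal.pow_mem_pow (kc_rl_mem h _ (by simp)) _)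
  have hc1 : (Rg.map res γ).re.natDegree < 2 * n := (natDegree_map_le).trans_lt hγ1
  have hc2 : (Rg.map res γ).im = 0 ∨ 2 * (Rg.map res γ).im.natDegree + 5 ≤ 4 * n := by
    rcases hγ2 with h5 | h5
    · left
      show γ.im.map res = 0
      rw [h5, Polynomial.map_zero]
    · right
      have : (Rg.map res γ).im.natDegree ≤ γ.im.natDegree := natDegree_map_le
      omega
  have hp1 : Rg.map res γ ∈ ((Pt.aff x₁ y₁ hQ₁).map res).ideal ^ (n - 1) := by
    have h5 := Ideal.pow_le_pow_right (Nat.sub_le n 1) g3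
    exact (Ideal.add_mem_iff_right _ (hmemn _ _ _ _ _)).1 h5
  have hp2 : Rg.map res γ ∈ ((Pt.aff x₂ y₂ hQ₂).map res).ideal ^ (n - 1) := by
    have h5 := Ideal.pow_le_pow_right (Nat.sub_le n 1) g4
    exact (Ideal.add_mem_iff_right _ (hmemn _ _ _ _ _)).1 h5
  have hγ0 : Rg.map res γ = 0 := kc_zero hg hn0 _ _ hx hy₁ hy₂ hc1 hc2 hp1 hp2 g1 g2
  rw [hγ0, add_zero] at g3 g4
  rcases hd with rfl | rfl
  · rw [map_one, C_1, mul_one] at g3
    exact kc_last hg hn _ ((Pt.aff x₂ y₂ hQ₂).map res |> fun _ => by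
      show res y₂ ^ 2 = (f.map res).eval (res x₂)
      rw [← map_pow, hQ₂, eval_map, eval₂_at_apply]) hx hy₁ g3
  · rw [map_one, C_1, mul_one] at g4
    exact kc_last hg hn _ (by
      show res y₁ ^ 2 = (f.map res).eval (res x₁)
      rw [← map_pow, hQ₁, eval_map, eval₂_at_apply]) hx.symm hy₂ g4

end Pool.Agent.GTwo
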