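import Pool.Agent.GTwo.Spec2

/-!
# The kernel of reduction: the generator
-/

set_option autoImplicit false

noncomputable section

namespace Pool.Agent.GTwo

open Polynomial
open scoped Classical

section Aux

variable {A : Type} [CommRing A] {f : A[X]}

private theorem kg_nsmul (n : ℕ) (s : Multiset (Pt f)) : idl (n • s) = idl s ^ n := by
  rw [idl, Multiset.map_nsmul, Multiset.prod_nsmul, idl]

private theorem kg_norm_map {B : Type} [CommRing B] (φ : A →+* B) (z : Rg f) :
    QuadraticAlgebra.norm (Rg.map φ z) = (QuadraticAlgebra.norm z).map φ := by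
  rw [QuadraticAlgebra.norm_def, QuadraticAlgebra.norm_def]
  have h1 : (Rg.map φ z).re = z.re.map φ := rfl
  have h2 : (Rg.map φ z).im = z.im.map φ := rfl
  rw [h1, h2]
  simp

/-- the ideal of two points and their conjugates -/
private theorem kg_span (hf : Hyp f) (n : ℕ) {x y x' y' : A} (h : y ^ 2 = f.eval x)
    (h' : y' ^ 2 = f.eval x') :
    idl (n • ({.aff x y h, .aff x' y' h', (Pt.aff x y h).neg, (Pt.aff x' y' h').neg} :
      Multiset (Pt f))) = Ideal.span {(rl ((X - C x) ^ n * (X - C x') ^ n) : Rg f)} := by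
  rw [kg_nsmul, idl]
  simp only [Multiset.insert_eq_cons, Multiset.map_cons, Multiset.map_singleton,
    Multiset.prod_cons, Multiset.prod_singleton]
  have e : (Pt.aff x y h).ideal * ((Pt.aff x' y' h').ideal * ((Pt.aff x y h).neg.ideal *
      (Pt.aff x' y' h').neg.ideal)) = ((Pt.aff x y h).ideal * (Pt.aff x y h).neg.ideal) *
      ((Pt.aff x' y' h').ideal * (Pt.aff x' y' h').neg.ideal) := by ring
  rw [e, Pt.ideal_mul_neg hf, Pt.ideal_mul_neg hf, Ideal.span_singleton_mul_span_singleton,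
    Ideal.span_singleton_pow]
  congr 2
  have e2 : (rl ((X - C x) ^ n * (X - C x') ^ n) : Rg f) =
      (rl (X - C x) * rl (X - C x')) ^ n := by
    rw [mul_pow]
    have e3 : (rl ((X - C x) ^ n * (X - C x') ^ n) : Rg f) =
      rl ((X - C x) ^ n) * rl ((X - C x') ^ n) := map_mul _ _ _
    rw [e3]
    congr 1
    · exact map_pow _ _ _
    · exact map_pow _ _ _
  rw [e2]
  rfl

private theorem kg_lins (n : ℕ) (P Q R T : Pt f) [Nontrivial A] (hP : P ≠ .inf) (hQ : Q ≠ .inf)
    (hR : R ≠ .inf) (hT : T ≠ .inf) :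
    (lins (n • ({P, Q, R, T} : Multiset (Pt f)))).Monic ∧
      (lins (n • ({P, Q, R, T} : Multiset (Pt f)))).natDegree = 4 * n := by
  have hm : ∀ P : Pt f, P ≠ .inf → P.lin.Monic ∧ P.lin.natDegree = 1 := by
    rintro (_ | ⟨x, y, h⟩) hP
    · exact absurd rfl hP
    · exact ⟨monic_X_sub_C x, natDegree_X_sub_C x⟩
  rw [lins, Multiset.map_nsmul, Multiset.prod_nsmul]
  simp only [Multiset.insert_eq_cons, Multiset.map_cons, Multiset.map_singleton,
    Multiset.prod_cons, Multiset.prod_singleton]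
  obtain ⟨m1, d1⟩ := hm P hP
  obtain ⟨m2, d2⟩ := hm Q hQ
  obtain ⟨m3, d3⟩ := hm R hR
  obtain ⟨m4, d4⟩ := hm T hT
  have m34 := m3.mul m4
  have m234 := m2.mul m34
  have m := m1.mul m234
  refine ⟨m.pow n, ?_⟩
  rw [m.natDegree_pow, m1.natDegree_mul m234, m2.natDegree_mul m34, m3.natDegree_mul m4, d1, d2,
    d3, d4]
  ring

/-- a polynomial whose coefficients are divisible by `η` -/
private theorem kg_div [IsDomain A] {η : A} (hη : η ≠ 0) {p : A[X]}
    (h : p.map (Ideal.Quotient.mk (Ideal.span {η})) = 0) :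
    ∃ q : A[X], p = C η * q ∧ q.natDegree = p.natDegree := by
  have h1 : C η ∣ p := by
    rw [C_dvd_iff_dvd_coeff]
    intro i
    have h2 := congrArg (fun t => coeff t i) h
    simp only [coeff_map, coeff_zero] at h2
    rw [Ideal.Quotient.eq_zero_iff_mem, Ideal.mem_span_singleton] at h2
    exact h2
  obtain ⟨q, rfl⟩ := h1
  exact ⟨q, rfl, (natDegree_C_mul hη).symm⟩

end Aux

variable {k : Type} [Field k] (O : ValuationSubring k) {f : O[X]}

/-- the generator of the principal ideal which belongs to a torsion class in the kernel of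
reduction -/
theorem ker_gen (hf : Hyp f) {n : ℕ} (hn : 0 < n) {x₁ y₁ x₂ y₂ a₁ b₁ a₂ b₂ : O}
    (hQ₁ : y₁ ^ 2 = f.eval x₁) (hQ₂ : y₂ ^ 2 = f.eval x₂) (hP₁ : b₁ ^ 2 = f.eval a₁)
    (hP₂ : b₂ ^ 2 = f.eval a₂) {η : O} (hη : IsLocalRing.residue O η = 0) (hη0 : η ≠ 0)
    (h1 : η ∣ a₁ - x₁) (h2 : η ∣ b₁ - y₁) (h3 : η ∣ a₂ - x₂) (h4 : η ∣ b₂ - y₂)
    (hP : Prin ((n • ({.aff a₁ b₁ hP₁, .aff a₂ b₂ hP₂, (Pt.aff x₁ y₁ hQ₁).neg,
      (Pt.aff x₂ y₂ hQ₂).neg} : Multiset (Pt f))).map (Pt.map (algebraMap O k)))) :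
    ∃ γ : Rg f, γ.re.natDegree < 2 * n ∧ (γ.im = 0 ∨ 2 * γ.im.natDegree + 5 ≤ 4 * n) ∧
      rl ((X - C x₁) ^ n * (X - C x₂) ^ n) + rl (C η) * γ ∈
        idl (n • ({.aff a₁ b₁ hP₁, .aff a₂ b₂ hP₂, (Pt.aff x₁ y₁ hQ₁).neg,
          (Pt.aff x₂ y₂ hQ₂).neg} : Multiset (Pt f))) := by
  set K := algebraMap O k with hK
  have hKinj : Function.Injective K := IsFractionRing.injective O k
  set res := IsLocalRing.residue O with hres
  set S : Multiset (Pt f) := n • ({.aff a₁ b₁ hP₁, .aff a₂ b₂ hP₂, (Pt.aff x₁ y₁ hQ₁).neg,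
      (Pt.aff x₂ y₂ hQ₂).neg} : Multiset (Pt f)) with hS
  have hgK : Hyp (f.map K) := hf.map K
  have hgr : Hyp (f.map res) := hf.map res
  obtain ⟨α, hα⟩ := hP
  have hα' : Ideal.span {α} = idl (S.map (Pt.map K)) := hα
  obtain ⟨c', hc', hnorm⟩ := exists_norm hgK hα'
  have hlS := kg_lins (f := f) n (.aff a₁ b₁ hP₁) (.aff a₂ b₂ hP₂) (Pt.aff x₁ y₁ hQ₁).neg
    (Pt.aff x₂ y₂ hQ₂).neg (by simp) (by simp) (by simp [Pt.neg]) (by simp [Pt.neg])
  rw [← hS] at hlS
  have hlSK : (lins (S.map (Pt.map K))).natDegree = 4 * n := by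
    rw [lins_map, hlS.1.natDegree_map, hlS.2]
  have hlSK0 : lins (S.map (Pt.map K)) ≠ 0 := by
    rw [lins_map]
    exact (hlS.1.map K).ne_zero
  have hα0 : α ≠ 0 := by
    rintro rfl
    rw [QuadraticAlgebra.norm_zero] at hnorm
    exact mul_ne_zero (C_ne_zero.2 hc') hlSK0 hnorm.symm
  obtain ⟨c, α₀, hc, hcα, hr0⟩ := exists_primitive O hα0
  have hspan : Ideal.span {Rg.map K α₀} = idl (S.map (Pt.map K)) := by
    rw [hcα, ← hα']
    have hu : IsUnit (rl (C c) : Rg (f.map K)) := by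
      have : IsUnit (C c : k[X]) := isUnit_C.2 (isUnit_iff_ne_zero.2 hc)
      exact this.map (algebraMap k[X] (Rg (f.map K)))
    exact Ideal.span_singleton_mul_left_unit hu α
  have hmem : α₀ ∈ idl S := by
    refine mem_idl_of_map hf K hKinj S ?_
    rw [← hspan]
    exact Ideal.mem_span_singleton_self _
  -- the degree
  have hdg : dg α₀ = 4 * n := by
    obtain ⟨c'', hc'', hnorm'⟩ := exists_norm hgK hspan
    rw [kg_norm_map] at hnorm'
    have h5 : ((QuadraticAlgebra.norm α₀).map K).natDegree = 4 * n := by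
      rw [hnorm', natDegree_C_mul hc'', hlSK]
    rw [natDegree_map_eq_of_injective hKinj] at h5
    exact h5
  obtain ⟨hdre, hdim⟩ := (dg_le hf α₀ (4 * n)).1 hdg.le
  -- congruences
  have key : ∀ {B : Type} [CommRing B] (φ : O →+* B), φ η = 0 →
      S.map (Pt.map φ) = n • ({(Pt.aff x₁ y₁ hQ₁).map φ, (Pt.aff x₂ y₂ hQ₂).map φ,
        ((Pt.aff x₁ y₁ hQ₁).map φ).neg, ((Pt.aff x₂ y₂ hQ₂).map φ).neg} :
          Multiset (Pt (f.map φ))) := by
    intro B _ φ hφ
    have hd : ∀ a b : O, η ∣ a - b → φ a = φ b := by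
      rintro a b ⟨t, ht⟩
      rw [← sub_eq_zero, ← map_sub, ht, map_mul, hφ, zero_mul]
    have e1 : (Pt.aff a₁ b₁ hP₁).map φ = (Pt.aff x₁ y₁ hQ₁).map φ := by
      simp only [Pt.map, hd _ _ h1, hd _ _ h2]
    have e2 : (Pt.aff a₂ b₂ hP₂).map φ = (Pt.aff x₂ y₂ hQ₂).map φ := by
      simp only [Pt.map, hd _ _ h3, hd _ _ h4]
    rw [hS, Multiset.map_nsmul]
    simp only [Multiset.insert_eq_cons, Multiset.map_cons, Multiset.map_singleton, e1, e2,
      Pt.map_neg]
  have hev : ∀ {B : Type} [CommRing B] (φ : O →+* B) (x y : O), y ^ 2 = f.eval x →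
      (φ y) ^ 2 = (f.map φ).eval (φ x) := by
    intro B _ φ x y h
    rw [← map_pow, h, eval_map, eval₂_at_apply]
  -- the residue of the leading coefficient
  have hred : Ideal.span {Rg.map res α₀} =
      Ideal.span {(rl ((X - C (res x₁)) ^ n * (X - C (res x₂)) ^ n) : Rg (f.map res))} := by
    rw [span_reduce O hf hspan hr0, Multiset.map_map]
    have e : S.map (sp O ∘ Pt.map K) = S.map (Pt.map res) :=
      Multiset.map_congr rfl fun P _ => sp_map O P
    rw [e, key res hη]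
    exact kg_span hgr n (hev res _ _ hQ₁) (hev res _ _ hQ₂)
  have hdomr : IsDomain (Rg (f.map res)) := rg_isDomain hgr
  obtain ⟨v, hv⟩ := Ideal.span_singleton_eq_span_singleton.1 hred
  have hmonr : ∀ (R : Type) [CommRing R] [Nontrivial R] (x x' : R),
      ((X - C x) ^ n * (X - C x') ^ n : R[X]).Monic ∧
      ((X - C x) ^ n * (X - C x') ^ n : R[X]).natDegree = 2 * n := by
    intro R _ _ x x'
    refine ⟨((monic_X_sub_C x).pow n).mul ((monic_X_sub_C x').pow n), ?_⟩
    rw [((monic_X_sub_C x).pow n).natDegree_mul ((monic_X_sub_C x').pow n),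
      (monic_X_sub_C x).natDegree_pow, (monic_X_sub_C x').natDegree_pow, natDegree_X_sub_C,
      natDegree_X_sub_C]
    ring
  obtain ⟨hM, hMd⟩ := hmonr _ (res x₁) (res x₂)
  have hu0 : IsUnit (α₀.re.coeff (2 * n)) := by
    rw [← IsLocalRing.residue_ne_zero_iff_isUnit]
    have hv0 : dg (v : Rg (f.map res)) = 0 := by
      have h5 : dg ((v : Rg (f.map res)) * ((v⁻¹ : (Rg (f.map res))ˣ) : Rg (f.map res))) =
          dg (v : Rg (f.map res)) + dg ((v⁻¹ : (Rg (f.map res))ˣ) : Rg (f.map res)) :=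
        dg_mul hgr v.ne_zero (v⁻¹).ne_zero
      rw [Units.mul_inv] at h5
      have h6 : dg (1 : Rg (f.map res)) = 0 := by
        rw [dg, map_one, natDegree_one]
      omega
    obtain ⟨h7, h8⟩ := (dg_le hgr _ 0).1 hv0.le
    have h9 : (v : Rg (f.map res)).im = 0 := by
      rcases h8 with h8 | h8
      · exact h8
      · omega
    have h10 : (v : Rg (f.map res)).re ≠ 0 := by
      intro h
      apply v.ne_zero
      ext1
      · exact h
      · exact h9
    have h11 : (v : Rg (f.map res)).re = C ((v : Rg (f.map res)).re.coeff 0) :=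
      eq_C_of_natDegree_eq_zero (by omega)
    have h12 : (α₀.re.map res) * (v : Rg (f.map res)).re =
        (X - C (res x₁)) ^ n * (X - C (res x₂)) ^ n := by
      have h13 := congrArg QuadraticAlgebra.re hv
      rw [QuadraticAlgebra.re_mul, h9, mul_zero, add_zero] at h13
      exact h13
    intro h14
    have h15 : ((X - C (res x₁)) ^ n * (X - C (res x₂)) ^ n :
        (IsLocalRing.ResidueField O)[X]).coeff (2 * n) = 1 := by
      rw [← hMd]
      exact hM.coeff_natDegree
    rw [← h12, h11, coeff_mul_C, coeff_map, h14, zero_mul] at h15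
    exact zero_ne_one h15
  -- modulo η
  set I : Ideal O := Ideal.span {η} with hI
  have hInt : I ≠ ⊤ := by
    rw [hI, Ne, Ideal.span_singleton_eq_top]
    intro hu
    exact (IsLocalRing.residue_ne_zero_iff_isUnit η).2 hu hη
  have hnt : Nontrivial (O ⧸ I) := Ideal.Quotient.nontrivial_iff.2 hInt
  set π := Ideal.Quotient.mk I with hπ
  have hgπ : Hyp (f.map π) := hf.map π
  have hπη : π η = 0 := by
    rw [hπ, Ideal.Quotient.eq_zero_iff_mem]
    exact Ideal.mem_span_singleton_self η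
  have hdvd : (rl ((X - C (π x₁)) ^ n * (X - C (π x₂)) ^ n) : Rg (f.map π)) ∣ Rg.map π α₀ := by
    rw [← Ideal.mem_span_singleton, ← kg_span hgπ n (hev π _ _ hQ₁) (hev π _ _ hQ₂)]
    have h5 := key π hπη
    have h6 : Rg.map π α₀ ∈ idl (S.map (Pt.map π)) := by
      rw [idl_map]
      exact Ideal.mem_map_of_mem _ hmem
    rw [h5] at h6
    exact h6
  obtain ⟨hd1, hd2⟩ := QuadraticAlgebra.algebraMap_dvd_iff.1 hdvd
  obtain ⟨hMπ, hMπd⟩ := hmonr _ (π x₁) (π x₂)
  obtain ⟨hM0, hM0d⟩ := hmonr _ x₁ x₂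
  have him0 : α₀.im.map π = 0 := by
    by_contra hne
    refine hMπ.not_dvd_of_natDegree_lt hne ?_ hd2
    rw [hMπd]
    have h5 : (α₀.im.map π).natDegree ≤ α₀.im.natDegree := natDegree_map_le
    rcases hdim with h6 | h6
    · rw [h6, Polynomial.map_zero] at hne
      exact absurd rfl hne
    · omega
  set D : O[X] := α₀.re - C (α₀.re.coeff (2 * n)) * ((X - C x₁) ^ n * (X - C x₂) ^ n) with hD
  have hDd : D.natDegree < 2 * n := by
    have h5 : D.natDegree ≤ 2 * n := by
      refine (natDegree_sub_le _ _).trans (max_le (by omega) ?_)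
      exact (natDegree_C_mul_le _ _).trans hM0d.le
    have h6 : D.coeff (2 * n) = 0 := by
      rw [hD, coeff_sub, coeff_C_mul]
      have h7 : ((X - C x₁) ^ n * (X - C x₂) ^ n : O[X]).coeff (2 * n) = 1 := by
        rw [← hM0d]
        exact hM0.coeff_natDegree
      rw [h7, mul_one, sub_self]
    rcases h5.lt_or_eq with h7 | h7
    · exact h7
    · exfalso
      rw [← h7, ← leadingCoeff, leadingCoeff_eq_zero] at h6
      rw [h6, natDegree_zero] at h7
      omega
  have hD0 : D.map π = 0 := by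
    by_contra hne
    refine hMπ.not_dvd_of_natDegree_lt hne ?_ ?_
    · rw [hMπd]
      exact natDegree_map_le.trans_lt hDd
    · rw [hD, Polynomial.map_sub, Polynomial.map_mul]
      refine dvd_sub hd1 (Dvd.dvd.mul_left ?_ _)
      simp only [Polynomial.map_mul, Polynomial.map_pow, Polynomial.map_sub, map_X, map_C]
      exact dvd_rfl
  obtain ⟨D', hD'1, hD'2⟩ := kg_div hη0 hD0
  obtain ⟨M', hM'1, hM'2⟩ := kg_div hη0 him0
  obtain ⟨w, hw⟩ := hu0.exists_left_inv
  refine ⟨rl (C w) * ⟨D', M'⟩, ?_, ?_, ?_⟩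
  · have h5 : (rl (C w) * ⟨D', M'⟩ : Rg f).re = C w * D' := by
      have : (rl (C w) * ⟨D', M'⟩ : Rg f).re = C w * D' + f * 0 * M' := rfl
      rw [this, mul_zero, zero_mul, add_zero]
    rw [h5]
    refine (natDegree_C_mul_le _ _).trans_lt ?_
    rw [hD'2]
    exact hDd
  · have h5 : (rl (C w) * ⟨D', M'⟩ : Rg f).im = C w * M' := by
      rw [QuadraticAlgebra.im_mul]
      have h6 : (rl (C w) : Rg f).re = C w := rfl
      have h7 : (rl (C w) : Rg f).im = 0 := rfl
      rw [h6, h7]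
      ring
    rw [h5]
    rcases hdim with h6 | h6
    · left
      have : M' = 0 := by
        rw [h6] at hM'1
        exact (mul_eq_zero.1 hM'1.symm).resolve_left (C_ne_zero.2 hη0)
      rw [this, mul_zero]
    · right
      have : (C w * M').natDegree ≤ M'.natDegree := natDegree_C_mul_le _ _
      omega
  · have h5 : (rl ((X - C x₁) ^ n * (X - C x₂) ^ n) + rl (C η) * (rl (C w) * ⟨D', M'⟩) : Rg f) =
        rl (C w) * α₀ := by
      have h6 : α₀ = rl (C (α₀.re.coeff (2 * n)) * ((X - C x₁) ^ n * (X - C x₂) ^ n)) +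
          rl (C η) * ⟨D', M'⟩ := by
        ext1
        · have : (rl (C (α₀.re.coeff (2 * n)) * ((X - C x₁) ^ n * (X - C x₂) ^ n)) +
              rl (C η) * ⟨D', M'⟩ : Rg f).re =
              C (α₀.re.coeff (2 * n)) * ((X - C x₁) ^ n * (X - C x₂) ^ n) +
                (C η * D' + f * 0 * M') := rfl
          rw [this, ← hD'1, hD]
          ring
        · have : (rl (C (α₀.re.coeff (2 * n)) * ((X - C x₁) ^ n * (X - C x₂) ^ n)) +
              rl (C η) * ⟨D', M'⟩ : Rg f).im = (rl (C η) * ⟨D', M'⟩ : Rg f).im := by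
            rw [QuadraticAlgebra.im_add]
            exact zero_add _
          rw [this, QuadraticAlgebra.im_mul]
          have h6 : (rl (C η) : Rg f).re = C η := rfl
          have h7 : (rl (C η) : Rg f).im = 0 := rfl
          rw [h6, h7, hM'1]
          ring
      conv_rhs => rw [h6]
      have h7 : (rl (C (α₀.re.coeff (2 * n)) * ((X - C x₁) ^ n * (X - C x₂) ^ n)) : Rg f) =
          rl (C (α₀.re.coeff (2 * n))) * rl ((X - C x₁) ^ n * (X - C x₂) ^ n) := map_mul _ _ _
      have h8 : (rl (C w) * rl (C (α₀.re.coeff (2 * n))) : Rg f) = 1 := by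
        have : (rl (C w) * rl (C (α₀.re.coeff (2 * n))) : Rg f) =
          rl (C w * C (α₀.re.coeff (2 * n))) := (map_mul _ _ _).symm
        rw [this, ← C_mul, hw, C_1]
        exact map_one _
      rw [h7]
      linear_combination (-(rl ((X - C x₁) ^ n * (X - C x₂) ^ n) : Rg f)) * h8
    rw [h5]
    exact Ideal.mul_mem_left _ _ hmem

end Pool.Agent.GTwo
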