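import Pool.Agent.GTwo.JGroup
import Pool.Agent.GTwo.Mumford
import Pool.Agent.GTwo.Interp

/-!
# Every class is the sum of two points
-/

set_option autoImplicit false

noncomputable section

namespace Pool.Agent.GTwo

open Polynomial
open scoped Classical

variable {k : Type} [Field k] {f : k[X]}

/-- the generic case: no point at infinity and no pair of conjugate points -/
private lemma two_generic [IsAlgClosed k] (hf : Hyp f) {P₁ P₂ P₃ : Pt f} (h₁ : P₁ ≠ .inf)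
    (h₂ : P₂ ≠ .inf) (h₃ : P₃ ≠ .inf) (h₁₂ : P₁.neg ≠ P₂) (h₁₃ : P₁.neg ≠ P₃)
    (h₂₁ : P₂.neg ≠ P₁) (h₂₃ : P₂.neg ≠ P₃) (h₃₁ : P₃.neg ≠ P₁) (h₃₂ : P₃.neg ≠ P₂) :
    ∃ P Q : Pt f, cl P₁ + cl P₂ + cl P₃ = cl P + cl Q := by
  set s : Multiset (Pt f) := P₁ ::ₘ P₂ ::ₘ P₃ ::ₘ 0 with hs
  have hinf : Pt.inf ∉ s := by
    rw [hs]
    simp only [Multiset.mem_cons, Multiset.notMem_zero, or_false, not_or]
    exact ⟨h₁.symm, h₂.symm, h₃.symm⟩
  have hneg : ∀ P ∈ s, P.neg ∉ s.erase P := by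
    intro P hP
    rw [hs] at hP
    simp only [Multiset.mem_cons, Multiset.notMem_zero, or_false] at hP
    rcases hP with rfl | rfl | rfl
    · rw [hs, Multiset.erase_cons_head]
      simp only [Multiset.mem_cons, Multiset.notMem_zero, or_false, not_or]
      exact ⟨h₁₂, h₁₃⟩
    · rw [hs, Multiset.cons_swap, Multiset.erase_cons_head]
      simp only [Multiset.mem_cons, Multiset.notMem_zero, or_false, not_or]
      exact ⟨h₂₁, h₂₃⟩
    · rw [hs, Multiset.cons_swap P₂ P, Multiset.cons_swap P₁ P, Multiset.erase_cons_head]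
      simp only [Multiset.mem_cons, Multiset.notMem_zero, or_false, not_or]
      exact ⟨h₃₁, h₃₂⟩
  obtain ⟨V, hV, hd, hdeg⟩ := exists_interp hf s hinf hneg
  obtain ⟨x₁, e₁, hP₁⟩ := hV P₁ (by simp [hs])
  obtain ⟨x₂, e₂, hP₂⟩ := hV P₂ (by simp [hs])
  obtain ⟨x₃, e₃, hP₃⟩ := hV P₃ (by simp [hs])
  have hlins : lins s = (X - C x₁) * ((X - C x₂) * (X - C x₃)) := by
    rw [hs]
    simp [lins, hP₁, hP₂, hP₃, Pt.lin]
  have hWm : (lins s).Monic := by
    rw [hlins]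
    exact (monic_X_sub_C _).mul ((monic_X_sub_C _).mul (monic_X_sub_C _))
  have hWd : (lins s).natDegree = 3 := by
    rw [hlins, (monic_X_sub_C _).natDegree_mul ((monic_X_sub_C _).mul (monic_X_sub_C _)),
      (monic_X_sub_C _).natDegree_mul (monic_X_sub_C _), natDegree_X_sub_C, natDegree_X_sub_C,
      natDegree_X_sub_C]
  obtain ⟨G₀, hG₀⟩ := hd
  set G := -G₀ with hG
  have hfV : f - V ^ 2 = lins s * G := by
    rw [hG, mul_neg, ← hG₀]
    ring
  have hVd : (V ^ 2).degree < f.degree := by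
    have h1 : V.natDegree ≤ 2 := by
      have h2 : V.degree < (3 : ℕ) := by simpa [hs] using hdeg
      by_cases h0 : V = 0
      · rw [h0]
        simp
      · have := (natDegree_lt_iff_degree_lt h0).2 h2
        omega
    have h3 : (V ^ 2).natDegree ≤ 4 := by
      rw [natDegree_pow]
      omega
    rw [degree_eq_natDegree hf.monic.ne_zero, hf.deg]
    calc (V ^ 2).degree ≤ ((V ^ 2).natDegree : WithBot ℕ) := degree_le_natDegree
      _ ≤ (4 : ℕ) := by exact_mod_cast h3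
      _ < (5 : ℕ) := by exact_mod_cast (by norm_num : 4 < 5)
  have hm : (f - V ^ 2).Monic := hf.monic.sub_of_left hVd
  have hGm : G.Monic := by
    rw [hfV] at hm
    exact hWm.of_mul_monic_left hm
  have hGd : G.natDegree = 2 := by
    have h1 : (f - V ^ 2).natDegree = 5 := by
      rw [natDegree_eq_of_degree_eq (degree_sub_eq_left_of_degree_lt hVd), hf.deg]
    rw [hfV, hWm.natDegree_mul hGm, hWd] at h1
    omega
  obtain ⟨r₁, r₂, hr⟩ : ∃ r₁ r₂ : k, G = (X - C r₁) * (X - C r₂) := by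
    obtain ⟨r₁, hr₁⟩ := IsAlgClosed.exists_root G (by
      rw [degree_eq_natDegree hGm.ne_zero, hGd]
      norm_num)
    obtain ⟨H, hH⟩ := dvd_iff_isRoot.2 hr₁
    have hHm : H.Monic := by
      rw [hH] at hGm
      exact (monic_X_sub_C r₁).of_mul_monic_left hGm
    have hHd : H.natDegree = 1 := by
      rw [hH, (monic_X_sub_C r₁).natDegree_mul hHm, natDegree_X_sub_C] at hGd
      omega
    refine ⟨r₁, -H.coeff 0, ?_⟩
    rw [hH]
    congr 1
    rw [map_neg, sub_neg_eq_add]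
    exact hHm.eq_X_add_C hHd
  have hroot : ∀ r, G.eval r = 0 → (V.eval r) ^ 2 = f.eval r := by
    intro r hr'
    have h1 := congrArg (eval r) hfV
    rw [eval_sub, eval_pow, eval_mul, hr', mul_zero] at h1
    exact (sub_eq_zero.1 h1).symm
  have hR₁ : (V.eval r₁) ^ 2 = f.eval r₁ := hroot r₁ (by rw [hr]; simp)
  have hR₂ : (V.eval r₂) ^ 2 = f.eval r₂ := hroot r₂ (by rw [hr]; simp)
  have hprin : Prin (s + (Pt.aff r₁ (V.eval r₁) hR₁ ::ₘ Pt.aff r₂ (V.eval r₂) hR₂ ::ₘ 0)) := by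
    apply mumford_prin hf V _ _ (c := -1) (by norm_num)
    · have h1 : lins (s + (Pt.aff r₁ (V.eval r₁) hR₁ ::ₘ Pt.aff r₂ (V.eval r₂) hR₂ ::ₘ 0)) =
          lins s * G := by
        rw [hr]
        unfold lins
        rw [Multiset.map_add, Multiset.prod_add]
        congr 1
        rw [Multiset.map_cons, Multiset.map_cons, Multiset.map_zero, Multiset.prod_cons,
          Multiset.prod_cons, Multiset.prod_zero, mul_one]
        rfl
      rw [h1, ← hfV]
      simp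
    · intro P hP
      rw [Multiset.mem_add] at hP
      rcases hP with hP | hP
      · exact hV P hP
      · simp only [Multiset.mem_cons, Multiset.notMem_zero, or_false] at hP
        rcases hP with rfl | rfl
        · exact ⟨_, _, rfl⟩
        · exact ⟨_, _, rfl⟩
  rw [← sum_cl_eq_zero_iff hf] at hprin
  refine ⟨(Pt.aff r₁ (V.eval r₁) hR₁).neg, (Pt.aff r₂ (V.eval r₂) hR₂).neg, ?_⟩
  rw [cl_neg hf, cl_neg hf]
  simp only [hs, Multiset.cons_add, zero_add, Multiset.map_cons, Multiset.map_zero,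
    Multiset.sum_cons, Multiset.sum_zero, add_zero] at hprin
  rw [← sub_eq_zero]
  rw [← hprin]
  abel

/-- three points -/
private lemma two_three [IsAlgClosed k] (hf : Hyp f) (P₁ P₂ P₃ : Pt f) :
    ∃ P Q : Pt f, cl P₁ + cl P₂ + cl P₃ = cl P + cl Q := by
  by_cases h₁ : P₁ = .inf
  · exact ⟨P₂, P₃, by rw [h₁, cl_inf, zero_add]⟩
  by_cases h₂ : P₂ = .inf
  · exact ⟨P₁, P₃, by rw [h₂, cl_inf, add_zero]⟩
  by_cases h₃ : P₃ = .inf
  · exact ⟨P₁, P₂, by rw [h₃, cl_inf, add_zero]⟩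
  by_cases h₁₂ : P₁.neg = P₂
  · exact ⟨P₃, .inf, by rw [← h₁₂, cl_neg hf, cl_inf]; abel⟩
  by_cases h₁₃ : P₁.neg = P₃
  · exact ⟨P₂, .inf, by rw [← h₁₃, cl_neg hf, cl_inf]; abel⟩
  by_cases h₂₁ : P₂.neg = P₁
  · exact ⟨P₃, .inf, by rw [← h₂₁, cl_neg hf, cl_inf]; abel⟩
  by_cases h₂₃ : P₂.neg = P₃
  · exact ⟨P₁, .inf, by rw [← h₂₃, cl_neg hf, cl_inf]; abel⟩
  by_cases h₃₁ : P₃.neg = P₁
  · exact ⟨P₂, .inf, by rw [← h₃₁, cl_neg hf, cl_inf]; abel⟩
  by_cases h₃₂ : P₃.neg = P₂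
  · exact ⟨P₁, .inf, by rw [← h₃₂, cl_neg hf, cl_inf]; abel⟩
  exact two_generic hf h₁ h₂ h₃ h₁₂ h₁₃ h₂₁ h₂₃ h₃₁ h₃₂

theorem exists_two [IsAlgClosed k] (hf : Hyp f) (c : J f) : ∃ P Q : Pt f, c = cl P + cl Q := by
  obtain ⟨s, rfl⟩ := exists_multiset hf c
  induction s using Multiset.induction_on with
  | empty => exact ⟨.inf, .inf, by rw [cl_inf]; simp⟩
  | cons P s ih =>
    obtain ⟨Q, R, h⟩ := ih
    obtain ⟨A, B, h'⟩ := two_three hf P Q R
    refine ⟨A, B, ?_⟩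
    rw [Multiset.map_cons, Multiset.sum_cons, h, ← h', add_assoc]

end Pool.Agent.GTwo
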