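import Pool.Agent.GTwo.Unique
import Pool.Agent.GTwo.Two
import Pool.Agent.GTwo.KerGen
import Pool.Agent.GTwo.KerContra

/-!
# The kernel of reduction has no torsion prime to the residue characteristic
-/

set_option autoImplicit false

noncomputable section

namespace Pool.Agent.GTwo

open Polynomial
open scoped Classical

variable {k : Type} [Field k] (O : ValuationSubring k) {f : O[X]}

/-- the residue field is infinite -/
private theorem kn_infinite [IsAlgClosed k] : Infinite (IsLocalRing.ResidueField O) := by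
  by_contra hfin
  rw [not_infinite_iff_finite] at hfin
  have := Fintype.ofFinite (IsLocalRing.ResidueField O)
  set q := Fintype.card (IsLocalRing.ResidueField O) with hq
  have hq1 : 1 < q := Fintype.one_lt_card
  set p : O[X] := X ^ q + (-X + 1) with hp
  have hlow : (-X + 1 : O[X]).degree < q := by
    refine (degree_add_le _ _).trans_lt (max_lt ?_ ?_)
    · rw [degree_neg, degree_X]
      exact_mod_cast hq1
    · rw [degree_one]
      exact_mod_cast (by omega : 0 < q)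
  have hmon : p.Monic := monic_X_pow_add hlow
  have hdeg : (p.map (algebraMap O k)).degree ≠ 0 := by
    rw [hmon.degree_map, hp, degree_add_eq_left_of_degree_lt (by rw [degree_X_pow]; exact hlow),
      degree_X_pow]
    exact_mod_cast (by omega : q ≠ 0)
  obtain ⟨r, hr⟩ := IsAlgClosed.exists_root (p.map (algebraMap O k)) hdeg
  have hint : IsIntegral O r := ⟨p, hmon, by rw [← eval_map]; exact hr⟩
  obtain ⟨s, hs⟩ := IsIntegrallyClosed.algebraMap_eq_of_integral hint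
  have h1 : p.eval s = 0 := by
    have h2 : (p.map (algebraMap O k)).eval (algebraMap O k s) = 0 := by
      rw [hs]
      exact hr
    rw [eval_map, eval₂_at_apply] at h2
    exact (IsFractionRing.injective O k) (h2.trans (map_zero _).symm)
  have h3 : s ^ q + (-s + 1) = 0 := by
    rw [hp] at h1
    simpa using h1
  have h4 := congrArg (IsLocalRing.residue O) h3
  rw [map_add, map_pow, map_add, map_neg, map_one, map_zero, FiniteField.pow_card] at h4
  have h5 : (1 : IsLocalRing.ResidueField O) = 0 := by linear_combination h4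
  exact one_ne_zero h5

private theorem kn_dvd {x y a b : O} (hQ : y ^ 2 = f.eval x) (hP : b ^ 2 = f.eval a)
    (hb : IsLocalRing.residue O b = IsLocalRing.residue O y)
    (hy : IsLocalRing.residue O y ≠ 0) (h2 : IsUnit (2 : O)) : a - x ∣ b - y := by
  have h1 : a - x ∣ (b - y) * (b + y) := by
    have e : (b - y) * (b + y) = f.eval a - f.eval x := by
      rw [← hQ, ← hP]
      ring
    rw [e]
    exact sub_dvd_eval_sub a x f
  have hu : IsUnit (b + y) := by
    rw [← IsLocalRing.residue_ne_zero_iff_isUnit, map_add, hb, ← two_mul]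
    refine mul_ne_zero ?_ hy
    have h3 := (h2.map (IsLocalRing.residue O)).ne_zero
    rwa [map_ofNat] at h3
  obtain ⟨u, hu⟩ := hu
  rw [← hu] at h1
  exact (Units.dvd_mul_right).1 h1

private theorem kn_aux (hf : Hyp f) {n : ℕ}
    (hn : (n : IsLocalRing.ResidueField O) ≠ 0) {c : J (f.map (algebraMap O k))}
    (hc : n • c = 0) {x₁ y₁ x₂ y₂ a₁ b₁ a₂ b₂ : O}
    (hQ₁ : y₁ ^ 2 = f.eval x₁) (hQ₂ : y₂ ^ 2 = f.eval x₂) (hP₁ : b₁ ^ 2 = f.eval a₁)
    (hP₂ : b₂ ^ 2 = f.eval a₂)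
    (hx : IsLocalRing.residue O x₁ ≠ IsLocalRing.residue O x₂)
    (hy₁ : IsLocalRing.residue O y₁ ≠ 0) (hy₂ : IsLocalRing.residue O y₂ ≠ 0)
    (hra₁ : IsLocalRing.residue O a₁ = IsLocalRing.residue O x₁)
    (hrb₁ : IsLocalRing.residue O b₁ = IsLocalRing.residue O y₁)
    (hra₂ : IsLocalRing.residue O a₂ = IsLocalRing.residue O x₂)
    (hrb₂ : IsLocalRing.residue O b₂ = IsLocalRing.residue O y₂)
    (he : c + cl ((Pt.aff x₁ y₁ hQ₁).map (algebraMap O k)) +
      cl ((Pt.aff x₂ y₂ hQ₂).map (algebraMap O k)) =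
      cl ((Pt.aff a₁ b₁ hP₁).map (algebraMap O k)) +
        cl ((Pt.aff a₂ b₂ hP₂).map (algebraMap O k))) : c = 0 := by
  have hgK : Hyp (f.map (algebraMap O k)) := hf.map _
  have hn0 : 0 < n := by
    rcases Nat.eq_zero_or_pos n with rfl | h
    · exact absurd Nat.cast_zero hn
    · exact h
  have d1 := kn_dvd O hQ₁ hP₁ hrb₁ hy₁ hf.two
  have d2 := kn_dvd O hQ₂ hP₂ hrb₂ hy₂ hf.two
  -- principality
  have hPrin : Prin ((n • ({.aff a₁ b₁ hP₁, .aff a₂ b₂ hP₂, (Pt.aff x₁ y₁ hQ₁).neg,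
      (Pt.aff x₂ y₂ hQ₂).neg} : Multiset (Pt f))).map (Pt.map (algebraMap O k))) := by
    rw [← sum_cl_eq_zero_iff hgK, Multiset.map_nsmul, Multiset.map_nsmul, Multiset.sum_nsmul]
    simp only [Multiset.insert_eq_cons, Multiset.map_cons, Multiset.map_singleton,
      Multiset.sum_cons, Multiset.sum_singleton, Pt.map_neg, cl_neg hgK]
    have e : cl ((Pt.aff a₁ b₁ hP₁).map (algebraMap O k)) +
        (cl ((Pt.aff a₂ b₂ hP₂).map (algebraMap O k)) +
        (-cl ((Pt.aff x₁ y₁ hQ₁).map (algebraMap O k)) +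
          -cl ((Pt.aff x₂ y₂ hQ₂).map (algebraMap O k)))) = c := by
      rw [← add_assoc, ← he]
      abel
    rw [e]
    exact hc
  have main : ∀ (η t₁ t₂ : O), η ≠ 0 → IsLocalRing.residue O η = 0 → a₁ - x₁ = η * t₁ →
      a₂ - x₂ = η * t₂ → (t₁ = 1 ∨ t₂ = 1) → False := by
    intro η t₁ t₂ hη0 hη h1 h3 ht
    have g1 : η ∣ a₁ - x₁ := ⟨t₁, h1⟩
    have g3 : η ∣ a₂ - x₂ := ⟨t₂, h3⟩
    obtain ⟨γ, hγ1, hγ2, hγ3⟩ := ker_gen O hf hn0 hQ₁ hQ₂ hP₁ hP₂ hη hη0 g1 (g1.trans d1) g3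
      (g3.trans d2) hPrin
    exact ker_contra O hf hn hQ₁ hQ₂ hP₁ hP₂ hη hη0 h1 (g1.trans d1) h3 (g3.trans d2) ht hx hy₁
      hy₂ hγ1 hγ2 hγ3
  have r1 : IsLocalRing.residue O (a₁ - x₁) = 0 := by rw [map_sub, hra₁, sub_self]
  have r2 : IsLocalRing.residue O (a₂ - x₂) = 0 := by rw [map_sub, hra₂, sub_self]
  by_cases h0 : a₁ - x₁ = 0 ∧ a₂ - x₂ = 0
  · obtain ⟨z1, z2⟩ := h0
    rw [z1] at d1
    rw [z2] at d2
    have w1 : b₁ = y₁ := sub_eq_zero.1 (zero_dvd_iff.1 d1)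
    have w2 : b₂ = y₂ := sub_eq_zero.1 (zero_dvd_iff.1 d2)
    have v1 : a₁ = x₁ := sub_eq_zero.1 z1
    have v2 : a₂ = x₂ := sub_eq_zero.1 z2
    subst w1 w2 v1 v2
    rw [add_assoc] at he
    exact add_eq_right.1 he
  · exfalso
    rcases ValuationRing.dvd_total (a₁ - x₁) (a₂ - x₂) with hd | hd
    · have hne : a₁ - x₁ ≠ 0 := by
        intro hz
        apply h0
        rw [hz, zero_dvd_iff] at hd
        exact ⟨hz, hd⟩
      obtain ⟨t, ht⟩ := hd
      exact main _ 1 t hne r1 (mul_one _).symm ht (Or.inl rfl)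
    · have hne : a₂ - x₂ ≠ 0 := by
        intro hz
        apply h0
        rw [hz, zero_dvd_iff] at hd
        exact ⟨hd, hz⟩
      obtain ⟨t, ht⟩ := hd
      exact main _ t 1 hne r2 ht (mul_one _).symm (Or.inr rfl)

/-- a point whose specialization is affine is integral -/
private theorem kn_int {x y : O} (hQ : y ^ 2 = f.eval x) {R : Pt (f.map (algebraMap O k))}
    (hR : sp O R = (Pt.aff x y hQ).map (IsLocalRing.residue O)) :
    ∃ (a b : O) (hP : b ^ 2 = f.eval a), R = (Pt.aff a b hP).map (algebraMap O k) ∧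
      IsLocalRing.residue O a = IsLocalRing.residue O x ∧
      IsLocalRing.residue O b = IsLocalRing.residue O y := by
  by_cases hex : ∃ P₀ : Pt f, P₀.map (algebraMap O k) = R
  · obtain ⟨P₀, rfl⟩ := hex
    rw [sp_map] at hR
    rcases P₀ with _ | ⟨a, b, hP⟩
    · cases hR
    · exact ⟨a, b, hP, rfl, (Pt.aff.inj hR).1, (Pt.aff.inj hR).2⟩
  · push Not at hex
    rw [sp_of_forall_ne O hex] at hR
    cases hR

/-- the kernel of reduction has no torsion of order prime to the residue characteristic -/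
theorem ker_torsion [IsAlgClosed k] (hf : Hyp f)
    (Sp : J (f.map (algebraMap O k)) →+ J (f.map (IsLocalRing.residue O)))
    (hSp : ∀ P, Sp (cl P) = cl (sp O P)) {n : ℕ}
    (hn : (n : IsLocalRing.ResidueField O) ≠ 0) {c : J (f.map (algebraMap O k))}
    (h : Sp c = 0) (hc : n • c = 0) : c = 0 := by
  have hgK : Hyp (f.map (algebraMap O k)) := hf.map _
  have hgr : Hyp (f.map (IsLocalRing.residue O)) := hf.map _
  have hinf := kn_infinite O
  -- two good points
  have hset : {t : IsLocalRing.ResidueField O | (f.map (IsLocalRing.residue O)).eval t ≠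
      0}.Infinite := by
    have h1 : {t : IsLocalRing.ResidueField O |
        (f.map (IsLocalRing.residue O)).IsRoot t}.Finite :=
      finite_setOfPred_isRoot hgr.monic.ne_zero
    exact h1.infinite_compl
  obtain ⟨t₁, ht₁, t₂, ht₂, hne⟩ := hset.nontrivial
  have hpt : ∀ t : IsLocalRing.ResidueField O, (f.map (IsLocalRing.residue O)).eval t ≠ 0 →
      ∃ (x y : O), y ^ 2 = f.eval x ∧ IsLocalRing.residue O x = t ∧
        IsLocalRing.residue O y ≠ 0 := by
    intro t ht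
    obtain ⟨x, rfl⟩ := IsLocalRing.residue_surjective t
    obtain ⟨z, hz⟩ := IsAlgClosed.exists_pow_nat_eq
      ((f.map (algebraMap O k)).eval (algebraMap O k x)) (two_pos)
    obtain ⟨P₀, hP₀⟩ := exists_integral O hf hz x.2
    rcases P₀ with _ | ⟨a, b, hab⟩
    · cases hP₀
    · have h2 : a = x := (IsFractionRing.injective O k) (Pt.aff.inj hP₀).1
      subst h2
      refine ⟨a, b, hab, rfl, ?_⟩
      intro h3
      apply ht
      rw [eval_map, eval₂_at_apply, ← hab, map_pow, h3]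
      exact zero_pow two_ne_zero
  obtain ⟨x₁, y₁, hQ₁, rfl, hy₁⟩ := hpt t₁ ht₁
  obtain ⟨x₂, y₂, hQ₂, rfl, hy₂⟩ := hpt t₂ ht₂
  obtain ⟨R₁, R₂, hR⟩ := exists_two hgK (c + cl ((Pt.aff x₁ y₁ hQ₁).map (algebraMap O k)) +
      cl ((Pt.aff x₂ y₂ hQ₂).map (algebraMap O k)))
  have hspec := congrArg Sp hR
  rw [map_add, map_add, map_add, h, zero_add, hSp, hSp, hSp, hSp, sp_map, sp_map] at hspec
  rcases cl_add_eq hgr hspec with ⟨e1, e2⟩ | ⟨e1, e2⟩ | ⟨e1, -⟩
  · obtain ⟨a₁, b₁, hP₁, rfl, hra₁, hrb₁⟩ := kn_int O hQ₁ e1.symm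
    obtain ⟨a₂, b₂, hP₂, rfl, hra₂, hrb₂⟩ := kn_int O hQ₂ e2.symm
    exact kn_aux O hf hn hc hQ₁ hQ₂ hP₁ hP₂ hne hy₁ hy₂ hra₁ hrb₁ hra₂ hrb₂ hR
  · obtain ⟨a₁, b₁, hP₁, rfl, hra₁, hrb₁⟩ := kn_int O hQ₁ e1.symm
    obtain ⟨a₂, b₂, hP₂, rfl, hra₂, hrb₂⟩ := kn_int O hQ₂ e2.symm
    exact kn_aux O hf hn hc hQ₁ hQ₂ hP₁ hP₂ hne hy₁ hy₂ hra₁ hrb₁ hra₂ hrb₂
      (hR.trans (add_comm _ _))
  · exfalso
    exact hne (Pt.aff.inj e1).1.symm

end Pool.Agent.GTwo
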