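import Pool.Agent.GTwo.Unique
import Pool.Agent.GTwo.Two
import Pool.Agent.GTwo.Halve
import Pool.Agent.GTwo.Act
import Pool.Agent.GTwo.Place
import Pool.Agent.GTwo.Orb
import Pool.Agent.GTwo.Core

/-!
# New elements of the annihilator
-/

set_option autoImplicit false

noncomputable section

namespace Pool.Agent.GTwo

open Polynomial
open scoped Classical

/-- A finite set of algebraic numbers which contains the coordinates of a point. -/
private def coords {f : (AlgebraicClosure ℚ)[X]} : Pt f → Finset (AlgebraicClosure ℚ)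
  | .inf => ∅
  | .aff x y _ => {x, y}

private theorem act_eq_self {f : (AlgebraicClosure ℚ)[X]}
    (σ : AlgebraicClosure ℚ ≃+* AlgebraicClosure ℚ)
    (h : f.map (σ : AlgebraicClosure ℚ →+* AlgebraicClosure ℚ) = f) (P : Pt f)
    (hP : ∀ s ∈ coords P, σ s = s) : P.act σ h = P := by
  rcases P with _ | ⟨x, y, e⟩
  · rfl
  · have h1 : σ x = x := hP x (by simp [coords])
    have h2 : σ y = y := hP y (by simp [coords])
    show Pt.aff (σ x) (σ y) _ = Pt.aff x y e
    congr 1

private theorem pow_sub {G : Type} [AddCommGroup G] {c c' : G} {n n' : ℕ} (hn : 2 ^ n • c = 0)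
    (hn' : 2 ^ n' • c' = 0) : 2 ^ (n + n') • (c - c') = 0 := by
  have h1 : 2 ^ (n + n') • c = 0 := by
    rw [add_comm, pow_add, mul_smul, hn, smul_zero]
  have h2 : 2 ^ (n + n') • c' = 0 := by rw [pow_add, mul_smul, hn', smul_zero]
  rw [smul_sub, h1, h2, sub_zero]

private theorem sub_aux {G : Type} [AddCommGroup G] {u z u' z' τ : G} (h : u - z = τ)
    (h' : u' - z' = τ) : u' + z = u + z' := by
  have h1 : u' + z - (u + z') = (u' - z') - (u - z) := by abel
  rw [← sub_eq_zero, h1, h, h', sub_self]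

private theorem fix_aux {G : Type} [AddCommGroup G] {φ : G →+ G} {m : ℤ} {x : G}
    (h : φ (m • x) = m • x) : m • (φ x - x) = 0 := by
  rw [smul_sub, ← map_zsmul, h, sub_self]

private theorem natAbs_aux {G : Type} [AddCommGroup G] {g : G} {m : ℤ} (h : m • g = 0) :
    m.natAbs • g = 0 := by
  rcases Int.natAbs_eq m with h4 | h4
  · rw [h4, natCast_zsmul] at h
    exact h
  · rw [h4, neg_smul, natCast_zsmul, neg_eq_zero] at h
    exact h

/-- A torsion element which is killed by all the maps of two places vanishes. -/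
private theorem ker_two {f : (AlgebraicClosure ℚ)[X]} {l : Bool → ℕ} (hl : ∀ i, (l i).Prime)
    (hne : l true ≠ l false) {G : Bool → Type} [∀ i, AddCommGroup (G i)]
    (Sp : ∀ i, J f →+ G i)
    (hS : ∀ i (n : ℕ), ¬ l i ∣ n → ∀ c, Sp i c = 0 → n • c = 0 → c = 0) (c : J f)
    (hc : ∀ i, Sp i c = 0) (hn : ∃ n : ℕ, 0 < n ∧ n • c = 0) : c = 0 := by
  obtain ⟨n, hn0, hn⟩ := hn
  induction n using Nat.strong_induction_on generalizing c with
  | _ n ih =>
    by_cases h1 : n = 1
    · rw [h1, one_smul] at hn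
      exact hn
    · obtain ⟨q, hq, m, rfl⟩ := Nat.exists_prime_and_dvd h1
      have hm0 : 0 < m := Nat.pos_of_mul_pos_left hn0 |> fun h => by
        rcases Nat.eq_zero_or_pos m with h' | h'
        · simp [h'] at hn0
        · exact h'
      -- c' = m • c is killed by q
      have hc' : m • c = 0 := by
        have hex : ∃ i, l i ≠ q := by
          by_contra hcon
          push Not at hcon
          exact hne ((hcon true).trans (hcon false).symm)
        obtain ⟨i, hi⟩ := hex
        refine hS i q ?_ (m • c) (by rw [map_nsmul, hc i, smul_zero]) (by rw [← mul_smul]; exact hn)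
        intro hd
        exact hi ((Nat.prime_dvd_prime_iff_eq (hl i) hq).1 hd)
      exact ih m (by have := hq.two_le; nlinarith) c hc hm0 hc'

/-- The annihilator is not contained in the division hull of a finitely generated group. -/
theorem exists_new {f : (AlgebraicClosure ℚ)[X]} (hf : Hyp f) (a : J f)
    (ha : ∀ n : ℕ, 0 < n → n • a ≠ 0) (B : Finset (J f)) :
    ∃ (N M : ℕ) (T : J f) (P Q : Pt f), 0 < N ∧ 0 < M ∧ M • T = 0 ∧ N • a + T = cl P + cl Q ∧
      ∀ m : ℤ, m ≠ 0 → m • (cl P - cl Q) ∉ AddSubgroup.closure (B : Set (J f)) := by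
  -- two places
  obtain ⟨l₁, hl₁, hl₁2, hp₁⟩ := exists_place hf 2
  obtain ⟨l₂, hl₂, hl₂1, hp₂⟩ := exists_place hf l₁
  have hl₂2 : 2 < l₂ := hl₁2.trans hl₂1
  let l : Bool → ℕ := fun i => bif i then l₁ else l₂
  have hp : ∀ i, HasPlace f (l i) := by
    rintro (_ | _)
    · exact hp₂
    · exact hp₁
  have hl : ∀ i, (l i).Prime := by
    rintro (_ | _)
    · exact hl₂
    · exact hl₁
  have hl2 : ∀ i, 2 < l i := by
    rintro (_ | _)
    · exact hl₂2
    · exact hl₁2
  have hlne : l true ≠ l false := fun h => absurd h hl₂1.ne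
  choose κ hκ g s Sp hg hSs hS hfin using hp
  -- the finite set of coordinates
  have hrep : ∀ c : J f, ∃ PQ : Pt f × Pt f, c = cl PQ.1 + cl PQ.2 := fun c => by
    obtain ⟨P, Q, h⟩ := exists_two hf c
    exact ⟨(P, Q), h⟩
  choose rep hrep using hrep
  set S : Finset (AlgebraicClosure ℚ) := (f.support.image f.coeff) ∪
    (insert a B).biUnion fun c => coords (rep c).1 ∪ coords (rep c).2 with hSdef
  have hσf : ∀ σ : AlgebraicClosure ℚ ≃+* AlgebraicClosure ℚ, (∀ x ∈ S, σ x = x) →
      f.map (σ : AlgebraicClosure ℚ →+* AlgebraicClosure ℚ) = f := by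
    intro σ hσ
    ext i
    rw [coeff_map]
    by_cases hi : i ∈ f.support
    · exact hσ _ (Finset.mem_union_left _ (Finset.mem_image_of_mem _ hi))
    · rw [notMem_support_iff.1 hi]
      exact map_zero σ
  choose! act hact' using fun (σ : AlgebraicClosure ℚ ≃+* AlgebraicClosure ℚ)
    (h : f.map (σ : AlgebraicClosure ℚ →+* AlgebraicClosure ℚ) = f) => exists_act σ h
  have hact : ∀ (σ : AlgebraicClosure ℚ ≃+* AlgebraicClosure ℚ)
      (h : f.map (σ : AlgebraicClosure ℚ →+* AlgebraicClosure ℚ) = f) (P : Pt f),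
      act σ (cl P) = cl (P.act σ h) := fun σ h => (hact' σ h).1
  have hfix : ∀ σ (hσ : ∀ x ∈ S, σ x = x), ∀ c ∈ insert a B, act σ c = c := by
    intro σ hσ c hc
    conv_lhs => rw [hrep c]
    rw [map_add, hact σ (hσf σ hσ), hact σ (hσf σ hσ), act_eq_self, act_eq_self, ← hrep c]
    · intro x hx
      exact hσ x (Finset.mem_union_right _ (Finset.mem_biUnion.2
        ⟨c, hc, Finset.mem_union_right _ hx⟩))
    · intro x hx
      exact hσ x (Finset.mem_union_right _ (Finset.mem_biUnion.2
        ⟨c, hc, Finset.mem_union_left _ hx⟩))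
  -- the degree bound
  obtain ⟨D, hD⟩ := deg_le_of_orbit S
  have hfixdeg : ∀ c : J f, c ≠ 0 → (∀ σ, (∀ x ∈ S, σ x = x) → act σ c = c) →
      (rep c).1.DegLE D ∧ (rep c).2.DegLE D := by
    intro c hc0 hc
    have key : ∀ σ (hσ : ∀ x ∈ S, σ x = x),
        ((rep c).1.act σ (hσf σ hσ) = (rep c).1 ∧ (rep c).2.act σ (hσf σ hσ) = (rep c).2) ∨
        ((rep c).1.act σ (hσf σ hσ) = (rep c).2 ∧ (rep c).2.act σ (hσf σ hσ) = (rep c).1) := by
      intro σ hσ
      have h1 := hc σ hσ
      rw [hrep c, map_add, hact σ (hσf σ hσ), hact σ (hσf σ hσ)] at h1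
      rcases cl_add_eq hf h1 with h2 | h2 | ⟨h2, h3⟩
      · exact Or.inl h2
      · exact Or.inr h2
      · exact absurd (by rw [hrep c, h3, cl_neg hf, add_neg_cancel]) hc0
    constructor
    · rcases h1 : (rep c).1 with _ | ⟨x, y, e⟩
      · trivial
      · rcases h2 : (rep c).2 with _ | ⟨x', y', e'⟩
        · refine ⟨hD x x fun σ hσ => ?_, hD y y fun σ hσ => ?_⟩
          · rcases key σ hσ with ⟨h3, -⟩ | ⟨h3, -⟩
            · rw [h1] at h3
              exact Or.inl (Pt.aff.inj h3).1
            · rw [h1, h2] at h3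
              cases h3
          · rcases key σ hσ with ⟨h3, -⟩ | ⟨h3, -⟩
            · rw [h1] at h3
              exact Or.inl (Pt.aff.inj h3).2
            · rw [h1, h2] at h3
              cases h3
        · refine ⟨hD x x' fun σ hσ => ?_, hD y y' fun σ hσ => ?_⟩
          · rcases key σ hσ with ⟨h3, -⟩ | ⟨h3, -⟩
            · rw [h1] at h3
              exact Or.inl (Pt.aff.inj h3).1
            · rw [h1, h2] at h3
              exact Or.inr (Pt.aff.inj h3).1
          · rcases key σ hσ with ⟨h3, -⟩ | ⟨h3, -⟩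
            · rw [h1] at h3
              exact Or.inl (Pt.aff.inj h3).2
            · rw [h1, h2] at h3
              exact Or.inr (Pt.aff.inj h3).2
    · rcases h1 : (rep c).2 with _ | ⟨x, y, e⟩
      · trivial
      · rcases h2 : (rep c).1 with _ | ⟨x', y', e'⟩
        · refine ⟨hD x x fun σ hσ => ?_, hD y y fun σ hσ => ?_⟩
          · rcases key σ hσ with ⟨-, h3⟩ | ⟨-, h3⟩
            · rw [h1] at h3
              exact Or.inl (Pt.aff.inj h3).1
            · rw [h1, h2] at h3
              cases h3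
          · rcases key σ hσ with ⟨-, h3⟩ | ⟨-, h3⟩
            · rw [h1] at h3
              exact Or.inl (Pt.aff.inj h3).2
            · rw [h1, h2] at h3
              cases h3
        · refine ⟨hD x x' fun σ hσ => ?_, hD y y' fun σ hσ => ?_⟩
          · rcases key σ hσ with ⟨-, h3⟩ | ⟨-, h3⟩
            · rw [h1] at h3
              exact Or.inl (Pt.aff.inj h3).1
            · rw [h1, h2] at h3
              exact Or.inr (Pt.aff.inj h3).1
          · rcases key σ hσ with ⟨-, h3⟩ | ⟨-, h3⟩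
            · rw [h1] at h3
              exact Or.inl (Pt.aff.inj h3).2
            · rw [h1, h2] at h3
              exact Or.inr (Pt.aff.inj h3).2
  -- the images of the fixed classes are finite in number
  have hfinS : ∀ i, (Sp i '' {c | ∀ σ, (∀ x ∈ S, σ x = x) → act σ c = c}).Finite := by
    intro i
    have h1 := (hfin i D).prod (hfin i D)
    refine ((h1.image fun p : Pt (g i) × Pt (g i) => cl p.1 + cl p.2).insert 0).subset ?_
    rintro _ ⟨c, hc, rfl⟩
    by_cases hc0 : c = 0
    · rw [hc0, map_zero]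
      exact Set.mem_insert _ _
    · refine Set.mem_insert_of_mem _ ?_
      obtain ⟨h2, h3⟩ := hfixdeg c hc0 hc
      refine ⟨(s i (rep c).1, s i (rep c).2), ⟨⟨_, h2, rfl⟩, ⟨_, h3, rfl⟩⟩, ?_⟩
      show cl (s i (rep c).1) + cl (s i (rep c).2) = Sp i c
      conv_rhs => rw [hrep c]
      rw [map_add, hSs, hSs]
  -- a multiple of a in both kernels
  have hkill : ∀ i, ∃ N : ℕ, 0 < N ∧ Sp i (N • a) = 0 := by
    intro i
    have h1 : ∀ N : ℕ, N • a ∈ {c | ∀ σ, (∀ x ∈ S, σ x = x) → act σ c = c} := by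
      intro N σ hσ
      rw [map_nsmul, hfix σ hσ a (Finset.mem_insert_self _ _)]
    have h2 : ¬ Function.Injective fun N : ℕ =>
        (⟨Sp i (N • a), ⟨N • a, h1 N, rfl⟩⟩ : ↥(Sp i '' {c | ∀ σ, (∀ x ∈ S, σ x = x) →
          act σ c = c})) := by
      intro hinj
      have := (hfinS i).to_subtype
      exact not_injective_infinite_finite _ hinj
    simp only [Function.Injective, not_forall] at h2
    obtain ⟨N, N', h3, h4⟩ := h2
    have h5 : Sp i (N • a) = Sp i (N' • a) := congrArg Subtype.val h3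
    rcases lt_or_gt_of_ne h4 with h6 | h6
    · refine ⟨N' - N, Nat.sub_pos_of_lt h6, ?_⟩
      have h7 : N' • a = (N' - N) • a + N • a := by rw [← add_smul, Nat.sub_add_cancel h6.le]
      rw [h7, map_add] at h5
      exact (add_eq_right.1 h5.symm)
    · refine ⟨N - N', Nat.sub_pos_of_lt h6, ?_⟩
      have h7 : N • a = (N - N') • a + N' • a := by rw [← add_smul, Nat.sub_add_cancel h6.le]
      rw [h7, map_add] at h5
      exact (add_eq_right.1 h5)
  choose N₀ hN₀ hN₀a using hkill
  set N₁ : ℕ := N₀ true * N₀ false with hN₁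
  have hN₁0 : 0 < N₁ := Nat.mul_pos (hN₀ _) (hN₀ _)
  have hN₁a : ∀ i, Sp i (N₁ • a) = 0 := by
    rintro (_ | _)
    · rw [hN₁, mul_smul, map_nsmul, hN₀a, smul_zero]
    · rw [hN₁, mul_comm, mul_smul, map_nsmul, hN₀a, smul_zero]
  -- a torsion point which is moved
  have hker2 : ∀ i (T : J f), (∃ n : ℕ, 2 ^ n • T = 0) → Sp i T = 0 → T = 0 := by
    rintro i T ⟨n, hn⟩ hT
    refine hS i (2 ^ n) ?_ T hT hn
    intro hd
    have h1 := (hl i).dvd_of_dvd_pow hd
    exact absurd (Nat.le_of_dvd two_pos h1) (not_le.2 (hl2 i))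
  have hmove : ∃ (T : J f) (σ : AlgebraicClosure ℚ ≃+* AlgebraicClosure ℚ),
      (∃ n : ℕ, 2 ^ n • T = 0) ∧ (∀ x ∈ S, σ x = x) ∧ act σ T ≠ T := by
    by_contra hcon
    push Not at hcon
    apply infinite_two_power hf
    refine Set.Finite.of_finite_image (f := Sp true) ((hfinS true).subset ?_) ?_
    · rintro _ ⟨c, hc, rfl⟩
      exact ⟨c, fun σ hσ => hcon c σ hc hσ, rfl⟩
    · rintro c ⟨n, hn⟩ c' ⟨n', hn'⟩ h
      rw [← sub_eq_zero]
      exact hker2 true _ ⟨n + n', pow_sub hn hn'⟩ (by rw [map_sub, sub_eq_zero]; exact h)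
  obtain ⟨T, σ, ⟨n, hnT⟩, hσ, hne⟩ := hmove
  have hT0 : T ≠ 0 := by
    rintro rfl
    exact hne (map_zero _)
  have hσT2 : 2 ^ n • act σ T = 0 := by rw [← map_nsmul, hnT, map_zero]
  have hσT0 : act σ T ≠ 0 := by
    intro h
    exact hT0 ((hact' σ (hσf σ hσ)).2 (h.trans (map_zero _).symm))
  -- finiteness of the fibres
  have hfib : ∀ τ : J f, τ ≠ 0 → {z : Pt f | ∃ u, cl u - cl z = τ}.Finite := by
    intro τ hτ
    by_cases hemp : ∃ z u : Pt f, cl u - cl z = τ
    · obtain ⟨z, u, hzu⟩ := hemp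
      refine (Set.toFinite {z, u.neg}).subset ?_
      rintro z' ⟨u', h'⟩
      have h1 : cl u' + cl z = cl u + cl z' := sub_aux hzu h'
      rcases cl_add_eq hf h1 with ⟨-, h2⟩ | ⟨-, h2⟩ | ⟨-, h2⟩
      · exact Or.inl h2.symm
      · exfalso
        apply hτ
        rw [← hzu, h2, sub_self]
      · exact Or.inr h2
    · convert Set.finite_empty
      ext z
      simp only [Set.mem_setOf_eq, Set.mem_empty_iff_false, iff_false]
      rintro ⟨u, hu⟩
      exact hemp ⟨z, u, hu⟩
  obtain ⟨N, hN, P, Q, hPQ, hmain⟩ := core (cl : Pt f → J f) (act σ) (fun P => P.act σ (hσf σ hσ))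
    (fun P => hact σ (hσf σ hσ) P) (fun c => ⟨_, _, hrep c⟩) hfib (fun i => J (g i))
    (fun i => Pt (g i)) (fun i => cl) Sp s hSs (fun i p q p' q' h h0 => by
      rcases cl_add_eq (hg i) h with h1 | h1 | ⟨h1, -⟩
      · exact Or.inl h1
      · exact Or.inr h1
      · exact absurd (by rw [h1, cl_neg (hg i), add_neg_cancel]) h0)
    (fun c hc hn => ker_two hl hlne Sp hS c hc hn) (N₁ • a) T
    (fun m hm => by rw [← mul_smul]; exact ha _ (Nat.mul_pos hm hN₁0))
    (by rw [map_nsmul, hfix σ hσ a (Finset.mem_insert_self _ _)]) hN₁a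
    ⟨2 ^ n, by positivity, hnT⟩ (fun i h => hT0 (hker2 i T ⟨n, hnT⟩ h))
    (fun i h => hσT0 (hker2 i _ ⟨n, hσT2⟩ h)) hne
  refine ⟨N * N₁, 2 ^ n, T, P, Q, Nat.mul_pos hN hN₁0, by positivity, hnT, ?_, ?_⟩
  · rw [mul_smul]
    exact hPQ
  · intro m hm hmem
    have h1 : act σ (m • (cl P - cl Q)) = m • (cl P - cl Q) := by
      have h2 : ∀ c ∈ AddSubgroup.closure (B : Set (J f)), act σ c = c := by
        intro c hc
        induction hc using AddSubgroup.closure_induction with
        | mem c hc => exact hfix σ hσ c (Finset.mem_insert_of_mem hc)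
        | zero => exact map_zero _
        | add c c' _ _ h h' => rw [map_add, h, h']
        | neg c _ h => rw [map_neg, h]
      exact h2 _ hmem
    have h3 : m • (act σ (cl P - cl Q) - (cl P - cl Q)) = 0 := fix_aux h1
    exact hmain m.natAbs (Int.natAbs_pos.2 hm) (natAbs_aux h3)

end Pool.Agent.GTwo
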