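import Pool.Agent.GTwo.Field

/-!
# Specialization of points
-/

set_option autoImplicit false

noncomputable section

namespace Pool.Agent.GTwo

open Polynomial
open scoped Classical

variable {k : Type} [Field k] (O : ValuationSubring k) {f : O[X]}

private theorem spec1_map_inj {P Q : Pt f}
    (h : P.map (algebraMap O k) = Q.map (algebraMap O k)) : P = Q := by
  cases P with
  | inf =>
    cases Q with
    | inf => rfl
    | aff x y e => simp [Pt.map] at h
  | aff x y e =>
    cases Q with
    | inf => simp [Pt.map] at h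
    | aff x' y' e' =>
      simp only [Pt.map, Pt.aff.injEq] at h
      obtain ⟨h1, h2⟩ := h
      have h1' : x = x' := FaithfulSMul.algebraMap_injective O k h1
      have h2' : y = y' := FaithfulSMul.algebraMap_injective O k h2
      subst h1'
      subst h2'
      rfl

theorem sp_map (P : Pt f) : sp O (P.map (algebraMap O k)) = P.map (IsLocalRing.residue O) := by
  have h : ∃ P₀ : Pt f, P₀.map (algebraMap O k) = P.map (algebraMap O k) := ⟨P, rfl⟩
  unfold sp
  rw [dif_pos h]
  rw [spec1_map_inj O (Classical.choose_spec h)]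

theorem sp_of_forall_ne {P : Pt (f.map (algebraMap O k))}
    (h : ∀ P₀ : Pt f, P₀.map (algebraMap O k) ≠ P) : sp O P = .inf := by
  unfold sp
  rw [dif_neg]
  rintro ⟨P₀, hP₀⟩
  exact h P₀ hP₀

private theorem spec1_neg_neg {A : Type} [CommRing A] {g : A[X]} (P : Pt g) : P.neg.neg = P := by
  cases P with
  | inf => rfl
  | aff x y e => simp [Pt.neg]

private theorem spec1_map_neg {A B : Type} [CommRing A] [CommRing B] {g : A[X]} (φ : A →+* B)
    (P : Pt g) : P.neg.map φ = (P.map φ).neg := by
  cases P with
  | inf => rfl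
  | aff x y e => simp [Pt.neg, Pt.map]

theorem sp_neg (P : Pt (f.map (algebraMap O k))) : sp O P.neg = (sp O P).neg := by
  by_cases h : ∃ P₀ : Pt f, P₀.map (algebraMap O k) = P
  · obtain ⟨P₀, rfl⟩ := h
    rw [← spec1_map_neg, sp_map, sp_map, spec1_map_neg]
  · push Not at h
    rw [sp_of_forall_ne O h, sp_of_forall_ne O]
    · rfl
    · intro P₀ hP₀
      apply h P₀.neg
      rw [spec1_map_neg, hP₀, spec1_neg_neg]

/-- the points with integral abscissa are integral -/
theorem exists_integral (hf : Hyp f) {x y : k} (h : y ^ 2 = (f.map (algebraMap O k)).eval x)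
    (hx : x ∈ O) : ∃ P₀ : Pt f, P₀.map (algebraMap O k) = .aff x y h := by
  have h1 : y ^ 2 = algebraMap O k (f.eval ⟨x, hx⟩) := by
    rw [h, eval_map]
    exact eval₂_at_apply (algebraMap O k) (⟨x, hx⟩ : O)
  have h2 : O.valuation (y ^ 2) ≤ 1 := by
    rw [h1]
    exact (O.valuation_le_one_iff _).2 (f.eval (⟨x, hx⟩ : O)).2
  have h3 : y ∈ O := by
    rw [← O.valuation_le_one_iff]
    rw [map_pow] at h2
    exact (pow_le_one_iff (two_ne_zero)).1 h2
  refine ⟨.aff ⟨x, hx⟩ ⟨y, h3⟩ ?_, ?_⟩
  · apply FaithfulSMul.algebraMap_injective O k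
    rw [← h1]
    rfl
  · rfl

/-- a regular function can be scaled so that it has a non-zero reduction -/
theorem exists_primitive {α : Rg (f.map (algebraMap O k))} (hα : α ≠ 0) :
    ∃ (c : k) (α₀ : Rg f), c ≠ 0 ∧ Rg.map (algebraMap O k) α₀ = rl (C c) * α ∧
      Rg.map (IsLocalRing.residue O) α₀ ≠ 0 := by
  set T : Finset k := (α.re.support.image α.re.coeff) ∪ (α.im.support.image α.im.coeff) with hT
  have hTne : T.Nonempty := by
    by_contra hne
    rw [Finset.not_nonempty_iff_eq_empty, hT, Finset.union_eq_empty] at hne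
    apply hα
    ext1
    · have := hne.1
      rw [Finset.image_eq_empty, support_eq_empty] at this
      rw [this]; rfl
    · have := hne.2
      rw [Finset.image_eq_empty, support_eq_empty] at this
      rw [this]; rfl
  obtain ⟨t, htT, ht⟩ := T.exists_max_image O.valuation hTne
  have ht0 : t ≠ 0 := by
    rw [hT, Finset.mem_union] at htT
    rcases htT with h | h
    · obtain ⟨i, hi, rfl⟩ := Finset.mem_image.1 h
      exact mem_support_iff.1 hi
    · obtain ⟨i, hi, rfl⟩ := Finset.mem_image.1 h
      exact mem_support_iff.1 hi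
  have hv0 : O.valuation t ≠ 0 := by
    rw [Ne, map_eq_zero]; exact ht0
  have hint : ∀ s ∈ T, t⁻¹ * s ∈ O := by
    intro s hs
    rw [← O.valuation_le_one_iff, map_mul, map_inv₀]
    rw [inv_mul_le_one₀ (zero_lt_iff.2 hv0)]
    exact ht s hs
  have hre : ∀ i, t⁻¹ * α.re.coeff i ∈ O := by
    intro i
    by_cases hi : α.re.coeff i = 0
    · rw [hi, mul_zero]; exact O.zero_mem
    · apply hint
      rw [hT, Finset.mem_union]
      exact Or.inl (Finset.mem_image_of_mem _ (mem_support_iff.2 hi))
  have him : ∀ i, t⁻¹ * α.im.coeff i ∈ O := by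
    intro i
    by_cases hi : α.im.coeff i = 0
    · rw [hi, mul_zero]; exact O.zero_mem
    · apply hint
      rw [hT, Finset.mem_union]
      exact Or.inr (Finset.mem_image_of_mem _ (mem_support_iff.2 hi))
  obtain ⟨p, hp⟩ : ∃ p : O[X], p.map (algebraMap O k) = C t⁻¹ * α.re := by
    have : C t⁻¹ * α.re ∈ lifts (algebraMap O k) := by
      rw [lifts_iff_coeff_lifts]
      intro n
      rw [coeff_C_mul]
      exact ⟨⟨_, hre n⟩, rfl⟩
    exact (mem_lifts _).1 this
  obtain ⟨q, hq⟩ : ∃ q : O[X], q.map (algebraMap O k) = C t⁻¹ * α.im := by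
    have : C t⁻¹ * α.im ∈ lifts (algebraMap O k) := by
      rw [lifts_iff_coeff_lifts]
      intro n
      rw [coeff_C_mul]
      exact ⟨⟨_, him n⟩, rfl⟩
    exact (mem_lifts _).1 this
  refine ⟨t⁻¹, ⟨p, q⟩, inv_ne_zero ht0, ?_, ?_⟩
  · ext1
    · simp [Rg.map, hp]
    · simp [Rg.map, hq]
  · intro h0
    have h0re : p.map (IsLocalRing.residue O) = 0 := congrArg QuadraticAlgebra.re h0
    have h0im : q.map (IsLocalRing.residue O) = 0 := congrArg QuadraticAlgebra.im h0
    rw [hT, Finset.mem_union] at htT
    rcases htT with h | h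
    · obtain ⟨i, hi, hit⟩ := Finset.mem_image.1 h
      have h1 : p.coeff i = 1 := by
        apply FaithfulSMul.algebraMap_injective O k
        have h2 := congrArg (fun r => coeff r i) hp
        simp only [coeff_map, coeff_C_mul] at h2
        rw [h2, hit, inv_mul_cancel₀ ht0, map_one]
      have h3 := congrArg (fun r => coeff r i) h0re
      simp only [coeff_map, coeff_zero, h1, map_one] at h3
      exact one_ne_zero h3
    · obtain ⟨i, hi, hit⟩ := Finset.mem_image.1 h
      have h1 : q.coeff i = 1 := by
        apply FaithfulSMul.algebraMap_injective O k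
        have h2 := congrArg (fun r => coeff r i) hq
        simp only [coeff_map, coeff_C_mul] at h2
        rw [h2, hit, inv_mul_cancel₀ ht0, map_one]
      have h3 := congrArg (fun r => coeff r i) h0im
      simp only [coeff_map, coeff_zero, h1, map_one] at h3
      exact one_ne_zero h3

/-- reduction of the product of the linear polynomials -/
theorem lins_reduce (hf : Hyp f) (s : Multiset (Pt (f.map (algebraMap O k)))) :
    ∃ (c : k) (h : O[X]), c ≠ 0 ∧ h.map (algebraMap O k) = C c * lins s ∧
      h.map (IsLocalRing.residue O) = lins (s.map (sp O)) := by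
  induction s using Multiset.induction_on with
  | empty => exact ⟨1, 1, one_ne_zero, by simp [lins], by simp [lins]⟩
  | cons P s ih =>
    obtain ⟨c, h, hc, h1, h2⟩ := ih
    have hl : ∀ {A : Type} [CommRing A] {g : A[X]} (P : Pt g) (s : Multiset (Pt g)),
        lins (P ::ₘ s) = P.lin * lins s := by
      intro A _ g P s
      simp [lins]
    rw [Multiset.map_cons, hl, hl]
    by_cases hP : ∃ P₀ : Pt f, P₀.map (algebraMap O k) = P
    · obtain ⟨P₀, rfl⟩ := hP
      rw [sp_map]
      refine ⟨c, P₀.lin * h, hc, ?_, ?_⟩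
      · rw [Polynomial.map_mul, h1]
        cases P₀ with
        | inf => simp [Pt.lin, Pt.map]
        | aff x y e =>
          simp only [Pt.lin, Pt.map, Polynomial.map_sub, map_X, map_C]
          ring
      · rw [Polynomial.map_mul, h2]
        cases P₀ with
        | inf => simp [Pt.lin, Pt.map]
        | aff x y e =>
          simp only [Pt.lin, Pt.map, Polynomial.map_sub, map_X, map_C]
    · have hsp : sp O P = .inf := sp_of_forall_ne O (fun P₀ h => hP ⟨P₀, h⟩)
      rw [hsp]
      cases P with
      | inf => exact absurd ⟨.inf, rfl⟩ hP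
      | aff x y e =>
        have hx : x ∉ O := by
          intro hx
          exact hP (exists_integral O hf e hx)
        have hx0 : x ≠ 0 := by
          rintro rfl
          exact hx O.zero_mem
        have hxi : x⁻¹ ∈ O := (O.mem_or_inv_mem x).resolve_left hx
        have hres : IsLocalRing.residue O ⟨x⁻¹, hxi⟩ = 0 := by
          rw [IsLocalRing.residue_eq_zero_iff, IsLocalRing.mem_maximalIdeal, mem_nonunits_iff]
          intro hu
          rw [O.valuation_eq_one_iff] at hu
          apply hx
          rw [← O.valuation_le_one_iff]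
          have : O.valuation x⁻¹ = 1 := hu
          rw [map_inv₀, inv_eq_one] at this
          rw [this]
        refine ⟨-(x⁻¹) * c, (1 - C ⟨x⁻¹, hxi⟩ * X) * h, ?_, ?_, ?_⟩
        · exact mul_ne_zero (neg_ne_zero.2 (inv_ne_zero hx0)) hc
        · rw [Polynomial.map_mul, h1]
          simp only [Pt.lin, Polynomial.map_sub, Polynomial.map_one, Polynomial.map_mul, map_C,
            map_X]
          have : algebraMap O k ⟨x⁻¹, hxi⟩ = x⁻¹ := rfl
          rw [this, C_mul, C_neg]
          have h3 : (C x⁻¹ : k[X]) * C x = 1 := by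
            rw [← C_mul, inv_mul_cancel₀ hx0, C_1]
          linear_combination (-1 : k[X]) * C c * lins s * h3
        · rw [Polynomial.map_mul, h2]
          simp [Pt.lin, hres]

end Pool.Agent.GTwo
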