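import Pool.Agent.GTwo.JGroup
import Pool.Agent.GTwo.Spec1

/-!
# The specialization homomorphism
-/

set_option autoImplicit false

noncomputable section

namespace Pool.Agent.GTwo

open Polynomial
open scoped Classical

variable {k : Type} [Field k] (O : ValuationSubring k) {f : O[X]}

private theorem mem_left {R : Type} [CommRing R] {I K : Ideal R} {x : R} (h : x ∈ I * K) :
    x ∈ I := Ideal.mul_le_left h

private theorem norm_map {A B : Type} [CommRing A] [CommRing B] {f : A[X]} (φ : A →+* B)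
    (z : Rg f) : QuadraticAlgebra.norm (Rg.map φ z) = (QuadraticAlgebra.norm z).map φ := by
  rw [QuadraticAlgebra.norm_def, QuadraticAlgebra.norm_def]
  simp [Rg.map]

private theorem lins_monic {A : Type} [CommRing A] {f : A[X]} (s : Multiset (Pt f)) :
    (lins s).Monic :=
  monic_multiset_prod_of_monic s Pt.lin fun P _ => P.lin_monic

private theorem exists_split (s : Multiset (Pt (f.map (algebraMap O k)))) :
    ∃ (s₀ : Multiset (Pt f)) (s₁ : Multiset (Pt (f.map (algebraMap O k)))),
      s = s₀.map (Pt.map (algebraMap O k)) + s₁ ∧ ∀ P ∈ s₁, sp O P = .inf := by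
  induction s using Multiset.induction_on with
  | empty => exact ⟨0, 0, by simp, by simp⟩
  | cons P s ih =>
    obtain ⟨s₀, s₁, hs, h1⟩ := ih
    by_cases hP : ∃ P₀ : Pt f, P₀.map (algebraMap O k) = P
    · obtain ⟨P₀, rfl⟩ := hP
      refine ⟨P₀ ::ₘ s₀, s₁, ?_, h1⟩
      rw [hs, Multiset.map_cons, Multiset.cons_add]
    · refine ⟨s₀, P ::ₘ s₁, ?_, ?_⟩
      · rw [hs, Multiset.add_cons]
      · intro Q hQ
        rcases Multiset.mem_cons.mp hQ with rfl | hQ
        · exact sp_of_forall_ne O fun P₀ h => hP ⟨P₀, h⟩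
        · exact h1 Q hQ

private theorem idl_inf {A : Type} [CommRing A] {f : A[X]} (s : Multiset (Pt f))
    (h : ∀ P ∈ s, P = .inf) : idl s = ⊤ := by
  induction s using Multiset.induction_on with
  | empty => exact idl_zero
  | cons P s ih =>
    rw [idl_cons, ih fun Q hQ => h Q (Multiset.mem_cons_of_mem hQ), h P (Multiset.mem_cons_self P s)]
    show (⊤ : Ideal (Rg f)) * ⊤ = ⊤
    exact Ideal.mul_top _

/-- reduction of a principal ideal -/
theorem span_reduce (hf : Hyp f) {s : Multiset (Pt (f.map (algebraMap O k)))} {α₀ : Rg f}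
    (h : Ideal.span {Rg.map (algebraMap O k) α₀} = idl s)
    (h0 : Rg.map (IsLocalRing.residue O) α₀ ≠ 0) :
    Ideal.span {Rg.map (IsLocalRing.residue O) α₀} = idl (s.map (sp O)) := by
  have hinj : Function.Injective (algebraMap O k) := Subtype.val_injective
  have hfk : Hyp (f.map (algebraMap O k)) := hf.map _
  have hfr : Hyp (f.map (IsLocalRing.residue O)) := hf.map _
  -- membership
  have hmem : Rg.map (IsLocalRing.residue O) α₀ ∈ idl (s.map (sp O)) := by
    obtain ⟨s₀, s₁, hs, h1⟩ := exists_split O s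
    have e1 : Rg.map (algebraMap O k) α₀ ∈ idl (s₀.map (Pt.map (algebraMap O k))) := by
      have e2 : Rg.map (algebraMap O k) α₀ ∈ idl s := by
        rw [← h]
        exact Ideal.subset_span rfl
      rw [hs, idl_add] at e2
      exact mem_left e2
    have e3 : α₀ ∈ idl s₀ := mem_idl_of_map hf (algebraMap O k) hinj s₀ e1
    have e4 : Rg.map (IsLocalRing.residue O) α₀ ∈
        idl (s₀.map (Pt.map (IsLocalRing.residue O))) := by
      rw [idl_map]
      exact Ideal.mem_map_of_mem _ e3
    have e5 : idl (s.map (sp O)) = idl (s₀.map (Pt.map (IsLocalRing.residue O))) := by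
      rw [hs, Multiset.map_add, idl_add, Multiset.map_map]
      have e6 : idl (s₁.map (sp O)) = ⊤ := by
        apply idl_inf
        intro P hP
        obtain ⟨Q, hQ, rfl⟩ := Multiset.mem_map.mp hP
        exact h1 Q hQ
      rw [e6, Ideal.mul_top]
      congr 1
      exact Multiset.map_congr rfl fun P _ => sp_map O P
    rw [e5]
    exact e4
  -- norms
  obtain ⟨c₁, hc₁, hn⟩ := exists_norm hfk h
  obtain ⟨c, g, hc, hg, hgr⟩ := lins_reduce O hf s
  rw [norm_map] at hn
  have hne : QuadraticAlgebra.norm (Rg.map (IsLocalRing.residue O) α₀) ≠ 0 :=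
    norm_ne_zero hfr h0
  rw [norm_map] at hne
  have hlin : lins s = C c⁻¹ * g.map (algebraMap O k) := by
    rw [hg, ← mul_assoc, ← C_mul, inv_mul_cancel₀ hc, C_1, one_mul]
  have hn2 : (QuadraticAlgebra.norm α₀).map (algebraMap O k) =
      C (c₁ * c⁻¹) * g.map (algebraMap O k) := by
    rw [hn, hlin, ← mul_assoc, ← C_mul]
  have hmapinj : Function.Injective (Polynomial.map (algebraMap O k)) :=
    Polynomial.map_injective _ hinj
  by_cases hd : c₁ * c⁻¹ ∈ O
  · have hn3 : QuadraticAlgebra.norm α₀ = C ⟨c₁ * c⁻¹, hd⟩ * g := by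
      apply hmapinj
      rw [hn2, Polynomial.map_mul, Polynomial.map_C]
      rfl
    have hn4 : QuadraticAlgebra.norm (Rg.map (IsLocalRing.residue O) α₀) =
        C (IsLocalRing.residue O ⟨c₁ * c⁻¹, hd⟩) * lins (s.map (sp O)) := by
      rw [norm_map, hn3, Polynomial.map_mul, Polynomial.map_C, hgr]
    refine span_eq hfr hmem (c := IsLocalRing.residue O ⟨c₁ * c⁻¹, hd⟩) ?_ hn4
    intro h5
    apply hne
    rw [← norm_map, hn4, h5, C_0, zero_mul]
  · exfalso
    have hd0 : c₁ * c⁻¹ ≠ 0 := mul_ne_zero hc₁ (inv_ne_zero hc)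
    have hd1 : (c₁ * c⁻¹)⁻¹ ∈ O := (O.mem_or_inv_mem _).resolve_left hd
    have hg2 : g = C ⟨(c₁ * c⁻¹)⁻¹, hd1⟩ * QuadraticAlgebra.norm α₀ := by
      apply hmapinj
      rw [Polynomial.map_mul, Polynomial.map_C, hn2, ← mul_assoc, ← C_mul]
      have : (algebraMap O k) ⟨(c₁ * c⁻¹)⁻¹, hd1⟩ * (c₁ * c⁻¹) = 1 := by
        show (c₁ * c⁻¹)⁻¹ * (c₁ * c⁻¹) = 1
        exact inv_mul_cancel₀ hd0
      rw [this, C_1, one_mul]
    have hres : IsLocalRing.residue O ⟨(c₁ * c⁻¹)⁻¹, hd1⟩ = 0 := by
      rw [IsLocalRing.residue_eq_zero_iff, IsLocalRing.mem_maximalIdeal]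
      intro hu
      obtain ⟨b, hb⟩ := isUnit_iff_exists_inv.mp hu
      apply hd
      have h6 : (c₁ * c⁻¹)⁻¹ * (b : k) = 1 := congrArg (fun x : O => (x : k)) hb
      have h7 : (b : k) = c₁ * c⁻¹ := by
        rw [inv_mul_eq_one₀ hd0] at h6
        exact h6.symm
      rw [← h7]
      exact b.2
    have h8 : g.map (IsLocalRing.residue O) = 0 := by
      rw [hg2, Polynomial.map_mul, Polynomial.map_C, hres, C_0, zero_mul]
    rw [hgr] at h8
    exact (lins_monic (s.map (sp O))).ne_zero h8

private theorem prin_sp (hf : Hyp f) {s : Multiset (Pt (f.map (algebraMap O k)))}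
    (hs : Prin s) : Prin (s.map (sp O)) := by
  have hfk : Hyp (f.map (algebraMap O k)) := hf.map _
  obtain ⟨α, hα⟩ := hs
  have hα' : Ideal.span {α} = idl s := hα
  have hne : α ≠ 0 := by
    rintro rfl
    have h1 : rl (lins s) ∈ idl s := by
      have h2 : rl (lins s) ∈ idl s * idl (s.map Pt.neg) := by
        rw [idl_mul_neg hfk]
        exact Ideal.subset_span rfl
      exact mem_left h2
    rw [← hα', Ideal.mem_span_singleton, zero_dvd_iff] at h1
    have h3 : lins s = 0 := by
      have := congrArg QuadraticAlgebra.re h1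
      simpa using this
    exact (lins_monic s).ne_zero h3
  obtain ⟨c, α₀, hc, h1, h2⟩ := exists_primitive O hne
  have hu : IsUnit (rl (C c) : Rg (f.map (algebraMap O k))) :=
    ((isUnit_iff_ne_zero.mpr hc).map C).map (algebraMap k[X] (Rg (f.map (algebraMap O k))))
  have h3 : Ideal.span {Rg.map (algebraMap O k) α₀} = idl s := by
    rw [h1, mul_comm, Ideal.span_singleton_mul_right_unit hu, hα']
  exact ⟨_, span_reduce O hf h3 h2⟩

/-- the specialization homomorphism -/
theorem exists_specHom (hf : Hyp f) :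
    ∃ Sp : J (f.map (algebraMap O k)) →+ J (f.map (IsLocalRing.residue O)),
      ∀ P, Sp (cl P) = cl (sp O P) := by
  let Φ : (Pt (f.map (algebraMap O k)) →₀ ℤ) →+ J (f.map (IsLocalRing.residue O)) :=
    (QuotientAddGroup.mk' _).comp (Finsupp.mapDomain.addMonoidHom (sp O))
  have hdv : ∀ s : Multiset (Pt (f.map (algebraMap O k))),
      Finsupp.mapDomain (sp O) (dv s) = dv (s.map (sp O)) := by
    intro s
    induction s using Multiset.induction_on with
    | empty => simp [dv]
    | cons P s ih =>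
      have e1 : dv (P ::ₘ s) = Finsupp.single P 1 + dv s := by simp [dv]
      have e2 : dv ((P ::ₘ s).map (sp O)) = Finsupp.single (sp O P) 1 + dv (s.map (sp O)) := by
        simp [dv]
      rw [e1, e2, Finsupp.mapDomain_add, ih, Finsupp.mapDomain_single]
  have hΦ : AddSubgroup.closure {D | ∃ s : Multiset (Pt (f.map (algebraMap O k))), Prin s ∧
      D = dv s} ≤ Φ.ker := by
    rw [AddSubgroup.closure_le]
    rintro _ ⟨s, hs, rfl⟩
    show Φ (dv s) = 0
    show QuotientAddGroup.mk (Finsupp.mapDomain (sp O) (dv s)) = _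
    rw [hdv, QuotientAddGroup.eq_zero_iff]
    exact AddSubgroup.subset_closure ⟨_, prin_sp O hf hs, rfl⟩
  refine ⟨QuotientAddGroup.lift _ Φ hΦ, fun P => ?_⟩
  show Φ (Finsupp.single P 1) = _
  show QuotientAddGroup.mk (Finsupp.mapDomain (sp O) (Finsupp.single P 1)) = _
  rw [Finsupp.mapDomain_single]
  rfl

end Pool.Agent.GTwo
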