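import Pool.Agent.GTwo.JGroup

/-!
# Uniqueness of the representation by two points
-/

set_option autoImplicit false

noncomputable section

namespace Pool.Agent.GTwo

open Polynomial
open scoped Classical

variable {k : Type} [Field k] {f : k[X]}

private theorem neg_ne_inf {P : Pt f} (hP : P ≠ .inf) : P.neg ≠ .inf := by
  rcases P with _ | ⟨x, y, e⟩
  · exact absurd rfl hP
  · intro h
    cases h

private theorem idl_singleton (P : Pt f) : idl {P} = P.ideal := by
  simp [idl]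

private theorem cancel_one (hf : Hyp f) (P : Pt f) {I K : Ideal (Rg f)}
    (h : P.ideal * I = P.ideal * K) : I = K := by
  apply le_antisymm
  · exact idl_cancel hf {P} (by rw [idl_singleton]; exact h.le)
  · exact idl_cancel hf {P} (by rw [idl_singleton]; exact h.ge)

private theorem key (hf : Hyp f) {s : Multiset (Pt f)} {p : k[X]}
    (h : Ideal.span {(rl p : Rg f)} = idl s) {R : Pt f} (hR : R ≠ .inf) (hRs : R ∈ s) :
    R.neg ∈ s.erase R ∧ ∃ p' : k[X], Ideal.span {(rl p' : Rg f)} = idl ((s.erase R).erase R.neg) := by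
  have hmem : (rl p : Rg f) ∈ R.ideal := by
    apply idl_le_ideal hRs
    rw [← h]
    exact Ideal.subset_span rfl
  have hdvd : ∃ p' : k[X], p = R.lin * p' := by
    rcases R with _ | ⟨x, y, e⟩
    · exact absurd rfl hR
    · rw [Pt.mem_ideal_aff] at hmem
      have h0 : p.eval x = 0 := by simpa using hmem
      obtain ⟨p', hp'⟩ := (dvd_iff_isRoot (p := p) (a := x)).mpr h0
      exact ⟨p', hp'⟩
  obtain ⟨p', rfl⟩ := hdvd
  have h1 : R.ideal * (R.neg.ideal * Ideal.span {(rl p' : Rg f)}) = R.ideal * idl (s.erase R) := by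
    rw [← idl_cons, Multiset.cons_erase hRs, ← h, ← mul_assoc, Pt.ideal_mul_neg hf,
      Ideal.span_singleton_mul_span_singleton, ← map_mul]
  have h2 := cancel_one hf R h1
  have h3 : R.neg ∈ s.erase R := by
    rw [← idl_le_ideal_iff hf _ (neg_ne_inf hR), ← h2]
    exact Ideal.mul_le.mpr fun a ha b _ => Ideal.mul_mem_right b _ ha
  refine ⟨h3, p', ?_⟩
  apply cancel_one hf R.neg
  rw [← idl_cons, Multiset.cons_erase h3, h2]

private theorem pair (hf : Hyp f) {p : k[X]} {Q R : Pt f}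
    (h : Ideal.span {(rl p : Rg f)} = idl (Q ::ₘ {R})) : R = Q.neg := by
  by_cases hQ : Q = .inf
  · by_cases hR : R = .inf
    · rw [hQ, hR]; rfl
    · have h1 := (key hf h hR (by simp)).1
      rw [Multiset.erase_cons_tail _ (by rw [hQ]; exact fun h' => hR h'.symm)] at h1
      simp only [Multiset.erase_singleton, Multiset.mem_cons, Multiset.notMem_zero, or_false] at h1
      exact absurd (h1.trans hQ) (neg_ne_inf hR)
  · have h1 := (key hf h hQ (by simp)).1
    rw [Multiset.erase_cons_head] at h1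
    exact (Multiset.mem_singleton.mp h1).symm

private theorem four (hf : Hyp f) {p : k[X]} {P Q P₁ Q₁ : Pt f} (hP : P ≠ .inf)
    (h : Ideal.span {(rl p : Rg f)} = idl (P ::ₘ Q ::ₘ P₁ ::ₘ {Q₁})) :
    (Q = P.neg ∧ Q₁ = P₁.neg) ∨ (P₁ = P.neg ∧ Q₁ = Q.neg) ∨ (Q₁ = P.neg ∧ P₁ = Q.neg) := by
  obtain ⟨h1, p', h2⟩ := key hf h hP (by simp)
  rw [Multiset.erase_cons_head] at h1 h2
  have h3 : P.neg = Q ∨ P.neg = P₁ ∨ P.neg = Q₁ := by simpa using h1
  rcases h3 with h3 | h3 | h3
  · rw [h3, Multiset.erase_cons_head] at h2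
    exact Or.inl ⟨h3.symm, pair hf h2⟩
  · rw [h3, Multiset.cons_swap, Multiset.erase_cons_head] at h2
    exact Or.inr (Or.inl ⟨h3.symm, pair hf h2⟩)
  · have e : Q ::ₘ P₁ ::ₘ ({Q₁} : Multiset (Pt f)) = Q₁ ::ₘ Q ::ₘ {P₁} := by
      rw [← Multiset.cons_zero Q₁, Multiset.cons_swap P₁ Q₁, Multiset.cons_swap Q Q₁,
        Multiset.cons_zero]
    rw [h3, e, Multiset.erase_cons_head] at h2
    exact Or.inr (Or.inr ⟨h3.symm, pair hf h2⟩)

theorem cl_add_eq (hf : Hyp f) {P Q P' Q' : Pt f} (h : cl P + cl Q = cl P' + cl Q') :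
    (P = P' ∧ Q = Q') ∨ (P = Q' ∧ Q = P') ∨ (Q = P.neg ∧ Q' = P'.neg) := by
  have hinj : ∀ {R S : Pt f}, R.neg = S.neg → R = S := fun {R S} e => by
    rw [← Pt.neg_neg R, ← Pt.neg_neg S, e]
  have hsum : ((P ::ₘ Q ::ₘ P'.neg ::ₘ {Q'.neg} : Multiset (Pt f)).map cl).sum = 0 := by
    rw [Multiset.map_cons, Multiset.map_cons, Multiset.map_cons, Multiset.map_singleton,
      Multiset.sum_cons, Multiset.sum_cons, Multiset.sum_cons, Multiset.sum_singleton,
      cl_neg hf, cl_neg hf, ← add_assoc, h]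
    abel
  obtain ⟨α, hα⟩ := (sum_cl_eq_zero_iff hf _).mp hsum
  have hα' : Ideal.span {α} = idl (P ::ₘ Q ::ₘ P'.neg ::ₘ {Q'.neg}) := hα
  obtain ⟨c, hc, hn⟩ := exists_norm hf hα'
  have hdg : dg α ≤ 4 := by
    unfold dg
    rw [hn, natDegree_C_mul hc, natDegree_lins]
    refine le_trans (Multiset.card_le_card (Multiset.filter_le _ _)) ?_
    simp
  rw [dg_le hf] at hdg
  have him : α.im = 0 := by
    rcases hdg.2 with h1 | h1
    · exact h1
    · omega
  have hrl : α = rl α.re := by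
    ext1
    · simp
    · simp [him]
  rw [hrl] at hα'
  by_cases hP : P = .inf
  · by_cases hQ : Q = .inf
    · have h1 : Ideal.span {(rl α.re : Rg f)} = idl (P'.neg ::ₘ {Q'.neg}) := by
        rw [hα', idl_cons, idl_cons, hP, hQ]
        simp [Pt.ideal]
      have h2 := pair hf h1
      right; right
      refine ⟨by rw [hP, hQ]; rfl, ?_⟩
      exact hinj h2
    · rw [Multiset.cons_swap] at hα'
      rcases four hf hQ hα' with ⟨h1, h2⟩ | ⟨h1, h2⟩ | ⟨h1, h2⟩
      · right; right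
        exact ⟨by rw [h1, Pt.neg_neg], hinj h2⟩
      · right; left
        exact ⟨(hinj h2).symm, (hinj h1).symm⟩
      · left
        exact ⟨(hinj h2).symm, (hinj h1).symm⟩
  · rcases four hf hP hα' with ⟨h1, h2⟩ | ⟨h1, h2⟩ | ⟨h1, h2⟩
    · right; right
      exact ⟨h1, hinj h2⟩
    · left
      exact ⟨(hinj h1).symm, (hinj h2).symm⟩
    · right; left
      exact ⟨(hinj h1).symm, (hinj h2).symm⟩

end Pool.Agent.GTwo
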